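import Pool.Agent.P.MP_5298e3_an.Defs

/-!
An abstract criterion for a Banach algebra to be the unitization of the completed matrix algebra.
-/

open Filter Topology Finset
open scoped ENNReal

namespace Pool.Agent.P.MP_5298e3_an

/-- The quotient of a normed ring by a closed two-sided ideal is a normed ring. -/
noncomputable abbrev quotNormedRing {R : Type} [NormedRing R] (I : Ideal R) [I.IsTwoSided]
    [IsClosed (I : Set R)] : NormedRing (R ⧸ I) :=
  { Ideal.Quotient.ring I, Submodule.Quotient.normedAddCommGroup I with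
    dist_eq := dist_eq_norm_neg_add
    norm_mul_le := fun x y => le_of_forall_pos_le_add fun ε hε => by
      have := ((Metric.nhds_basis_ball.prod_nhds Metric.nhds_basis_ball).tendsto_iff
        Metric.nhds_basis_ball).mp (continuous_mul.tendsto (‖x‖, ‖y‖)) ε hε
      simp only [Set.mem_prod, Metric.mem_ball, and_imp, Prod.forall, Prod.exists] at this
      rcases this with ⟨ε₁, ε₂, ⟨h₁, h₂⟩, h⟩
      obtain ⟨a, rfl, ha⟩ := Submodule.Quotient.norm_mk_lt x h₁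
      obtain ⟨b, rfl, hb⟩ := Submodule.Quotient.norm_mk_lt y h₂
      simp only [dist, abs_sub_lt_iff] at h
      specialize h ‖a‖ ‖b‖ ⟨by linarith, by linarith [Submodule.Quotient.norm_mk_le I a]⟩
        ⟨by linarith, by linarith [Submodule.Quotient.norm_mk_le I b]⟩
      calc
        _ ≤ ‖a‖ * ‖b‖ := (Submodule.Quotient.norm_mk_le I (a * b)).trans (norm_mul_le a b)
        _ ≤ _ := (sub_lt_iff_lt_add'.mp h.1).le }

variable {𝕜 : Type} [RCLike 𝕜] {p : ℝ≥0∞} [Fact (1 ≤ p)]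

theorem exists_algEquiv {A : Type} [NonUnitalNormedRing A] [NormedSpace 𝕜 A]
    [IsScalarTower 𝕜 A A] [SMulCommClass 𝕜 A A] {e : ℕ → ℕ → A} (hA : IsKu 𝕜 p A e)
    {Q : Type} [NormedRing Q] [NormedAlgebra 𝕜 Q] [CompleteSpace Q] (q : ℕ → ℕ → Q)
    (hmul : ∀ i j k l, q i j * q k l = if j = k then q i l else 0) {C : ℝ} (hC : 0 < C)
    (hone : ‖(1 : Q)‖ ≤ C)
    (hup : ∀ a, ‖Finsupp.linearCombination 𝕜 (fun ij : ℕ × ℕ => q ij.1 ij.2) a‖ ≤
      C * uNorm 𝕜 p a)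
    (hlow : ∀ (l : 𝕜) a, ‖l‖ + uNorm 𝕜 p a ≤
      C * ‖l • (1 : Q) + Finsupp.linearCombination 𝕜 (fun ij : ℕ × ℕ => q ij.1 ij.2) a‖)
    (hdense : ∀ y : Q, ∃ l : 𝕜, y - l • (1 : Q) ∈
      closure (Set.range (Finsupp.linearCombination 𝕜 fun ij : ℕ × ℕ => q ij.1 ij.2))) :
    ∃ Φ : Q ≃ₐ[𝕜] WithLp 1 (Unitization 𝕜 A), ∀ T, ‖Φ T‖ ≤ C * ‖T‖ ∧ ‖T‖ ≤ C * ‖Φ T‖ := by
  have := hA.complete
  set j := Finsupp.linearCombination 𝕜 (fun ij : ℕ × ℕ => e ij.1 ij.2) with hj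
  set f := Finsupp.linearCombination 𝕜 (fun ij : ℕ × ℕ => q ij.1 ij.2) with hf
  have hd : DenseRange j := hA.dense
  have hn : ∀ a, ‖j a‖ = uNorm 𝕜 p a := hA.norm
  have hb : ∀ a, ‖f a‖ ≤ C * ‖j a‖ := fun a => hn a ▸ hup a
  set Ψ := f.extendOfNorm j with hΨ
  have Ψ1 : ∀ a, Ψ (j a) = f a := LinearMap.extendOfNorm_eq hd ⟨C, hb⟩
  have Ψ2 : ∀ x, ‖Ψ x‖ ≤ C * ‖x‖ := LinearMap.norm_extendOfNorm_apply_le hd C hb
  have Ψe : ∀ i k, Ψ (e i k) = q i k := fun i k => by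
    simpa [hj, hf] using Ψ1 (Finsupp.single (i, k) 1)
  have Ψ3 : ∀ a b, Ψ (j a * j b) = f a * f b := by
    intro a b
    induction a using Finsupp.induction_linear with
    | zero => simp
    | add a a' h h' => simp only [map_add, add_mul, h, h']
    | single ij c =>
      induction b using Finsupp.induction_linear with
      | zero => simp
      | add b b' h h' => simp only [map_add, mul_add, h, h']
      | single kl d =>
        simp only [hj, hf, Finsupp.linearCombination_single, smul_mul_smul_comm, hmul, hA.mul,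
          map_smul]
        split_ifs
        · rw [Ψe]
        · rw [map_zero]
  have Ψ4 : ∀ x y, Ψ (x * y) = Ψ x * Ψ y := fun x y =>
    hd.induction_on₂ (p := fun x y => Ψ (x * y) = Ψ x * Ψ y)
      (isClosed_eq (by fun_prop) (by fun_prop)) (fun a b => by rw [Ψ3, Ψ1, Ψ1]) x y
  have Ψ5 : ∀ (l : 𝕜) x, ‖l‖ + ‖x‖ ≤ C * ‖l • (1 : Q) + Ψ x‖ := fun l x =>
    hd.induction_on (p := fun x => ‖l‖ + ‖x‖ ≤ C * ‖l • (1 : Q) + Ψ x‖) x
      (isClosed_le (by fun_prop) (by fun_prop)) fun a => by rw [Ψ1, hn]; exact hlow l a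
  let Ψ' : A →ₙₐ[𝕜] Q :=
    { toFun := Ψ
      map_smul' := map_smul Ψ
      map_zero' := map_zero Ψ
      map_add' := map_add Ψ
      map_mul' := Ψ4 }
  let Θ : WithLp 1 (Unitization 𝕜 A) →ₐ[𝕜] Q :=
    (Unitization.lift Ψ').comp (WithLp.unitizationAlgEquiv 𝕜 : _ ≃ₐ[𝕜] Unitization 𝕜 A)
  have hΘ : ∀ x, Θ x = (WithLp.ofLp x).fst • (1 : Q) + Ψ (WithLp.ofLp x).snd := fun x => by
    rw [← Algebra.algebraMap_eq_smul_one]
    rfl
  have Θ1 : ∀ x, ‖x‖ ≤ C * ‖Θ x‖ := fun x => by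
    rw [hΘ, WithLp.unitization_norm_def]
    exact Ψ5 _ _
  have Θ2 : ∀ x, ‖Θ x‖ ≤ C * ‖x‖ := fun x => by
    rw [hΘ, WithLp.unitization_norm_def, mul_add]
    refine norm_add_le_of_le ?_ (Ψ2 _)
    rw [norm_smul, mul_comm]
    exact mul_le_mul_of_nonneg_right hone (norm_nonneg _)
  have hcl : IsClosed (Set.range Ψ) := by
    refine (AddMonoidHomClass.antilipschitz_of_bound (K := ⟨C, hC.le⟩) Ψ fun x => ?_).isClosed_range
      Ψ.uniformContinuous
    change ‖x‖ ≤ C * ‖Ψ x‖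
    simpa using Ψ5 0 x
  have hbij : Function.Bijective Θ := by
    refine ⟨(injective_iff_map_eq_zero Θ).2 fun x hx => ?_, fun y => ?_⟩
    · have := Θ1 x
      rw [hx, norm_zero, mul_zero] at this
      exact norm_le_zero_iff.1 this
    · obtain ⟨l, hl⟩ := hdense y
      obtain ⟨x, hx⟩ : y - l • (1 : Q) ∈ Set.range Ψ :=
        hcl.closure_subset_iff.2 (by rintro _ ⟨a, rfl⟩; exact ⟨_, Ψ1 a⟩) hl
      refine ⟨WithLp.toLp 1 (Unitization.inl l + (x : Unitization 𝕜 A)), ?_⟩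
      rw [hΘ]
      simp [hx]
  refine ⟨(AlgEquiv.ofBijective Θ hbij).symm, fun T => ?_⟩
  obtain ⟨x, rfl⟩ := (AlgEquiv.ofBijective Θ hbij).surjective T
  rw [AlgEquiv.symm_apply_apply]
  exact ⟨Θ1 x, Θ2 x⟩

end Pool.Agent.P.MP_5298e3_an
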