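import Pool.Agent.P.MP_5298e3_an.Sys

/-!
The Bourgain-Delbaen extension operators on `ℓ_p(E) × ℓ_∞(Γ)`.
-/

open Filter Topology Finset
open scoped ENNReal

namespace Pool.Agent.P.MP_5298e3_an

section Trunc

variable (𝕜 : Type) [RCLike 𝕜] {α : Type} [DecidableEq α] (F : Type) [NormedAddCommGroup F]
  [NormedSpace 𝕜 F] (q : ℝ≥0∞) [Fact (1 ≤ q)]

/-- The `i`-th inclusion. -/
noncomputable abbrev sgl (i : α) : F →L[𝕜] lp (fun _ : α => F) q :=
  lp.singleContinuousLinearMap 𝕜 (fun _ : α => F) q i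

/-- The `i`-th coordinate. -/
noncomputable abbrev evl (i : α) : lp (fun _ : α => F) q →L[𝕜] F :=
  lp.evalCLM 𝕜 (fun _ : α => F) q i

/-- Restriction to a finite set of coordinates. -/
noncomputable def trunc (s : Finset α) : lp (fun _ : α => F) q →L[𝕜] lp (fun _ : α => F) q :=
  ∑ i ∈ s, (sgl 𝕜 F q i).comp (evl 𝕜 F q i)

variable {𝕜 F q}

omit [DecidableEq α] in
@[simp] theorem evl_apply (i : α) (f : lp (fun _ : α => F) q) : evl 𝕜 F q i f = f i := rfl

theorem sum_sgl_apply (s : Finset α) (g : α → F) (j : α) :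
    (∑ i ∈ s, sgl 𝕜 F q i (g i)) j = if j ∈ s then g j else 0 := by
  simp only [lp.singleContinuousLinearMap_apply, lp.coeFn_sum, lp.coeFn_single, Finset.sum_apply,
    Finset.sum_pi_single]

theorem trunc_apply (s : Finset α) (f : lp (fun _ : α => F) q) (j : α) :
    trunc 𝕜 F q s f j = if j ∈ s then f j else 0 := by
  rw [trunc, _root_.sum_apply]
  exact sum_sgl_apply (𝕜 := 𝕜) s (fun i => f i) j

omit [DecidableEq α] in
theorem q_ne_zero : q ≠ 0 := (zero_lt_one.trans_le (Fact.out : 1 ≤ q)).ne'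

theorem norm_trunc_le (s : Finset α) (f : lp (fun _ : α => F) q) : ‖trunc 𝕜 F q s f‖ ≤ ‖f‖ := by
  refine lp.norm_mono q_ne_zero fun i => ?_
  rw [trunc_apply]
  split_ifs <;> simp

end Trunc

/-- The ambient space. -/
abbrev Amb (𝕜 E : Type) [RCLike 𝕜] [NormedAddCommGroup E] (p : ℝ≥0∞) (Γ : Type) : Type :=
  lp (fun _ : ℕ => E) p × lp (fun _ : Γ => 𝕜) ∞

/-- Data for the Bourgain-Delbaen recursion. -/
structure BD (𝕜 E : Type) [RCLike 𝕜] [NormedAddCommGroup E] [NormedSpace 𝕜 E] (p : ℝ≥0∞)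
    [Fact (1 ≤ p)] (Γ : Type) where
  rank : Γ → ℕ
  lev : ℕ → Finset Γ
  mem_lev : ∀ q γ, γ ∈ lev q ↔ rank γ < q
  pred : Γ → Option Γ
  top_le : ∀ γ, oTop rank (pred γ) ≤ rank γ
  μ : Γ → 𝕜
  μ_le : ∀ γ, ‖μ γ‖ ≤ 1 / 4
  bb : Γ → Amb 𝕜 E p Γ →L[𝕜] 𝕜
  bb_norm : ∀ γ v, ‖bb γ v‖ ≤ ‖v‖
  bb_loc : ∀ γ v v', (∀ k < rank γ, v.1 k = v'.1 k) → (∀ η, rank η < rank γ → v.2 η = v'.2 η) →
    bb γ v = bb γ v'

namespace BD

variable {𝕜 E : Type} [RCLike 𝕜] [NormedAddCommGroup E] [NormedSpace 𝕜 E] {p : ℝ≥0∞}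
  [Fact (1 ≤ p)] {Γ : Type} [DecidableEq Γ] (D : BD 𝕜 E p Γ)

omit [DecidableEq Γ] in
theorem pred_lt {γ ξ : Γ} (h : D.pred γ = some ξ) : D.rank ξ < D.rank γ := by
  have := D.top_le γ
  rw [h] at this
  exact this

/-- The vector of the coordinates already defined. -/
noncomputable def loc (F : Γ → ℕ → Amb 𝕜 E p Γ →L[𝕜] 𝕜) (q a : ℕ) :
    Amb 𝕜 E p Γ →L[𝕜] Amb 𝕜 E p Γ :=
  ((trunc 𝕜 E p (range a)).comp (ContinuousLinearMap.fst 𝕜 _ _)).prod
    (∑ η ∈ D.lev q, (sgl 𝕜 𝕜 ∞ η).comp (F η a))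

theorem loc_fst (F : Γ → ℕ → Amb 𝕜 E p Γ →L[𝕜] 𝕜) (q a : ℕ) (v : Amb 𝕜 E p Γ) :
    (D.loc F q a v).1 = trunc 𝕜 E p (range a) v.1 := rfl

theorem loc_snd (F : Γ → ℕ → Amb 𝕜 E p Γ →L[𝕜] 𝕜) (q a : ℕ) (v : Amb 𝕜 E p Γ) (η : Γ) :
    (D.loc F q a v).2 η = if D.rank η < q then F η a v else 0 := by
  change ((∑ η ∈ D.lev q, (sgl 𝕜 𝕜 ∞ η).comp (F η a)) v) η = _
  rw [_root_.sum_apply]
  refine (sum_sgl_apply (𝕜 := 𝕜) (D.lev q) (fun η => F η a v) η).trans ?_
  simp only [D.mem_lev]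

/-- One step of the recursion. -/
noncomputable def step (F : Γ → ℕ → Amb 𝕜 E p Γ →L[𝕜] 𝕜) (γ : Γ) (a : ℕ) :
    Amb 𝕜 E p Γ →L[𝕜] 𝕜 :=
  if D.rank γ < a then (evl 𝕜 𝕜 ∞ γ).comp (ContinuousLinearMap.snd 𝕜 _ _)
  else (D.pred γ).elim 0 (fun ξ => F ξ a) + D.μ γ • (D.bb γ).comp
    (D.loc F (D.rank γ) a - D.loc F (D.rank γ) (min (oTop D.rank (D.pred γ)) a))

theorem step_congr {F F' : Γ → ℕ → Amb 𝕜 E p Γ →L[𝕜] 𝕜} {γ : Γ}
    (h : ∀ η, D.rank η < D.rank γ → F η = F' η) : D.step F γ = D.step F' γ := by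
  have hloc : ∀ a, D.loc F (D.rank γ) a = D.loc F' (D.rank γ) a := fun a => by
    unfold loc
    congr 1
    exact Finset.sum_congr rfl fun η hη => by rw [h η ((D.mem_lev _ _).1 hη)]
  funext a
  unfold step
  rw [hloc, hloc]
  cases hp : D.pred γ with
  | none => rfl
  | some ξ => simp only [Option.elim_some, h ξ (D.pred_lt hp)]

theorem exists_fix : ∃ F : Γ → ℕ → Amb 𝕜 E p Γ →L[𝕜] 𝕜, ∀ γ, F γ = D.step F γ := by
  let G : ℕ → Γ → ℕ → Amb 𝕜 E p Γ →L[𝕜] 𝕜 := fun q => D.step^[q] 0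
  have hG : ∀ q, G (q + 1) = D.step (G q) := fun q => Function.iterate_succ_apply' _ _ _
  have key : ∀ q γ, D.rank γ < q → G q γ = G (D.rank γ + 1) γ := by
    intro q
    induction q using Nat.strong_induction_on with
    | _ q ih =>
      intro γ hγ
      obtain ⟨q, rfl⟩ : ∃ q', q = q' + 1 := ⟨q - 1, by omega⟩
      rw [hG, hG]
      refine D.step_congr fun η hη => ?_
      rw [ih q (by omega) η (by omega), ih (D.rank γ) hγ η hη]
  refine ⟨fun γ => G (D.rank γ + 1) γ, fun γ => ?_⟩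
  simp only
  rw [hG]
  exact D.step_congr fun η hη => key _ η hη

theorem exists_P : ∃ P : ℕ → Amb 𝕜 E p Γ →L[𝕜] Amb 𝕜 E p Γ,
    (∀ a v k, (P a v).1 k = if k < a then v.1 k else 0) ∧
    (∀ a v γ, D.rank γ < a → (P a v).2 γ = v.2 γ) ∧
    (∀ a v γ, a ≤ D.rank γ → (P a v).2 γ = (D.pred γ).elim 0 (fun ξ => (P a v).2 ξ) +
      D.μ γ * D.bb γ (P a v - P (min (oTop D.rank (D.pred γ)) a) v)) ∧
    ∀ a v, ‖P a v‖ ≤ 2 * ‖v‖ := by
  obtain ⟨F, hF⟩ := D.exists_fix
  have hlt : ∀ γ a v, D.rank γ < a → F γ a v = v.2 γ := fun γ a v h => by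
    rw [hF γ, step, if_pos h]
    rfl
  have hge : ∀ γ a v, a ≤ D.rank γ → F γ a v = (D.pred γ).elim 0 (fun ξ => F ξ a v) +
      D.μ γ * D.bb γ (D.loc F (D.rank γ) a v -
        D.loc F (D.rank γ) (min (oTop D.rank (D.pred γ)) a) v) := fun γ a v h => by
    conv_lhs => rw [hF γ, step, if_neg (not_lt.2 h)]
    cases D.pred γ <;> rfl
  have hv2 : ∀ (v : Amb 𝕜 E p Γ) γ, ‖v.2 γ‖ ≤ ‖v‖ := fun v γ =>
    (lp.norm_apply_le_norm ENNReal.top_ne_zero v.2 γ).trans (norm_snd_le v)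
  have hbd : ∀ r γ, D.rank γ < r → ∀ a v, ‖F γ a v‖ ≤ 2 * ‖v‖ := by
    intro r
    induction r with
    | zero => intro γ h; omega
    | succ r ih =>
      intro γ hγ a v
      have h0 := norm_nonneg v
      by_cases h1 : D.rank γ < a
      · rw [hlt γ a v h1]
        linarith [hv2 v γ]
      have hloc : ∀ a, ‖D.loc F (D.rank γ) a v‖ ≤ 2 * ‖v‖ := fun a => by
        refine norm_prod_le_iff.2 ⟨?_, lp.norm_le_of_forall_le (by positivity) fun η => ?_⟩
        · rw [loc_fst]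
          linarith [norm_trunc_le (𝕜 := 𝕜) (range a) v.1, norm_fst_le v]
        · rw [loc_snd]
          split_ifs with h
          · exact ih η (by omega) a v
          · simp
      rw [hge γ a v (not_lt.1 h1)]
      by_cases h2 : a ≤ oTop D.rank (D.pred γ)
      · rw [min_eq_right h2, sub_self, map_zero, mul_zero, add_zero]
        cases hp : D.pred γ with
        | none => simp
        | some ξ => exact ih ξ (by have := D.pred_lt hp; omega) a v
      · have e1 : ‖(D.pred γ).elim 0 (fun ξ => F ξ a v)‖ ≤ ‖v‖ := by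
          cases hp : D.pred γ with
          | none => simp
          | some ξ =>
            rw [hp] at h2
            change ¬ a ≤ D.rank ξ + 1 at h2
            rw [Option.elim_some, hlt ξ a v (by omega)]
            exact hv2 v ξ
        have e2 := (D.bb_norm γ _).trans
          (norm_sub_le_of_le (hloc a) (hloc (min (oTop D.rank (D.pred γ)) a)))
        have e3 := mul_le_mul (D.μ_le γ) e2 (norm_nonneg _) (by norm_num)
        rw [← norm_mul] at e3
        refine (norm_add_le_of_le e1 e3).trans (le_of_eq ?_)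
        ring
  have hbd' : ∀ γ a v, ‖F γ a v‖ ≤ 2 * ‖v‖ := fun γ => hbd _ γ (Nat.lt_succ_self _)
  let L : ℕ → Amb 𝕜 E p Γ →ₗ[𝕜] Amb 𝕜 E p Γ := fun a =>
    { toFun := fun v => (trunc 𝕜 E p (range a) v.1,
        ⟨fun γ => F γ a v, memℓp_infty ⟨2 * ‖v‖, by rintro _ ⟨γ, rfl⟩; exact hbd' γ a v⟩⟩)
      map_add' := fun v v' => Prod.ext (map_add _ _ _) (lp.ext (funext fun γ => map_add _ _ _))
      map_smul' := fun c v => Prod.ext (map_smul _ _ _) (lp.ext (funext fun γ => map_smul _ _ _)) }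
  have hL : ∀ a v, ‖L a v‖ ≤ 2 * ‖v‖ := fun a v => by
    refine norm_prod_le_iff.2 ⟨?_, lp.norm_le_of_forall_le (by positivity) fun η => hbd' η a v⟩
    change ‖trunc 𝕜 E p (range a) v.1‖ ≤ _
    linarith [norm_trunc_le (𝕜 := 𝕜) (range a) v.1, norm_fst_le v, norm_nonneg v]
  refine ⟨fun a => (L a).mkContinuous 2 (hL a), fun a v k => ?_, fun a v γ h => hlt γ a v h,
    fun a v γ h => ?_, hL⟩
  · change trunc 𝕜 E p (range a) v.1 k = _
    simp only [trunc_apply, Finset.mem_range]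
  · change F γ a v = (D.pred γ).elim 0 (fun ξ => F ξ a v) + _
    rw [hge γ a v h]
    congr 2
    refine D.bb_loc γ _ _ (fun k _ => rfl) fun η hη => ?_
    change (D.loc F _ _ v).2 η - (D.loc F _ _ v).2 η = F η _ v - F η _ v
    rw [loc_snd, loc_snd, if_pos hη, if_pos hη]

variable {D} {P : ℕ → Amb 𝕜 E p Γ →L[𝕜] Amb 𝕜 E p Γ}
  (h1 : ∀ a v k, (P a v).1 k = if k < a then v.1 k else 0)
  (h2 : ∀ a v γ, D.rank γ < a → (P a v).2 γ = v.2 γ)
  (h3 : ∀ a v γ, a ≤ D.rank γ → (P a v).2 γ = (D.pred γ).elim 0 (fun ξ => (P a v).2 ξ) +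
      D.μ γ * D.bb γ (P a v - P (min (oTop D.rank (D.pred γ)) a) v))

include h1 h2 h3

omit [DecidableEq Γ] in
theorem P_eq_zero (a : ℕ) (v : Amb 𝕜 E p Γ) (hv1 : ∀ k < a, v.1 k = 0)
    (hv2 : ∀ γ, D.rank γ < a → v.2 γ = 0) : P a v = 0 := by
  have hf : ∀ a' ≤ a, ∀ k, (P a' v).1 k = 0 := fun a' ha k => by
    rw [h1]
    split_ifs with h
    · exact hv1 k (by omega)
    · rfl
  have key : ∀ r γ, D.rank γ < r → ∀ a' ≤ a, (P a' v).2 γ = 0 := by
    intro r
    induction r with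
    | zero => intro γ h; omega
    | succ r ih =>
      intro γ hγ a' ha
      by_cases h : D.rank γ < a'
      · rw [h2 _ _ _ h]; exact hv2 γ (by omega)
      rw [h3 _ _ _ (not_lt.1 h), D.bb_loc γ _ 0, map_zero, mul_zero, add_zero]
      · cases hp : D.pred γ with
        | none => rfl
        | some ξ => exact ih ξ (by have := D.pred_lt hp; omega) a' ha
      · intro k _
        change (P _ v).1 k - (P _ v).1 k = 0
        rw [hf _ ha, hf _ ((min_le_right _ _).trans ha), sub_zero]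
      · intro η hη
        change (P _ v).2 η - (P _ v).2 η = 0
        rw [ih η (by omega) _ ha, ih η (by omega) _ ((min_le_right _ _).trans ha), sub_zero]
  exact Prod.ext (lp.ext (funext fun k => hf a le_rfl k))
    (lp.ext (funext fun γ => key _ γ (Nat.lt_succ_self _) a le_rfl))

omit [DecidableEq Γ] in
theorem P_P (a c : ℕ) (v : Amb 𝕜 E p Γ) : P a (P c v) = P (min a c) v := by
  have hf : ∀ a k, (P a (P c v)).1 k = (P (min a c) v).1 k := fun a k => by
    rw [h1, h1, h1]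
    by_cases ha : k < a <;> by_cases hc : k < c <;> simp [ha, hc]
  have key : ∀ r γ, D.rank γ < r → ∀ a, (P a (P c v)).2 γ = (P (min a c) v).2 γ := by
    intro r
    induction r with
    | zero => intro γ h; omega
    | succ r ih =>
      intro γ hγ a
      by_cases h : D.rank γ < a
      · rw [h2 _ _ _ h]
        rcases le_total c a with hc | hc
        · rw [min_eq_right hc]
        · rw [min_eq_left hc, h2 _ _ _ h, h2 _ _ _ (by omega)]
      rw [h3 _ _ _ (not_lt.1 h), h3 (min a c) _ _ ((min_le_left _ _).trans (not_lt.1 h))]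
      congr 1
      · cases hp : D.pred γ with
        | none => rfl
        | some ξ => exact ih ξ (by have := D.pred_lt hp; omega) a
      · congr 1
        refine D.bb_loc γ _ _ (fun k _ => ?_) fun η hη => ?_
        · change (P _ _).1 k - (P _ _).1 k = (P _ v).1 k - (P _ v).1 k
          rw [hf, hf, min_assoc]
        · change (P _ _).2 η - (P _ _).2 η = (P _ v).2 η - (P _ v).2 η
          rw [ih η (by omega), ih η (by omega), min_assoc]
  exact Prod.ext (lp.ext (funext fun k => hf a k))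
    (lp.ext (funext fun γ => key _ γ (Nat.lt_succ_self _) a))

end BD

end Pool.Agent.P.MP_5298e3_an
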