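import Pool.Agent.P.MP_5298e3_an.Defs
import Pool.Agent.P.MP_5298e3_an.BD

/-!
Finitely supported scalar matrices acting on `ℓ_p(F)`, and the existence of the completed algebra.
-/

open Filter Topology Finset
open scoped ENNReal

namespace Pool.Agent.P.MP_5298e3_an

variable (𝕜 : Type) [RCLike 𝕜] (F : Type) [NormedAddCommGroup F] [NormedSpace 𝕜 F] (p : ℝ≥0∞)
  [Fact (1 ≤ p)]

/-- The matrix unit acting on `ℓ_p(F)`. -/
noncomputable def unitOp (i j : ℕ) : lp (fun _ : ℕ => F) p →L[𝕜] lp (fun _ : ℕ => F) p :=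
  (sgl 𝕜 F p i).comp (evl 𝕜 F p j)

/-- A finitely supported matrix acting on `ℓ_p(F)`. -/
noncomputable def amp : (ℕ × ℕ →₀ 𝕜) →ₗ[𝕜] lp (fun _ : ℕ => F) p →L[𝕜] lp (fun _ : ℕ => F) p :=
  Finsupp.linearCombination 𝕜 fun ij => unitOp 𝕜 F p ij.1 ij.2

/-- The matrix of absolute values acting on `ℓ_p`. -/
noncomputable def absOp (a : ℕ × ℕ →₀ 𝕜) :
    lp (fun _ : ℕ => 𝕜) p →L[𝕜] lp (fun _ : ℕ => 𝕜) p :=
  a.sum fun ij c => ((‖c‖ : ℝ) : 𝕜) • unitOp 𝕜 𝕜 p ij.1 ij.2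

variable {𝕜 F p}

theorem sgl_apply (i k : ℕ) (x : F) : sgl 𝕜 F p i x k = if i = k then x else 0 := by
  change (Pi.single i x : ℕ → F) k = _
  rw [Pi.single_apply]
  simp only [eq_comm]

theorem sum_unit_apply (s : Finset (ℕ × ℕ)) (c : ℕ × ℕ → 𝕜) (v : lp (fun _ : ℕ => F) p) (i : ℕ) :
    (∑ ij ∈ s, c ij • unitOp 𝕜 F p ij.1 ij.2) v i =
      ∑ ij ∈ s, if ij.1 = i then c ij • v ij.2 else 0 := by
  rw [_root_.sum_apply, lp.coeFn_sum, Finset.sum_apply]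
  refine Finset.sum_congr rfl fun ij _ => ?_
  change c ij • sgl 𝕜 F p ij.1 (v ij.2) i = _
  rw [sgl_apply]
  split_ifs <;> simp

theorem amp_apply (a : ℕ × ℕ →₀ 𝕜) (v : lp (fun _ : ℕ => F) p) (i : ℕ) :
    amp 𝕜 F p a v i = ∑ ij ∈ a.support, if ij.1 = i then a ij • v ij.2 else 0 :=
  sum_unit_apply _ _ v i

theorem absOp_apply (a : ℕ × ℕ →₀ 𝕜) (t : lp (fun _ : ℕ => 𝕜) p) (i : ℕ) :
    absOp 𝕜 p a t i =
      ∑ ij ∈ a.support, if ij.1 = i then ((‖a ij‖ : ℝ) : 𝕜) • t ij.2 else 0 :=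
  sum_unit_apply (F := 𝕜) _ (fun ij => ((‖a ij‖ : ℝ) : 𝕜)) t i

theorem uNorm_eq (a : ℕ × ℕ →₀ 𝕜) : uNorm 𝕜 p a = ‖absOp 𝕜 p a‖ := rfl

theorem uNorm_nonneg (a : ℕ × ℕ →₀ 𝕜) : 0 ≤ uNorm 𝕜 p a := norm_nonneg _

theorem norm_amp_le (a : ℕ × ℕ →₀ 𝕜) (v : lp (fun _ : ℕ => F) p) :
    ‖amp 𝕜 F p a v‖ ≤ uNorm 𝕜 p a * ‖v‖ := by
  let t : lp (fun _ : ℕ => 𝕜) p :=
    ⟨fun j => ((‖v j‖ : ℝ) : 𝕜), (lp.memℓp v).mono' fun j => by simp⟩
  have ht : ‖t‖ ≤ ‖v‖ := lp.norm_mono q_ne_zero fun j => by simp [t]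
  refine le_trans (lp.norm_mono q_ne_zero fun i => ?_) (((absOp 𝕜 p a).le_opNorm t).trans
    (mul_le_mul_of_nonneg_left ht (norm_nonneg _)))
  rw [amp_apply, absOp_apply]
  refine (norm_sum_le _ _).trans (le_trans ?_ (RCLike.re_le_norm _))
  rw [map_sum]
  refine Finset.sum_le_sum fun ij _ => ?_
  split_ifs
  · change _ ≤ RCLike.re (((‖a ij‖ : ℝ) : 𝕜) * ((‖v ij.2‖ : ℝ) : 𝕜))
    rw [norm_smul, RCLike.re_ofReal_mul, RCLike.ofReal_re]
  · simp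

theorem norm_abs_le (a : ℕ × ℕ →₀ 𝕜) (f : ℕ → F →L[𝕜] 𝕜) (hf : ∀ i x, ‖f i x‖ ≤ ‖x‖)
    (v : lp (fun _ : ℕ => F) p) (t : lp (fun _ : ℕ => 𝕜) p)
    (h : ∀ ij ∈ a.support, a ij * f ij.1 (v ij.2) = ((‖a ij‖ : ℝ) : 𝕜) * t ij.2) :
    ‖absOp 𝕜 p a t‖ ≤ ‖amp 𝕜 F p a v‖ := by
  refine lp.norm_mono q_ne_zero fun i => le_trans (le_of_eq ?_) (hf i _)
  rw [amp_apply, absOp_apply, map_sum]
  congr 1
  refine Finset.sum_congr rfl fun ij hij => ?_
  split_ifs with h1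
  · rw [map_smul, smul_eq_mul, smul_eq_mul, ← h1, h ij hij]
  · simp

theorem exists_smul_vec (t : lp (fun _ : ℕ => 𝕜) p) (u : ℕ → F) {C : ℝ} (hC : 0 ≤ C)
    (hu : ∀ j, ‖u j‖ ≤ C) :
    ∃ v : lp (fun _ : ℕ => F) p, (∀ j, v j = t j • u j) ∧ ‖v‖ ≤ C * ‖t‖ := by
  have h : ∀ j, ‖t j • u j‖ ≤ ‖((C : 𝕜) • t) j‖ := fun j => by
    change _ ≤ ‖(C : 𝕜) • t j‖
    rw [norm_smul, norm_smul, RCLike.norm_ofReal, abs_of_nonneg hC, mul_comm]
    exact mul_le_mul_of_nonneg_right (hu j) (norm_nonneg _)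
  refine ⟨⟨fun j => t j • u j, (lp.memℓp ((C : 𝕜) • t)).mono' h⟩, fun _ => rfl,
    (lp.norm_mono q_ne_zero h).trans ?_⟩
  rw [norm_smul, RCLike.norm_ofReal, abs_of_nonneg hC]

theorem unitOp_mul (i j k l : ℕ) :
    unitOp 𝕜 F p i j * unitOp 𝕜 F p k l = if j = k then unitOp 𝕜 F p i l else 0 := by
  ext1 v
  change sgl 𝕜 F p i (sgl 𝕜 F p k (v l) j) = _
  rw [sgl_apply]
  by_cases h : j = k
  · rw [if_pos h, if_pos h.symm]
    rfl
  · rw [if_neg h, if_neg (Ne.symm h), map_zero]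
    rfl

theorem norm_amp_infty (a : ℕ × ℕ →₀ 𝕜) :
    ‖amp 𝕜 (lp (fun _ : ℕ => 𝕜) ∞) p a‖ = uNorm 𝕜 p a := by
  refine le_antisymm
    (ContinuousLinearMap.opNorm_le_bound _ (uNorm_nonneg a) (norm_amp_le a))
    (ContinuousLinearMap.opNorm_le_bound (absOp 𝕜 p a) (norm_nonneg _) fun t => ?_)
  choose ph ph1 ph2 using fun c : 𝕜 => RCLike.exists_norm_eq_mul_self c
  let u : ℕ → lp (fun _ : ℕ => 𝕜) ∞ := fun j =>
    ⟨fun i => ph (a (i, j)), memℓp_infty ⟨1, by rintro _ ⟨i, rfl⟩; exact (ph1 _).le⟩⟩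
  obtain ⟨v, v1, v2⟩ := exists_smul_vec t u zero_le_one fun j =>
    lp.norm_le_of_forall_le zero_le_one fun i => (ph1 _).le
  refine (norm_abs_le a (fun i => evl 𝕜 𝕜 ∞ i)
    (fun i x => lp.norm_apply_le_norm ENNReal.top_ne_zero x i) v t fun ij _ => ?_).trans
    ((ContinuousLinearMap.le_opNorm _ _).trans
      (mul_le_mul_of_nonneg_left (by linarith) (norm_nonneg _)))
  rw [v1, ph2]
  change a ij * (t ij.2 * ph (a ij)) = _
  ring

theorem exists_Ku_of {L : Type} [NormedRing L] [NormedAlgebra 𝕜 L] [CompleteSpace L]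
    (u : ℕ → ℕ → L) (hmul : ∀ i j k l, u i j * u k l = if j = k then u i l else 0)
    (hnorm : ∀ a, ‖Finsupp.linearCombination 𝕜 (fun ij : ℕ × ℕ => u ij.1 ij.2) a‖ = uNorm 𝕜 p a) :
    ∃ (A : Type) (_ : NonUnitalNormedRing A) (_ : NormedSpace 𝕜 A)
      (_ : IsScalarTower 𝕜 A A) (_ : SMulCommClass 𝕜 A A) (e : ℕ → ℕ → A), IsKu 𝕜 p A e := by
  set T := Finsupp.linearCombination 𝕜 (fun ij : ℕ × ℕ => u ij.1 ij.2) with hT
  let B : NonUnitalSubalgebra 𝕜 L :=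
    { LinearMap.range T with
      mul_mem' := by
        rintro _ _ ⟨a, rfl⟩ ⟨b, rfl⟩
        change _ ∈ LinearMap.range T
        induction a using Finsupp.induction_linear with
        | zero => simp
        | add a a' h h' => rw [map_add, add_mul]; exact add_mem h h'
        | single ij c =>
          induction b using Finsupp.induction_linear with
          | zero => simp
          | add b b' h h' => rw [map_add, mul_add]; exact add_mem h h'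
          | single kl d =>
            simp only [hT, Finsupp.linearCombination_single, smul_mul_smul_comm, hmul]
            refine Submodule.smul_mem _ _ ?_
            split_ifs
            · exact ⟨Finsupp.single (ij.1, kl.2) 1, by simp⟩
            · exact zero_mem _ }
  have hmem : ∀ a, T a ∈ B.topologicalClosure := fun a => B.le_topologicalClosure ⟨a, rfl⟩
  have hu : ∀ i j, u i j ∈ B.topologicalClosure := fun i j => by
    have := hmem (Finsupp.single (i, j) 1)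
    simpa [hT] using this
  have hcoe : ∀ a : ℕ × ℕ →₀ 𝕜, (a.sum fun ij c =>
      c • (⟨u ij.1 ij.2, hu _ _⟩ : B.topologicalClosure)) = ⟨T a, hmem a⟩ := by
    intro a
    refine Subtype.ext ?_
    rw [Finsupp.sum, AddSubmonoidClass.coe_finsetSum]
    rfl
  let ns : NormedSpace 𝕜 B.topologicalClosure :=
    { (inferInstance : Module 𝕜 B.topologicalClosure) with
      norm_smul_le := fun c x => norm_smul_le c x.1 }
  refine ⟨B.topologicalClosure, inferInstance, ns, inferInstance, inferInstance,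
    fun i j => ⟨u i j, hu i j⟩, B.isClosed_topologicalClosure.completeSpace_coe,
    fun i j k l => Subtype.ext ?_, fun a => ?_, ?_⟩
  · change u i j * u k l = _
    rw [hmul]
    split_ifs <;> rfl
  · rw [hcoe]
    exact hnorm a
  · simp only [hcoe]
    intro x
    rw [closure_subtype]
    refine closure_mono ?_ x.2
    rintro _ ⟨a, rfl⟩
    exact ⟨_, ⟨a, rfl⟩, rfl⟩

variable (𝕜 p) in
theorem exists_Ku : ∃ (A : Type) (_ : NonUnitalNormedRing A) (_ : NormedSpace 𝕜 A)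
    (_ : IsScalarTower 𝕜 A A) (_ : SMulCommClass 𝕜 A A) (e : ℕ → ℕ → A), IsKu 𝕜 p A e :=
  exists_Ku_of (unitOp 𝕜 (lp (fun _ : ℕ => 𝕜) ∞) p) unitOp_mul norm_amp_infty

end Pool.Agent.P.MP_5298e3_an
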