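import Pool.Agent.P.MP_5298e3_an.BD

/-!
The nodes of the construction, coded by natural numbers, and countable nets of functionals.
-/

open Filter Topology Finset TopologicalSpace
open scoped ENNReal

namespace Pool.Agent.P.MP_5298e3_an

/-- Code of the predecessor: `0` for none, `ξ + 1` for `ξ`. -/
def pr (γ : ℕ) : ℕ := γ.unpair.1.unpair.1

/-- Weight index of a node. -/
def wt (γ : ℕ) : ℕ := γ.unpair.1.unpair.2

/-- Code of the functional of a node. -/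
def ix (γ : ℕ) : ℕ := γ.unpair.2.unpair.1

/-- The node with given data. -/
def mkc (o j i r : ℕ) : ℕ := Nat.pair (Nat.pair o j) (Nat.pair i r)

@[simp] theorem pr_mkc (o j i r : ℕ) : pr (mkc o j i r) = o := by simp [pr, mkc]
@[simp] theorem wt_mkc (o j i r : ℕ) : wt (mkc o j i r) = j := by simp [wt, mkc]
@[simp] theorem ix_mkc (o j i r : ℕ) : ix (mkc o j i r) = i := by simp [ix, mkc]

theorem le_mkc (o j i r : ℕ) : r ≤ mkc o j i r :=
  (Nat.right_le_pair _ _).trans (Nat.right_le_pair _ _)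

theorem pr_le (γ : ℕ) : pr γ ≤ γ := (Nat.unpair_left_le _).trans (Nat.unpair_left_le _)
theorem wt_le (γ : ℕ) : wt γ ≤ γ := (Nat.unpair_right_le _).trans (Nat.unpair_left_le _)
theorem ix_le (γ : ℕ) : ix γ ≤ γ := (Nat.unpair_left_le _).trans (Nat.unpair_right_le _)

/-- The age of a node. -/
def ageN (γ : ℕ) : ℕ := if pr γ = 0 then 1 else ageN (pr γ - 1) + 1
termination_by γ
decreasing_by have := pr_le γ; omega

/-- The coding function. -/
def sigN (c o j : ℕ) : ℕ := 4 * Nat.pair o (j + 1) + c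

/-- The admissible nodes. -/
inductive Valid (π : Par) (c : ℕ) : ℕ → Prop
  | mk (γ : ℕ) (hw : wt γ % 4 = c ∨ wt γ % 4 = c + 1) (hp : pr γ ≠ 0 → Valid π c (pr γ - 1))
    (hp' : pr γ ≠ 0 → wt (pr γ - 1) = wt γ) (ha : ageN γ ≤ π.n (wt γ))
    (hs : wt γ % 4 = c + 1 → Valid π c (ix γ))
    (hs' : wt γ % 4 = c + 1 → ix γ < γ ∧ wt (ix γ) = sigN c (pr γ) (wt γ)) : Valid π c γ

theorem Valid.spec {π : Par} {c γ : ℕ} (h : Valid π c γ) :
    (wt γ % 4 = c ∨ wt γ % 4 = c + 1) ∧ (pr γ ≠ 0 → Valid π c (pr γ - 1)) ∧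
    (pr γ ≠ 0 → wt (pr γ - 1) = wt γ) ∧ ageN γ ≤ π.n (wt γ) ∧
    (wt γ % 4 = c + 1 → Valid π c (ix γ)) ∧
    (wt γ % 4 = c + 1 → ix γ < γ ∧ wt (ix γ) = sigN c (pr γ) (wt γ)) := by
  cases h with
  | mk _ a b c d e f => exact ⟨a, b, c, d, e, f⟩

/-- The set of nodes. -/
abbrev Node (π : Par) (c : ℕ) : Type := {γ : ℕ // Valid π c γ}

variable {π : Par} {c : ℕ}

/-- The predecessor of a node. -/
def Node.pred (γ : Node π c) : Option (Node π c) :=
  if h : pr γ.1 = 0 then none else some ⟨pr γ.1 - 1, γ.2.spec.2.1 h⟩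

theorem Node.top_pred (γ : Node π c) : oTop Subtype.val γ.pred = pr γ.1 := by
  unfold Node.pred
  split_ifs with h
  · exact h.symm
  · change pr γ.1 - 1 + 1 = _
    omega

theorem Node.top_inj {o o' : Option (Node π c)} (h : oTop Subtype.val o = oTop Subtype.val o') :
    o = o' := by
  cases o <;> cases o' <;> simp_all [oTop, Subtype.ext_iff]

theorem Node.age_eq (γ : Node π c) : ageN γ.1 = γ.pred.elim 0 (fun ξ => ageN ξ.1) + 1 := by
  rw [ageN, Node.pred]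
  split_ifs <;> rfl

theorem Node.w_pred (γ ξ : Node π c) (h : γ.pred = some ξ) : wt ξ.1 = wt γ.1 := by
  unfold Node.pred at h
  split_ifs at h with h0
  cases h
  exact γ.2.spec.2.2.1 h0

theorem Node.exists_node (j : ℕ) (o : Option (Node π c)) (hj : j % 4 = c ∨ j % 4 = c + 1)
    (ho : ∀ ξ, o = some ξ → wt ξ.1 = j) (ha : o.elim 0 (fun ξ => ageN ξ.1) < π.n j) (i r : ℕ)
    (hi : j % 4 = c + 1 → Valid π c i ∧ wt i = sigN c (oTop Subtype.val o) j) :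
    ∃ γ : Node π c, γ.pred = o ∧ wt γ.1 = j ∧ ix γ.1 = i ∧ r ≤ γ.1 := by
  have hv : Valid π c (mkc (oTop Subtype.val o) j i (max r (i + 1))) := by
    refine Valid.mk _ (by simpa using hj) ?_ ?_ ?_ (by simpa using fun h => (hi h).1) ?_
    · cases o with
      | none => simp [oTop]
      | some ξ => simpa [oTop] using ξ.2
    · cases o with
      | none => simp [oTop]
      | some ξ => simpa [oTop] using ho ξ rfl
    · rw [ageN]
      cases o with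
      | none => simpa [oTop] using Nat.succ_le_of_lt ha
      | some ξ => simpa [oTop] using Nat.succ_le_of_lt ha
    · simp only [wt_mkc, ix_mkc, pr_mkc]
      exact fun h => ⟨lt_of_lt_of_le (by omega) (le_mkc _ _ _ _), (hi h).2⟩
  refine ⟨⟨_, hv⟩, Node.top_inj ?_, wt_mkc _ _ _ _, ix_mkc _ _ _ _,
    (le_max_left _ _).trans (le_mkc _ _ _ _)⟩
  rw [Node.top_pred, pr_mkc]

theorem exists_net {𝕜 W : Type} [RCLike 𝕜] [NormedAddCommGroup W] [NormedSpace 𝕜 W] {s : Set W}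
    (hs : IsSeparable s) (K : Set (W →L[𝕜] 𝕜)) (h0 : K.Nonempty)
    (hK : ∀ φ ∈ K, ∀ v, ‖φ v‖ ≤ ‖v‖) :
    ∃ ψ : ℕ → W →L[𝕜] 𝕜, (∀ i, ψ i ∈ K) ∧ ∀ φ ∈ K, ∀ x ∈ s, ∀ y ∈ s, ∀ ε > 0,
      ∃ i, ‖ψ i x - φ x‖ ≤ ε ∧ ‖ψ i y - φ y‖ ≤ ε := by
  obtain ⟨D, hD, hsD⟩ := hs
  obtain ⟨d, hd⟩ := (hD.insert 0).exists_eq_range (Set.insert_nonempty _ _)
  have hsd : s ⊆ closure (Set.range d) :=
    hsD.trans (closure_mono (hd ▸ Set.subset_insert _ _))
  let f : (W →L[𝕜] 𝕜) → ℕ → 𝕜 := fun φ l => φ (d l)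
  obtain ⟨t, htK, ht, hKt⟩ :=
    (IsSeparable.of_separableSpace (f '' K)).exists_countable_dense_subset
  have htn : t.Nonempty := by
    obtain ⟨φ, hφ⟩ := h0
    exact closure_nonempty_iff.1 ⟨_, hKt ⟨φ, hφ, rfl⟩⟩
  obtain ⟨g, rfl⟩ := ht.exists_eq_range htn
  choose ψ hψ1 hψ2 using fun i => htK ⟨i, rfl⟩
  refine ⟨ψ, hψ1, fun φ hφ x hx y hy ε hε => ?_⟩
  obtain ⟨_, ⟨l, rfl⟩, hl⟩ := Metric.mem_closure_iff.1 (hsd hx) (ε / 3) (by positivity)
  obtain ⟨_, ⟨l', rfl⟩, hl'⟩ := Metric.mem_closure_iff.1 (hsd hy) (ε / 3) (by positivity)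
  have hU : IsOpen {h : ℕ → 𝕜 | ‖h l - φ (d l)‖ < ε / 3 ∧ ‖h l' - φ (d l')‖ < ε / 3} := by
    have a : ∀ l, IsOpen {h : ℕ → 𝕜 | ‖h l - φ (d l)‖ < ε / 3} := fun l =>
      isOpen_lt (by fun_prop) continuous_const
    exact (a l).inter (a l')
  obtain ⟨_, hu, i, rfl⟩ := mem_closure_iff.1 (hKt ⟨φ, hφ, rfl⟩) _ hU (by simpa [f] using hε)
  rw [← hψ2] at hu
  have key : ∀ z l, dist z (d l) < ε / 3 → ‖ψ i (d l) - φ (d l)‖ < ε / 3 →
      ‖ψ i z - φ z‖ ≤ ε := by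
    intro z l a b
    rw [dist_eq_norm] at a
    have e : ψ i z - φ z = ψ i (z - d l) + (ψ i (d l) - φ (d l)) - φ (z - d l) := by
      simp only [map_sub]
      ring
    have := norm_sub_le_of_le (norm_add_le_of_le ((hK _ (hψ1 i) _).trans a.le) b.le)
      ((hK _ hφ _).trans a.le)
    rw [e]
    linarith
  exact ⟨i, key x l hl hu.1, key y l' hl' hu.2⟩

end Pool.Agent.P.MP_5298e3_an
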