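import Pool.Agent.P.MP_5298e3_an.Code

/-!
Existence of the systems: the Argyros-Haydon type `ℓ_p`-sum of copies of a separable space `E`.
-/

open Filter Topology Finset TopologicalSpace
open scoped ENNReal

namespace Pool.Agent.P.MP_5298e3_an

variable {𝕜 : Type} [RCLike 𝕜] {E : Type} [NormedAddCommGroup E] [NormedSpace 𝕜 E] {p : ℝ≥0∞}
  [Fact (1 ≤ p)]

theorem compact_sum {ι X Y : Type} [NormedAddCommGroup X] [NormedSpace 𝕜 X]
    [NormedAddCommGroup Y] [NormedSpace 𝕜 Y] (s : Finset ι) (T : ι → X →L[𝕜] Y)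
    (h : ∀ i ∈ s, IsCompactOperator (T i)) : IsCompactOperator (∑ i ∈ s, T i : X →L[𝕜] Y) :=
  (compactOperator (RingHom.id 𝕜) X Y).sum_mem h

theorem compact_congr {X Y : Type} [Zero X] [TopologicalSpace X] [TopologicalSpace Y]
    {f g : X → Y} (hf : IsCompactOperator f) (h : ∀ x, g x = f x) : IsCompactOperator g := by
  rwa [show g = f from funext h]

theorem norm_sum_disjoint (hp : p ≠ ∞) {C : ℝ} (hC : 0 ≤ C) {N : ℕ} {J : Finset ℕ}
    (hJ : J ⊆ range N) {s : ℕ → ℕ} (hs : ∀ k l, k ≤ l → l ≤ N → s k ≤ s l)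
    {u : ℕ → lp (fun _ : ℕ => E) p} (hu : ∀ k < N, ‖u k‖ ≤ C)
    (h0 : ∀ k < N, ∀ i, ¬ (s k ≤ i ∧ i < s (k + 1)) → u k i = 0) :
    ‖∑ k ∈ J, u k‖ ≤ C * (N : ℝ) ^ (1 / p.toReal) := by
  have hp0 : 0 < p.toReal := ENNReal.toReal_pos q_ne_zero hp
  refine lp.norm_le_of_forall_sum_le hp0 (by positivity) fun t => ?_
  have h1 : ∀ i, ‖(∑ k ∈ J, u k) i‖ ^ p.toReal ≤ ∑ k ∈ J, ‖u k i‖ ^ p.toReal := by
    intro i
    rw [lp.coeFn_sum, Finset.sum_apply]
    by_cases h : ∃ k ∈ J, s k ≤ i ∧ i < s (k + 1)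
    · obtain ⟨k, hk, h2, h3⟩ := h
      have hkN := Finset.mem_range.1 (hJ hk)
      rw [Finset.sum_eq_single_of_mem k hk]
      · exact Finset.single_le_sum (f := fun k => ‖u k i‖ ^ p.toReal)
          (fun _ _ => by positivity) hk
      · intro l hl hne
        have hlN := Finset.mem_range.1 (hJ hl)
        refine h0 l hlN i ?_
        rcases lt_or_gt_of_ne hne with hlt | hlt
        · have := hs (l + 1) k hlt hkN.le
          omega
        · have := hs (k + 1) l hlt hlN.le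
          omega
    · rw [Finset.sum_eq_zero fun k hk =>
        h0 k (Finset.mem_range.1 (hJ hk)) i fun h' => h ⟨k, hk, h'⟩, norm_zero,
        Real.zero_rpow hp0.ne']
      positivity
  refine (Finset.sum_le_sum fun i _ => h1 i).trans ?_
  rw [Finset.sum_comm]
  have h2 : ∀ k ∈ J, ∑ i ∈ t, ‖u k i‖ ^ p.toReal ≤ C ^ p.toReal := fun k hk =>
    (lp.sum_rpow_le_norm_rpow hp0 (u k) t).trans
      (Real.rpow_le_rpow (norm_nonneg _) (hu k (Finset.mem_range.1 (hJ hk))) hp0.le)
  refine (Finset.sum_le_card_nsmul _ _ _ h2).trans ?_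
  rw [Real.mul_rpow hC (by positivity), ← Real.rpow_mul (Nat.cast_nonneg _),
    one_div_mul_cancel hp0.ne', Real.rpow_one, nsmul_eq_mul, mul_comm]
  have : (J.card : ℝ) ≤ N := by
    have := Finset.card_le_card hJ
    rw [Finset.card_range] at this
    exact_mod_cast this
  gcongr

/-- The vectors that are limits of their projections. -/
def limSub {V : Type} [NormedAddCommGroup V] [NormedSpace 𝕜 V] (P : ℕ → V →L[𝕜] V) :
    Submodule 𝕜 V where
  carrier := {v | Tendsto (fun a => P a v) atTop (𝓝 v)}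
  zero_mem' := by simp
  add_mem' hx hy := by simpa using hx.add hy
  smul_mem' c x hx := by simpa using hx.const_smul c

theorem isClosed_limSub {V : Type} [NormedAddCommGroup V] [NormedSpace 𝕜 V] (P : ℕ → V →L[𝕜] V)
    (hP : ∀ a v, ‖P a v‖ ≤ 2 * ‖v‖) : IsClosed (limSub P : Set V) := by
  refine isClosed_of_closure_subset fun v hv => Metric.tendsto_nhds.2 fun ε hε => ?_
  obtain ⟨v', hv', hd⟩ := Metric.mem_closure_iff.1 hv (ε / 4) (by positivity)
  refine (Metric.tendsto_nhds.1 hv' (ε / 4) (by positivity)).mono fun a ha => ?_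
  rw [dist_eq_norm] at *
  have e : P a v - v = P a (v - v') + (P a v' - v') - (v - v') := by
    rw [map_sub]
    abel
  have := norm_sub_le_of_le (norm_add_le_of_le (hP a (v - v')) ha.le) hd.le
  rw [e]
  linarith

theorem exists_sys [CompleteSpace E] [SeparableSpace E] (hp : p ≠ ∞) (π : Par)
    (hπ : ∀ N, π.g N = (N : ℝ) ^ (1 / p.toReal)) (c : ℕ) (hc : c + 1 < 4) :
    ∃ (Z : Type) (_ : NormedAddCommGroup Z) (_ : NormedSpace 𝕜 Z) (_ : CompleteSpace Z)
      (_ : SeparableSpace Z) (S : Sys 𝕜 π Z) (ρ : Z →L[𝕜] lp (fun _ : ℕ => E) p)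
      (J : ℕ → lp (fun _ : ℕ => E) p →L[𝕜] Z),
      (∀ j, j % 4 = c → S.reg j) ∧ (∀ γ, S.w γ % 4 = c ∨ S.w γ % 4 = c + 1) ∧
      (∀ z, ‖ρ z‖ ≤ ‖z‖) ∧ (∀ s u, ‖J s u‖ ≤ 2 * ‖u‖) ∧
      (∀ s u k, ρ (J s u) k = if k < s then u k else 0) ∧
      (∀ s t u, s ≤ t → S.P t (J s u) = J s u) ∧
      ∀ s, IsCompactOperator (S.P s - (J s).comp ρ : Z →L[𝕜] Z) := by
  classical
  let Γ := Node π c
  let V := Amb 𝕜 E p Γ
  let lev : ℕ → Finset Γ := fun q => (range q).subtype (Valid π c)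
  have mem_lev : ∀ q (γ : Γ), γ ∈ lev q ↔ γ.1 < q := fun q γ =>
    Finset.mem_subtype.trans Finset.mem_range
  let R : ℕ → V →L[𝕜] V := fun b => (trunc 𝕜 E p (range b)).prodMap (trunc 𝕜 𝕜 ∞ (lev b))
  have R1 : ∀ b (v : V) k, (R b v).1 k = if k < b then v.1 k else 0 := fun b v k => by
    change trunc 𝕜 E p (range b) v.1 k = _
    simp only [trunc_apply, Finset.mem_range]
  have R2 : ∀ b (v : V) γ, (R b v).2 γ = if γ.1 < b then v.2 γ else 0 := fun b v γ => by
    change trunc 𝕜 𝕜 ∞ (lev b) v.2 γ = _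
    simp only [trunc_apply, mem_lev]
  have Rcongr : ∀ b (v v' : V), (∀ k < b, v.1 k = v'.1 k) → (∀ η : Γ, η.1 < b → v.2 η = v'.2 η) →
      R b v = R b v' := fun b v v' a1 a2 => by
    refine Prod.ext (lp.ext (funext fun k => ?_)) (lp.ext (funext fun η => ?_))
    · rw [R1, R1]
      split_ifs with h
      · exact a1 k h
      · rfl
    · rw [R2, R2]
      split_ifs with h
      · exact a2 η h
      · rfl
  have Rsep : ∀ b, IsSeparable (Set.range (R b)) := fun b => by
    let g : (ℕ → E) × (Γ → 𝕜) → V := fun x =>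
      (∑ k ∈ range b, sgl 𝕜 E p k (x.1 k), ∑ η ∈ lev b, sgl 𝕜 𝕜 ∞ η (x.2 η))
    have hg : Continuous g := by fun_prop
    refine (isSeparable_range hg).mono ?_
    rintro _ ⟨v, rfl⟩
    refine ⟨(fun k => v.1 k, fun η => v.2 η), Prod.ext ?_ ?_⟩
    · change _ = trunc 𝕜 E p (range b) v.1
      rw [trunc, _root_.sum_apply]
      rfl
    · change _ = trunc 𝕜 𝕜 ∞ (lev b) v.2
      rw [trunc, _root_.sum_apply]
      rfl
  choose ψ ψ1 ψ2 using fun b => exists_net (Rsep b)
    {φ : V →L[𝕜] 𝕜 | (∀ v, ‖φ v‖ ≤ ‖v‖) ∧ ∀ v, φ (R b v) = φ v} 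
    ⟨0, fun v => norm_zero.le.trans (norm_nonneg v), fun _ => rfl⟩ fun φ hφ => hφ.1
  have hv2 : ∀ (v : V) γ, ‖v.2 γ‖ ≤ ‖v‖ := fun v γ =>
    (lp.norm_apply_le_norm ENNReal.top_ne_zero v.2 γ).trans (norm_snd_le v)
  let ev : Γ → V →L[𝕜] 𝕜 := fun γ => (evl 𝕜 𝕜 ∞ γ).comp (ContinuousLinearMap.snd 𝕜 _ _)
  let bb : Γ → V →L[𝕜] 𝕜 := fun γ =>
    if h : wt γ.1 % 4 = c + 1 then ev ⟨ix γ.1, γ.2.spec.2.2.2.2.1 h⟩
    else ψ (ix γ.1).unpair.1 (ix γ.1).unpair.2
  have bb_norm : ∀ γ v, ‖bb γ v‖ ≤ ‖v‖ := fun γ v => by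
    simp only [bb]
    split_ifs
    · exact hv2 v _
    · exact (ψ1 _ _).1 v
  let D : BD 𝕜 E p Γ :=
    { rank := Subtype.val
      lev := lev
      mem_lev := mem_lev
      pred := Node.pred
      top_le := fun γ => by rw [Node.top_pred]; exact pr_le _
      μ := fun γ => (((π.m (wt γ.1))⁻¹ : ℝ) : 𝕜)
      μ_le := fun γ => by
        rw [RCLike.norm_ofReal, abs_of_pos (inv_pos.2 (π.m_pos _)), one_div]
        exact inv_anti₀ (by norm_num) (π.four_le _)
      bb := bb
      bb_norm := bb_norm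
      bb_loc := fun γ v v' a1 a2 => by
        simp only [bb]
        split_ifs with h
        · exact a2 _ (γ.2.spec.2.2.2.2.2 h).1
        · have hb : (ix γ.1).unpair.1 ≤ γ.1 := (Nat.unpair_left_le _).trans (ix_le _)
          rw [← (ψ1 _ _).2 v, ← (ψ1 _ _).2 v', Rcongr _ v v' (fun k hk => a1 k (by omega))
            fun η hη => a2 η (by omega)] }
  obtain ⟨P, P1, P2, P3, P4⟩ := D.exists_P
  have PP := BD.P_P P1 P2 P3
  have P0 := BD.P_eq_zero P1 P2 P3
  have PR : ∀ a v, P a (R a v) = P a v := fun a v => by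
    rw [← sub_eq_zero, ← map_sub]
    refine P0 a _ (fun k hk => ?_) fun γ hγ => ?_
    · change (R a v).1 k - v.1 k = 0
      rw [R1, if_pos hk, sub_self]
    · change (R a v).2 γ - v.2 γ = 0
      rw [R2, if_pos hγ, sub_self]
  let Z := limSub P
  have hZ : IsClosed (Z : Set V) := isClosed_limSub P P4
  have hPZ : ∀ a v, P a v ∈ Z := fun a v =>
    tendsto_const_nhds.congr' ((eventually_ge_atTop a).mono fun t ht => by
      simp only [PP, min_eq_right ht])
  let X : ℕ → V →L[𝕜] Z := fun a => (P a).codRestrict Z (hPZ a)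
  have hsep : IsSeparable (Z : Set V) := by
    refine (IsSeparable.iUnion fun a => (Rsep a).image (P a).continuous).closure.mono ?_
    intro v hv
    refine mem_closure_of_tendsto hv (Eventually.of_forall fun a => ?_)
    exact Set.mem_iUnion.2 ⟨a, _, ⟨v, rfl⟩, PR a v⟩
  let S : Sys 𝕜 π Z :=
    { Γ := Γ
      rank := Subtype.val
      w := fun γ => wt γ.1
      age := fun γ => ageN γ.1
      pred := Node.pred
      e := fun γ => (ev γ).comp Z.subtypeL
      b := fun γ => (bb γ).comp Z.subtypeL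
      P := fun a => (X a).comp Z.subtypeL
      reg := fun j => j % 4 = c
      spe := fun j => j % 4 = c + 1
      σ := fun o j => sigN c (oTop Subtype.val o) j
      P_P := fun a b x => Subtype.ext (PP a b x.1)
      P_zero := fun x => Subtype.ext (P0 0 x.1 (fun _ h => by omega) fun _ h => by omega)
      P_norm := fun a x => P4 a x.1
      P_tendsto := fun x => tendsto_subtype_rng.2 x.2
      e_norm := fun γ x => hv2 x.1 γ
      b_norm := fun γ x => bb_norm γ x.1
      e_lt := fun γ a x h => P2 a x.1 γ h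
      e_rec := fun γ x => by
        have h := P3 γ.1 x.1 γ le_rfl
        rw [min_eq_left (D.top_le γ)] at h
        refine h.trans ?_
        congr 1
        change (Node.pred γ).elim 0 _ = _
        cases hp : Node.pred γ with
        | none => rfl
        | some ξ => exact P2 _ _ ξ (D.pred_lt hp)
      top_le := D.top_le
      age_eq := Node.age_eq
      age_le := fun γ => γ.2.spec.2.2.2.1
      w_pred := Node.w_pred
      w_le := fun γ => wt_le _
      spe_b := fun γ h => ⟨⟨ix γ.1, γ.2.spec.2.2.2.2.1 h⟩, by simp only [bb, dif_pos h],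
        by rw [Node.top_pred]; exact (γ.2.spec.2.2.2.2.2 h).2⟩
      σ_inj := fun j o o' h => Node.top_inj (by
        unfold sigN at h
        exact (Nat.pair_eq_pair.1 (Nat.eq_of_mul_eq_mul_left (by norm_num)
          (Nat.add_right_cancel h))).1)
      σ_reg := fun o j => by unfold sigN; omega
      σ_gt := fun o j => by
        have := Nat.right_le_pair (oTop Subtype.val o) (j + 1)
        unfold sigN
        omega
      σ_top := fun o j => by
        have := Nat.left_le_pair (oTop Subtype.val o) (j + 1)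
        unfold sigN
        omega
      spe_unb := fun r => ⟨4 * r + (c + 1), by omega, by omega⟩
      rich_reg := fun j o hj ho ha φ hφ b x y hx hy ε hε => by
        have hK : ∀ v, ‖((2 : 𝕜)⁻¹ • φ.comp (X b)) v‖ ≤ ‖v‖ := fun v => by
          change ‖(2 : 𝕜)⁻¹ • φ (X b v)‖ ≤ _
          rw [norm_smul, norm_inv, RCLike.norm_two]
          have : ‖φ (X b v)‖ ≤ 2 * ‖v‖ := (hφ _).trans (P4 b v)
          linarith
        have hXR : ∀ v, X b (R b v) = X b v := fun v => Subtype.ext (PR b v)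
        obtain ⟨i, i1, i2⟩ := ψ2 b ((2 : 𝕜)⁻¹ • φ.comp (X b)) ⟨hK, fun v => by
          change (2 : 𝕜)⁻¹ • φ (X b (R b v)) = (2 : 𝕜)⁻¹ • φ (X b v)
          rw [hXR]⟩ _ ⟨x.1, rfl⟩ _ ⟨y.1, rfl⟩ ε hε
        obtain ⟨γ, g1, g2, g3, g4⟩ := Node.exists_node j o (Or.inl hj) ho ha (Nat.pair b i) b
          fun h => by omega
        have hb : bb γ = ψ b i := by
          simp only [bb]
          rw [dif_neg (by omega), g3, Nat.unpair_pair]
        have key : ∀ z : Z, (X b).comp Z.subtypeL z = z →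
            ‖ψ b i (R b z.1) - ((2 : 𝕜)⁻¹ • φ.comp (X b)) (R b z.1)‖ ≤ ε →
            ‖(bb γ).comp Z.subtypeL z - φ z / 2‖ ≤ ε := fun z hz h => by
          change ‖ψ b i (R b z.1) - (2 : 𝕜)⁻¹ • φ (X b (R b z.1))‖ ≤ ε at h
          change X b z.1 = z at hz
          rw [(ψ1 b i).2, hXR, hz, smul_eq_mul, ← div_eq_inv_mul] at h
          rw [hb]
          exact h
        exact ⟨γ, g1, g2, g4, key x hx i1, key y hy i2⟩
      rich_spe := fun j o hj ho ha η hη b => by
        obtain ⟨γ, g1, g2, g3, g4⟩ := Node.exists_node j o (Or.inr hj) ho ha η.1 b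
          fun _ => ⟨η.2, hη⟩
        refine ⟨γ, g1, g2, g4, ?_⟩
        simp only [bb]
        rw [dif_pos (g2 ▸ hj)]
        congr 2
        exact Subtype.ext g3
      prescribe := fun b f M hM hf => by
        let u : lp (fun _ : Γ => 𝕜) ∞ := ⟨f, memℓp_infty ⟨M, by rintro _ ⟨γ, rfl⟩; exact hf γ⟩⟩
        have hu : ‖((0, u) : V)‖ ≤ M :=
          norm_prod_le_iff.2 ⟨by simpa using hM, lp.norm_le_of_forall_le hM hf⟩
        refine ⟨X b (0, u), Subtype.ext ?_, (P4 b _).trans (by linarith),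
          fun γ h => P2 b _ γ h, fun a ha => Subtype.ext ?_⟩
        · exact (PP b b _).trans (by rw [min_self]; rfl)
        · exact (PP a b _).trans (P0 _ _ (fun _ _ => rfl) fun γ hγ =>
            ha γ (hγ.trans_le (min_le_left _ _)))
      norm_block := fun C M N s x J hC hJ hs hx hM he => by
        have hM0 : 0 ≤ M := le_trans (mul_nonneg hC (by rw [hπ]; positivity)) hM
        refine norm_prod_le_iff.2 ⟨?_, lp.norm_le_of_forall_le hM0 he⟩
        change ‖((∑ k ∈ J, x k : Z) : V).1‖ ≤ M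
        rw [Submodule.coe_sum, Prod.fst_sum]
        refine (norm_sum_disjoint hp hC hJ hs (fun k hk => (norm_fst_le _).trans (hx k hk).2.2)
          fun k hk i hi => ?_).trans (hπ N ▸ hM)
        have a1 : P (s k) (x k).1 = 0 := congrArg Subtype.val (hx k hk).1
        have a2 : P (s (k + 1)) (x k).1 = (x k).1 := congrArg Subtype.val (hx k hk).2.1
        have b1 := P1 (s k) (x k).1 i
        have b2 := P1 (s (k + 1)) (x k).1 i
        rw [a1] at b1
        rw [a2] at b2
        by_cases h : i < s k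
        · rw [if_pos h] at b1
          exact b1.symm
        · rw [if_neg (by omega)] at b2
          exact b2 }
  refine ⟨Z, inferInstance, inferInstance, hZ.completeSpace_coe, hsep.separableSpace, S,
    (ContinuousLinearMap.fst 𝕜 _ _).comp Z.subtypeL,
    fun s => (X s).comp (ContinuousLinearMap.inl 𝕜 _ _), fun j h => h, fun γ => γ.2.spec.1,
    fun z => norm_fst_le z.1, fun s u => (P4 s (u, 0)).trans ?_, fun s u k => P1 s (u, 0) k,
    fun s t u h => Subtype.ext ((PP t s _).trans (by rw [min_eq_right h]; rfl)), fun s => ?_⟩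
  · simp
  · have hk : IsCompactOperator (trunc 𝕜 𝕜 ∞ (lev s)) := compact_sum _ _ fun η _ =>
      (isCompactOperator_of_locallyCompactSpace_dom (evl 𝕜 𝕜 ∞ η)).clm_comp (sgl 𝕜 𝕜 ∞ η)
    have := (hk.comp_clm ((ContinuousLinearMap.snd 𝕜 _ _).comp Z.subtypeL)).clm_comp
      ((X s).comp (ContinuousLinearMap.inr 𝕜 _ _))
    refine compact_congr this fun z => Subtype.ext ?_
    change P s z.1 - P s (z.1.1, 0) = P s (0, trunc 𝕜 𝕜 ∞ (lev s) z.1.2)
    rw [← map_sub, ← PR]
    congr 1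
    refine Prod.ext ?_ ?_
    · change trunc 𝕜 E p (range s) (z.1.1 - z.1.1) = 0
      rw [sub_self, map_zero]
    · change trunc 𝕜 𝕜 ∞ (lev s) (z.1.2 - 0) = _
      rw [sub_zero]

end Pool.Agent.P.MP_5298e3_an
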