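import Mathlib

/-!
The notions of the problem: the unconditional norm of a finitely supported matrix, the algebra
obtained by completion, and the Calkin algebra of a Banach space.
-/

open scoped ENNReal

namespace Pool.Agent.P.MP_5298e3_an

variable (𝕜 : Type) [RCLike 𝕜]

section Calkin

variable (X : Type) [NormedAddCommGroup X] [NormedSpace 𝕜 X]

/-- The algebra `L(X)` of bounded operators on `X`, with its usual structure. -/
def Op : Type := X →L[𝕜] X

noncomputable instance instNormedRingOp : NormedRing (Op 𝕜 X) := ContinuousLinearMap.toNormedRing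

noncomputable instance instNormedAlgebraOp : NormedAlgebra 𝕜 (Op 𝕜 X) :=
  ContinuousLinearMap.toNormedAlgebra

/-- The operator `T` is compact. -/
def IsCpt (T : Op 𝕜 X) : Prop := IsCompactOperator (show X →L[𝕜] X from T)

theorem isCpt_zero : IsCpt 𝕜 X 0 := isCompactOperator_zero

theorem isCpt_add {S T : Op 𝕜 X} (hS : IsCpt 𝕜 X S) (hT : IsCpt 𝕜 X T) : IsCpt 𝕜 X (S + T) :=
  IsCompactOperator.add hS hT

theorem isCpt_left (S : Op 𝕜 X) {T : Op 𝕜 X} (hT : IsCpt 𝕜 X T) : IsCpt 𝕜 X (S * T) :=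
  IsCompactOperator.clm_comp hT (show X →L[𝕜] X from S)

theorem isCpt_right {T : Op 𝕜 X} (S : Op 𝕜 X) (hT : IsCpt 𝕜 X T) : IsCpt 𝕜 X (T * S) :=
  IsCompactOperator.comp_clm hT (show X →L[𝕜] X from S)

/-- The ideal of compact operators in the algebra of bounded operators on `X`. -/
def compactIdeal : Ideal (Op 𝕜 X) where
  carrier := {T | IsCpt 𝕜 X T}
  zero_mem' := isCpt_zero 𝕜 X
  add_mem' := isCpt_add 𝕜 X
  smul_mem' := isCpt_left 𝕜 X

instance instIsTwoSided : (compactIdeal 𝕜 X).IsTwoSided := ⟨isCpt_right 𝕜 X⟩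

/-- The Calkin algebra of `X`; it carries the quotient algebra structure and the quotient norm. -/
abbrev Calkin : Type := Op 𝕜 X ⧸ compactIdeal 𝕜 X

end Calkin

/-- There is an algebra isomorphism from `Q` onto `B` that is bounded with bounded inverse. -/
def BanachAlgIso (Q B : Type) [Ring Q] [Algebra 𝕜 Q] [Norm Q] [Ring B] [Algebra 𝕜 B] [Norm B] :
    Prop :=
  ∃ (Φ : Q ≃ₐ[𝕜] B) (C : ℝ), ∀ T, ‖Φ T‖ ≤ C * ‖T‖ ∧ ‖T‖ ≤ C * ‖Φ T‖

variable (p : ℝ≥0∞) [Fact (1 ≤ p)]

/-- The sequence space `ℓ_p`, with its usual structure. -/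
def Ell : Type := lp (fun _ : ℕ => 𝕜) p

noncomputable instance instNormedAddCommGroupEll : NormedAddCommGroup (Ell 𝕜 p) :=
  lp.normedAddCommGroup

noncomputable instance instNormedSpaceEll : NormedSpace 𝕜 (Ell 𝕜 p) := lp.instNormedSpace

/-- The `j`-th coordinate functional of `ℓ_p`. -/
noncomputable def coord (j : ℕ) : Ell 𝕜 p →L[𝕜] 𝕜 := lp.evalCLM 𝕜 (fun _ : ℕ => 𝕜) p j

/-- The map sending a scalar `c` to `c` times the `i`-th unit vector of `ℓ_p`. -/
noncomputable def unitVec (i : ℕ) : 𝕜 →L[𝕜] Ell 𝕜 p :=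
  lp.singleContinuousLinearMap 𝕜 (fun _ : ℕ => 𝕜) p i

/-- The matrix unit `E i j` as an operator on `ℓ_p`: it sends `x` to `x j` times the `i`-th
unit vector. -/
noncomputable def matUnit (i j : ℕ) : Op 𝕜 (Ell 𝕜 p) := (unitVec 𝕜 p i).comp (coord 𝕜 p j)

/-- The norm `‖a‖_u` of a finitely supported matrix: the operator norm on `ℓ_p` of the matrix of
absolute values. -/
noncomputable def uNorm (a : ℕ × ℕ →₀ 𝕜) : ℝ :=
  ‖a.sum fun ij c => ((‖c‖ : ℝ) : 𝕜) • matUnit 𝕜 p ij.1 ij.2‖

/-- The normed algebra `A`, with the elements `e i j` as matrix units, is the completion of the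
algebra of finitely supported matrices for the norm `uNorm`: `A` is complete, the `e i j` multiply
as matrix units, and the linear map `a ↦ ∑ a i j • e i j` is isometric with dense range. -/
structure IsKu (A : Type) [NonUnitalNormedRing A] [NormedSpace 𝕜 A] (e : ℕ → ℕ → A) : Prop where
  complete : CompleteSpace A
  mul : ∀ i j k l, e i j * e k l = if j = k then e i l else 0
  norm : ∀ a : ℕ × ℕ →₀ 𝕜, ‖a.sum fun ij c => c • e ij.1 ij.2‖ = uNorm 𝕜 p a
  dense : DenseRange fun a : ℕ × ℕ →₀ 𝕜 => a.sum fun ij c => c • e ij.1 ij.2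

end Pool.Agent.P.MP_5298e3_an
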