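import Pool.Agent.P.MP_5298e3_an.Lower

/-!
Dependent sequences, and the key property of operators on rapidly increasing sequences.
-/

open Filter Topology Finset

namespace Pool.Agent.P.MP_5298e3_an

theorem exists_annihilator {𝕜 : Type} [RCLike 𝕜] {Z : Type} [NormedAddCommGroup Z]
    [NormedSpace 𝕜 Z] (x v : Z) {δ : ℝ} (h : ∀ c : 𝕜, δ ≤ ‖v - c • x‖) :
    ∃ φ : Z →L[𝕜] 𝕜, (∀ z, ‖φ z‖ ≤ ‖z‖) ∧ δ ≤ RCLike.re (φ v) ∧ φ x = 0 := by
  obtain ⟨g, h1, h2⟩ := exists_dual_vector'' 𝕜 ((𝕜 ∙ x).mkQL v)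
  refine ⟨g.comp (𝕜 ∙ x).mkQL, fun z => ?_, ?_, ?_⟩
  · exact ((g.le_opNorm _).trans (mul_le_of_le_one_left (norm_nonneg _) h1)).trans
      (Submodule.Quotient.norm_mk_le _ z)
  · rw [ContinuousLinearMap.comp_apply, h2, RCLike.ofReal_re]
    refine QuotientAddGroup.le_norm_iff.2 fun m hm => ?_
    have : v - m ∈ 𝕜 ∙ x := (Submodule.Quotient.eq _).1 hm.symm
    obtain ⟨c, hc⟩ := Submodule.mem_span_singleton.1 this
    have := h c
    rwa [hc, sub_sub_cancel] at this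
  · have : (𝕜 ∙ x).mkQL x = 0 :=
      (Submodule.Quotient.mk_eq_zero _).2 (Submodule.mem_span_singleton_self x)
    rw [ContinuousLinearMap.comp_apply, this, map_zero]

namespace Sys

variable {𝕜 : Type} [RCLike 𝕜] {π : Par} {Z : Type} [NormedAddCommGroup Z] [NormedSpace 𝕜 Z]
  {S : Sys 𝕜 π Z} {C : ℝ}

theorem Exact.special {j j0 : ℕ} {z : Z} (hz : S.Exact C j z) (hC : 0 ≤ C) (hj0 : S.spe j0)
    (hj : j0 < j) (o : Option S.Γ) : S.Wt j0 o →
      ‖S.eo o z‖ ≤ S.ag o * (2 * C / (π.n j0 : ℝ) ^ 2) ∨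
        ∃ γ, S.Le (some γ) o ∧ S.σ (S.pred γ) j0 = j := by
  have hn := π.n_pos' j0
  have hle : ∀ h, j0 < h → C / π.m h ≤ C / (π.n j0 : ℝ) ^ 2 := fun h hh =>
    div_le_div_of_nonneg_left hC (by positivity) (π.sq_n_le hh)
  induction o using chain_ind with
  | h0 => intro _; left; simp
  | h1 γ ih =>
    intro hw
    have hwγ : S.w γ = j0 := hw γ rfl
    rcases ih (wt_pred hwγ) with h | ⟨γ', h1, h2⟩
    swap
    · exact Or.inr ⟨γ', h1.trans (Le.single γ), h2⟩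
    by_cases hσ : S.σ (S.pred γ) j0 = j
    · exact Or.inr ⟨γ, Le.refl _, hσ⟩
    left
    obtain ⟨η, hη1, hη2⟩ := S.spe_b γ (hwγ ▸ hj0)
    rw [hwγ] at hη2
    have hη : ∀ r, ‖S.e η (S.P r z)‖ ≤ C / (π.n j0 : ℝ) ^ 2 := by
      intro r
      rcases lt_or_gt_of_ne (hη2 ▸ hσ : S.w η ≠ j) with h1 | h1
      · exact (hz.small r η h1).trans (hle _ (hη2 ▸ S.σ_gt _ _))
      · exact (hz.large r η h1).trans (hle _ hj)
    have e1 : S.e γ z = S.e γ (S.P (S.rank γ + 1) z - S.P (S.rank γ) z) + (S.eo (S.pred γ) z +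
        (((π.m (S.w γ))⁻¹ : ℝ) : 𝕜) *
          (S.e η (S.P (S.rank γ) z) - S.e η (S.P (S.top (S.pred γ)) z))) := by
      rw [← map_sub (S.e η), ← hη1, ← S.e_rec, map_sub, S.e_lt γ _ z (Nat.lt_succ_self _)]
      ring
    have e2 := (S.e_norm γ _).trans ((hz.diff (S.rank γ)).trans (hle _ hj))
    have e3 : ‖(((π.m (S.w γ))⁻¹ : ℝ) : 𝕜) *
        (S.e η (S.P (S.rank γ) z) - S.e η (S.P (S.top (S.pred γ)) z))‖ ≤
        C / (π.n j0 : ℝ) ^ 2 := by
      rw [norm_inv_mul]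
      have h0 : 0 ≤ C / (π.n j0 : ℝ) ^ 2 := by positivity
      have := div_le_div₀ (by positivity) (norm_sub_le_of_le (hη (S.rank γ)) (hη (S.top (S.pred γ))))
        (by norm_num : (0 : ℝ) < 4) (π.four_le (S.w γ))
      linarith
    have e5 : (S.ag (some γ) : ℝ) = S.ag (S.pred γ) + 1 := by
      change ((S.age γ : ℕ) : ℝ) = _
      rw [S.age_eq γ]
      push_cast
      rfl
    change ‖S.e γ z‖ ≤ _
    rw [e1, e5]
    refine (norm_add_le_of_le e2 (norm_add_le_of_le h e3)).trans (le_of_eq ?_)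
    ring

/-- The norm of the sum of a dependent sequence. -/
theorem dependent_norm {j0 : ℕ} (hj0 : S.spe j0) (hC : 0 ≤ C) {f : ℕ → Option S.Γ} {z : ℕ → Z}
    (hstep : ∀ i < π.n j0, ∃ γ, f (i + 1) = some γ ∧ S.pred γ = f i ∧ S.σ (f i) j0 ≤ S.rank γ ∧
      S.P (S.rank γ) (z i) = z i ∧ ‖S.e γ (z i)‖ ≤ 2 * C / π.n j0)
    (hlo : ∀ i < π.n j0, S.P (S.σ (f i) j0) (z i) = 0)
    (hex : ∀ i < π.n j0, S.Exact C (S.σ (f i) j0) (z i)) :
    ‖∑ i ∈ range (π.n j0), z i‖ ≤ 5 * C / π.m j0 ^ 2 * π.n j0 := by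
  have hn := π.n_pos' j0
  have hm := π.m_pos j0
  have htop : ∀ i < π.n j0, S.σ (f i) j0 ≤ S.top (f (i + 1)) ∧
      S.P (S.top (f (i + 1))) (z i) = z i ∧ ‖S.eo (f (i + 1)) (z i)‖ ≤ 2 * C / π.n j0 ∧
      S.Le (f i) (f (i + 1)) := by
    intro i hi
    obtain ⟨γ, h1, h2, h3, h4, h5⟩ := hstep i hi
    rw [h1, ← h2]
    exact ⟨(h2 ▸ h3).trans (Nat.le_succ _), hi_mono h4 (Nat.le_succ _), h5, Le.single γ⟩
  have hris : S.RIS C (π.n j0) (fun i => S.σ (f i) j0) z := by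
    refine ⟨⟨hC, mono_of_step fun i hi => (htop i hi).1.trans (S.σ_top _ _), hlo,
      fun i hi => hi_mono (htop i hi).2.1 (S.σ_top _ _), fun i hi => (hex i hi).norm⟩,
      fun i hi γ hγ => ?_⟩
    have := (hex i hi).small (S.top (f (i + 1))) γ hγ
    rwa [(htop i hi).2.1] at this
  have hle := le_of_steps fun i hi => (htop i hi).2.2.2
  refine hris.norm_excl fun γ hγ J hJ => ?_
  have hbad : ∀ i < π.n j0, 2 * C / π.n j0 < ‖S.e γ (z i)‖ → S.Le (f i) (some γ) := by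
    intro i hi hb
    rcases (hex i hi).special hC hj0 (S.σ_gt _ _) (some γ) (wt_some hγ) with h | ⟨γ', h1, h2⟩
    · exfalso
      have h1 : (S.age γ : ℝ) ≤ π.n j0 := by exact_mod_cast hγ ▸ S.age_le γ
      have h2 : (S.age γ : ℝ) * (2 * C / (π.n j0 : ℝ) ^ 2) ≤ π.n j0 * (2 * C / (π.n j0 : ℝ) ^ 2) :=
        mul_le_mul_of_nonneg_right h1 (by positivity)
      have h3 : π.n j0 * (2 * C / (π.n j0 : ℝ) ^ 2) = 2 * C / π.n j0 := by field_simp
      change ‖S.e γ (z i)‖ ≤ (S.age γ : ℝ) * _ at h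
      linarith
    · rw [← S.σ_inj _ _ _ h2]
      exact (Le.single γ').trans h1
  have hone : ∀ i i', i < i' → i' < π.n j0 → 2 * C / π.n j0 < ‖S.e γ (z i')‖ →
      ‖S.e γ (z i)‖ ≤ 2 * C / π.n j0 := by
    intro i i' hii hi' hb
    have hi : i < π.n j0 := hii.trans hi'
    have h1 := ((hle (i + 1) i' hii hi'.le).trans (hbad i' hi' hb)).eo_eq (htop i hi).2.1 le_rfl
    change S.e γ (z i) = _ at h1
    rw [h1]
    exact (htop i hi).2.2.1
  have hcard : ((J.filter fun i => 2 * C / π.n j0 < ‖S.e γ (z i)‖).card : ℝ) ≤ 1 := by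
    have : (J.filter fun i => 2 * C / π.n j0 < ‖S.e γ (z i)‖).card ≤ 1 := by
      refine Finset.card_le_one.2 fun k hk l hl => ?_
      obtain ⟨hk1, hk2⟩ := Finset.mem_filter.1 hk
      obtain ⟨hl1, hl2⟩ := Finset.mem_filter.1 hl
      by_contra hne
      rcases lt_or_gt_of_ne hne with hlt | hlt
      · exact absurd (hone k l hlt (Finset.mem_range.1 (hJ hl1)) hl2) (not_le.2 hk2)
      · exact absurd (hone l k hlt (Finset.mem_range.1 (hJ hk1)) hk2) (not_le.2 hl2)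
    exact_mod_cast this
  have hθ : 2 * C / π.n j0 ≤ 3 * C / π.m j0 ^ 2 :=
    div_le_div₀ (by positivity) (by linarith) (by positivity) (π.sq_m j0)
  have hterm : ∀ i ∈ J, ‖S.e γ (z i)‖ ≤
      (if 2 * C / π.n j0 < ‖S.e γ (z i)‖ then C else 0) + 3 * C / π.m j0 ^ 2 := by
    intro i hi
    have h0 : 0 ≤ 3 * C / π.m j0 ^ 2 := by positivity
    split_ifs with h
    · linarith [S.e_norm γ (z i), (hex i (Finset.mem_range.1 (hJ hi))).norm]
    · linarith [not_lt.1 h]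
  rw [map_sum]
  refine (norm_sum_le _ _).trans ((Finset.sum_le_sum hterm).trans ?_)
  rw [Finset.sum_add_distrib, ← Finset.sum_filter, Finset.sum_const, Finset.sum_const,
    nsmul_eq_mul, nsmul_eq_mul]
  nlinarith

variable {x : ℕ → Z}

theorem WRIS.exact_pair (hx : S.WRIS C x) (T : Z →L[𝕜] Z) {δ : ℝ}
    (hor : ∀ t, ∃ᶠ k in atTop, ∀ c : 𝕜, δ ≤ ‖T (x k) - S.P t (T (x k)) - c • x k‖)
    {j : ℕ} (hj : S.reg j) (o : Option S.Γ) {ε : ℝ} (hε : 0 < ε) :
    ∃ z η c, S.w η = j ∧ S.Exact (7 * C) j z ∧ S.P j z = 0 ∧ S.P c z = z ∧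
      δ / 2 - ε ≤ RCLike.re (S.e η (T z - S.P (S.top o) (T z))) ∧ ‖S.e η z‖ ≤ ε ∧
      ‖S.eo o (T z)‖ ≤ ε := by
  have hm := π.m_pos j
  have hn := π.n_pos' j
  obtain ⟨s, y, η, hs, hy, hη, hb⟩ := hx.lower (S' := S) (T - (S.P (S.top o)).comp T)
    (ContinuousLinearMap.id 𝕜 Z) ((S.eo o).comp T) (δ := δ) (fun t => by
      refine ((hor (max t (S.top o))).and_eventually (hx.lo t)).mono ?_
      rintro k ⟨h1, h2⟩
      obtain ⟨φ, a1, a2, a3⟩ := exists_annihilator _ _ h1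
      refine ⟨φ, a1, ?_, by simpa [h2] using a3⟩
      have : (T - (S.P (S.top o)).comp T) (x k) - S.P t ((T - (S.P (S.top o)).comp T) (x k)) =
          T (x k) - S.P (max t (S.top o)) (T (x k)) := by
        simp only [sub_apply, ContinuousLinearMap.comp_apply, map_sub, S.P_P]
        rcases le_total t (S.top o) with h | h
        · rw [min_eq_left h, max_eq_right h]; abel
        · rw [min_eq_right h, max_eq_left h]; abel
      rwa [this]) hj j (ε := ε / (3 * π.m j)) (by positivity)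
  have hc : ‖((π.m j / π.n j : ℝ) : 𝕜)‖ = π.m j / π.n j := by
    rw [RCLike.norm_ofReal, abs_of_pos (by positivity)]
  have hup : ∀ (φ : Z →L[𝕜] 𝕜), (∀ i < π.n j, ‖φ (y i)‖ ≤ 3 * (ε / (3 * π.m j))) →
      ‖φ (((π.m j / π.n j : ℝ) : 𝕜) • ∑ k ∈ range (π.n j), y k)‖ ≤ ε := by
    intro φ hφ
    rw [map_smul, norm_smul, hc, map_sum]
    have h1 := (norm_sum_le _ _).trans (Finset.sum_le_card_nsmul (range (π.n j)) _ _
      fun i hi => hφ i (Finset.mem_range.1 hi))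
    rw [Finset.card_range, nsmul_eq_mul] at h1
    refine (mul_le_mul_of_nonneg_left h1 (by positivity)).trans (le_of_eq ?_)
    field_simp
  refine ⟨_, η, s (π.n j), hη, hy.exact, ?_, ?_, ?_, hup (S.e η) fun i hi => (hb i hi).2.1,
    hup ((S.eo o).comp T) fun i hi => (hb i hi).2.2.trans ?_⟩
  · have := hy.toBlk.lo_sum
    rw [hs] at this
    rw [map_smul, this, smul_zero]
  · rw [map_smul, hy.toBlk.hi_sum]
  · change _ ≤ RCLike.re (S.e η ((T - (S.P (S.top o)).comp T) _))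
    rw [map_smul, map_smul, smul_eq_mul, RCLike.re_ofReal_mul, map_sum, map_sum, map_sum]
    have h1 := Finset.card_nsmul_le_sum (range (π.n j)) _ _
      fun i hi => (hb i (Finset.mem_range.1 hi)).1
    rw [Finset.card_range, nsmul_eq_mul] at h1
    refine le_trans (le_of_eq ?_) (mul_le_mul_of_nonneg_left h1 (by positivity))
    field_simp
  · have : 0 ≤ ε / (3 * π.m j) := by positivity
    linarith

/-- The key property: far out, an operator acts on a rapidly increasing sequence almost as a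
scalar. -/
theorem WRIS.almost_scalar (hx : S.WRIS C x) (T : Z →L[𝕜] Z) {δ : ℝ} (hδ : 0 < δ) :
    ∃ t, ∀ᶠ k in atTop, ∃ c : 𝕜, ‖T (x k) - S.P t (T (x k)) - c • x k‖ ≤ δ := by
  by_contra hcon
  have hor : ∀ t, ∃ᶠ k in atTop, ∀ c : 𝕜, δ ≤ ‖T (x k) - S.P t (T (x k)) - c • x k‖ := by
    intro t
    have h1 := Filter.not_eventually.1 fun h => hcon ⟨t, h⟩
    exact h1.mono fun k hk c => (not_le.1 fun h => hk ⟨c, h⟩).le
  have hC := hx.pos
  obtain ⟨r, hr⟩ := exists_nat_gt (140 * C * ‖T‖ / δ)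
  obtain ⟨j0, hrj, hj0⟩ := S.spe_unb r
  have hm := π.m_pos j0
  have hm4 := π.four_le j0
  have hn := π.n_pos' j0
  obtain ⟨ε, hε, hε1, hε2⟩ : ∃ ε > 0, ε ≤ δ / (12 * π.m j0) ∧ ε ≤ 2 * (7 * C) / π.n j0 :=
    ⟨min _ _, lt_min (by positivity) (by positivity), min_le_left _ _, min_le_right _ _⟩
  obtain ⟨F, hF0, hR, hI⟩ := build (σ := Option S.Γ × Z)
    (fun i a => S.Wt j0 a.1 ∧ S.ag a.1 = i)
    (fun a a' => (∃ γ, a'.1 = some γ ∧ S.pred γ = a.1 ∧ S.σ a.1 j0 ≤ S.rank γ ∧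
      S.P (S.rank γ) a'.2 = a'.2 ∧ ‖S.e γ a'.2‖ ≤ 2 * (7 * C) / π.n j0) ∧
      S.P (S.σ a.1 j0) a'.2 = 0 ∧ S.Exact (7 * C) (S.σ a.1 j0) a'.2 ∧
      ∀ o, S.Le a'.1 o → δ / (4 * π.m j0) ≤ RCLike.re (S.eo o (T a'.2)))
    (π.n j0) (none, 0) ⟨fun _ h => (by cases h), rfl⟩ (by
      rintro i hi ⟨o, z0⟩ ⟨ho, rfl⟩
      obtain ⟨z, η, c, h1, h2, h3, h4, h5, h6, h7⟩ :=
        hx.exact_pair T hor (S.σ_reg o j0) o hε
      obtain ⟨c', hc', hcl⟩ := exists_P_close (S := S) (T z) hε (max c (S.σ o j0))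
      obtain ⟨γ, g1, g2, g3, g4⟩ := S.rich_spe j0 o hj0 ho hi η h1 c'
      have hσc : S.σ o j0 ≤ c' := (le_max_right _ _).trans hc'
      have hcc' : c ≤ c' := (le_max_left _ _).trans hc'
      have htc : S.top o ≤ c' := (S.σ_top o j0).trans hσc
      refine ⟨(some γ, z), ⟨⟨γ, rfl, g1, hσc.trans g3, hi_mono h4 (hcc'.trans g3), ?_⟩, h3, h2,
        fun o' ho' => ?_⟩, wt_some g2, ?_⟩
      · rw [e_mid h3 h4 (g1 ▸ S.σ_top o j0) (hcc'.trans g3), norm_inv_mul, g4]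
        exact (div_le_self (norm_nonneg _) (by linarith [π.four_le (S.w γ)])).trans (h6.trans hε2)
      · have hcc : S.P c' (S.P c' (T z)) = S.P c' (T z) := by rw [S.P_P, min_self]
        have e1 : S.eo o' (S.P c' (T z)) = S.e γ (S.P c' (T z)) :=
          ho'.eo_eq hcc (by simp only [top_some]; omega)
        have e2 := e_rec' hcc g3
        rw [g1, g2, g4, eo_lt _ htc, S.P_P, min_eq_left htc] at e2
        have e3 : S.eo o' (T z) -
            (((π.m j0)⁻¹ : ℝ) : 𝕜) * S.e η (T z - S.P (S.top o) (T z)) =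
            S.eo o (T z) - S.eo o' (S.P c' (T z) - T z) +
              (((π.m j0)⁻¹ : ℝ) : 𝕜) * S.e η (S.P c' (T z) - T z) := by
          rw [map_sub (S.eo o'), e1, e2]
          simp only [map_sub]
          ring
        have e4 : ‖(((π.m j0)⁻¹ : ℝ) : 𝕜) * S.e η (S.P c' (T z) - T z)‖ ≤ ε / 4 := by
          rw [norm_inv_mul]
          exact div_le_div₀ hε.le ((S.e_norm _ _).trans hcl) (by norm_num) hm4
        have e5 := norm_add_le_of_le (norm_sub_le_of_le h7 ((eo_norm o' _).trans hcl)) e4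
        rw [← e3] at e5
        have e6 : (π.m j0)⁻¹ * (δ / 2 - ε) ≤
            RCLike.re ((((π.m j0)⁻¹ : ℝ) : 𝕜) * S.e η (T z - S.P (S.top o) (T z))) := by
          rw [RCLike.re_ofReal_mul]
          gcongr
        refine le_trans ?_ (re_ge_of_close e6 e5)
        have e7 : (π.m j0)⁻¹ * ε ≤ ε / 4 := by
          rw [← div_eq_inv_mul]
          exact div_le_div_of_nonneg_left hε.le (by norm_num) hm4
        have e8 : (π.m j0)⁻¹ * (δ / 2) = 6 * (δ / (12 * π.m j0)) := by field_simp; ring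
        have e9 : δ / (4 * π.m j0) = 3 * (δ / (12 * π.m j0)) := by field_simp; ring
        rw [mul_sub]
        linarith
      · change S.age γ = _
        rw [S.age_eq, g1])
  have hnorm := dependent_norm (f := fun i => (F i).1) (z := fun i => (F (i + 1)).2) hj0
    (by positivity) (fun i hi => (hR i hi).1) (fun i hi => (hR i hi).2.1)
    (fun i hi => (hR i hi).2.2.1)
  have hle := le_of_steps (o := fun i => (F i).1) (N := π.n j0) fun i hi => by
    obtain ⟨γ, h1, h2, -⟩ := (hR i hi).1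
    simp only [h1, ← h2]
    exact Le.single γ
  have h1 := le_norm_of_re_sum fun i hi => (hR i hi).2.2.2 _ (hle (i + 1) _ hi le_rfl)
  rw [← map_sum, ← map_sum] at h1
  have h2 := ((eo_norm (F (π.n j0)).1 _).trans (T.le_opNorm _)).trans
    (mul_le_mul_of_nonneg_left hnorm (norm_nonneg T))
  have h3 := h1.trans h2
  rw [← mul_assoc] at h3
  have h4 := le_of_mul_le_mul_right h3 hn
  have h5 : δ / (4 * π.m j0) = δ * π.m j0 / 4 / π.m j0 ^ 2 := by field_simp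
  rw [h5, ← mul_div_assoc, div_le_div_iff_of_pos_right (by positivity)] at h4
  rw [div_lt_iff₀ hδ] at hr
  have h6 : (r : ℝ) ≤ π.m j0 := le_trans (by exact_mod_cast hrj) (π.self_le j0)
  nlinarith

end Sys

end Pool.Agent.P.MP_5298e3_an
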