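import Pool.Agent.P.MP_5298e3_an.Sys

/-!
Upper estimates for sums of blocks and of rapidly increasing sequences.
-/

open Filter Topology Finset

namespace Pool.Agent.P.MP_5298e3_an

namespace Sys

variable {𝕜 : Type} [RCLike 𝕜] {π : Par} {Z : Type} [NormedAddCommGroup Z] [NormedSpace 𝕜 Z]
  (S : Sys 𝕜 π Z)

/-- A finite block sequence with cut points `s`. -/
structure Blk (C : ℝ) (N : ℕ) (s : ℕ → ℕ) (x : ℕ → Z) : Prop where
  nonneg : 0 ≤ C
  mono : ∀ k l, k ≤ l → l ≤ N → s k ≤ s l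
  lo : ∀ k < N, S.P (s k) (x k) = 0
  hi : ∀ k < N, S.P (s (k + 1)) (x k) = x k
  norm : ∀ k < N, ‖x k‖ ≤ C

/-- A finite rapidly increasing sequence. -/
structure RIS (C : ℝ) (N : ℕ) (s : ℕ → ℕ) (x : ℕ → Z) : Prop extends S.Blk C N s x where
  ris : ∀ k < N, ∀ γ, S.w γ < s k → ‖S.e γ (x k)‖ ≤ C / π.m (S.w γ)

variable {S} {C : ℝ} {N : ℕ} {s : ℕ → ℕ} {x : ℕ → Z}

theorem Blk.card_le_one (h : S.Blk C N s x) {J : Finset ℕ} (hJ : J ⊆ range N) (r : ℕ) :
    (J.filter fun k => s k ≤ r ∧ r < s (k + 1)).card ≤ 1 := by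
  refine Finset.card_le_one.2 fun k hk l hl => ?_
  obtain ⟨hk1, hk2, hk3⟩ := Finset.mem_filter.1 hk
  obtain ⟨hl1, hl2, hl3⟩ := Finset.mem_filter.1 hl
  have hkN := Finset.mem_range.1 (hJ hk1)
  have hlN := Finset.mem_range.1 (hJ hl1)
  by_contra hne
  rcases lt_or_gt_of_ne hne with hlt | hlt
  · have := h.mono (k + 1) l hlt hlN.le
    omega
  · have := h.mono (l + 1) k hlt hkN.le
    omega

theorem Blk.sum_ite_le (h : S.Blk C N s x) {J : Finset ℕ} (hJ : J ⊆ range N) (r : ℕ) {D : ℝ}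
    (hD : 0 ≤ D) : ∑ k ∈ J, (if s k ≤ r ∧ r < s (k + 1) then D else 0) ≤ D := by
  rw [← Finset.sum_filter, Finset.sum_const, nsmul_eq_mul]
  have : ((J.filter fun k => s k ≤ r ∧ r < s (k + 1)).card : ℝ) ≤ 1 := by
    exact_mod_cast h.card_le_one hJ r
  nlinarith

theorem Blk.norm_sum_card (h : S.Blk C N s x) {J : Finset ℕ} (hJ : J ⊆ range N) :
    ‖∑ k ∈ J, x k‖ ≤ C * J.card := by
  refine (norm_sum_le _ _).trans ?_
  rw [mul_comm, ← nsmul_eq_mul]
  exact Finset.sum_le_card_nsmul _ _ _ fun k hk => h.norm k (Finset.mem_range.1 (hJ hk))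

theorem Blk.chain_step (h : S.Blk C N s x) {A θ : ℝ} (hA : 0 ≤ A) (hθ : 0 ≤ θ)
    (hb : ∀ J ⊆ range N, ‖∑ k ∈ J, x k‖ ≤ A + θ * J.card) (j : ℕ) (o : Option S.Γ) :
    S.Wt j o → ∀ J ⊆ range N,
      ‖S.eo o (∑ k ∈ J, x k)‖ ≤ S.ag o * (2 * C + A / π.m j) + θ * J.card / π.m j := by
  have hm := π.m_pos j
  have hC := h.nonneg
  induction o using chain_ind with
  | h0 =>
    intro _ J _
    simp only [eo, ag, Option.elim_none, zero_apply, norm_zero, Nat.cast_zero,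
      zero_mul, zero_add]
    positivity
  | h1 γ ih =>
    intro hw J hJ
    have hwγ : S.w γ = j := hw γ rfl
    set p := S.top (S.pred γ) with hp
    set q := S.rank γ with hq
    have hterm : ∀ k ∈ J, ∃ r : 𝕜, S.e γ (x k) =
        (if s (k + 1) ≤ p then S.eo (S.pred γ) (x k) else 0) +
        (((π.m j)⁻¹ : ℝ) : 𝕜) * (if ¬ s (k + 1) ≤ p ∧ p ≤ s k ∧ s (k + 1) ≤ q then S.b γ (x k)
          else 0) + r ∧
        ‖r‖ ≤ (if s k ≤ p ∧ p < s (k + 1) then C else 0) +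
          (if s k ≤ q ∧ q < s (k + 1) then C else 0) := by
      intro k hk
      have hkN := Finset.mem_range.1 (hJ hk)
      have hnn : 0 ≤ (if s k ≤ p ∧ p < s (k + 1) then C else 0) +
          (if s k ≤ q ∧ q < s (k + 1) then C else 0) := by
        split_ifs <;> positivity
      have hxk : ‖S.e γ (x k)‖ ≤ C := (S.e_norm _ _).trans (h.norm k hkN)
      by_cases h1 : s (k + 1) ≤ p
      · refine ⟨0, ?_, by simpa using hnn⟩
        rw [if_pos h1, if_neg (by tauto), e_early (h.hi k hkN) h1]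
        simp
      by_cases h2 : p ≤ s k ∧ s (k + 1) ≤ q
      · refine ⟨0, ?_, by simpa using hnn⟩
        rw [if_neg h1, if_pos ⟨h1, h2⟩, e_mid (h.lo k hkN) (h.hi k hkN) h2.1 h2.2, hwγ]
        simp
      refine ⟨S.e γ (x k), by rw [if_neg h1, if_neg (by tauto)]; simp, ?_⟩
      by_cases h3 : s k ≤ p ∧ p < s (k + 1)
      · rw [if_pos h3]
        split_ifs <;> linarith
      by_cases h4 : s k ≤ q ∧ q < s (k + 1)
      · rw [if_neg h3, if_pos h4]
        linarith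
      have h5 : q < s k := by omega
      rw [e_zero (h.lo k hkN) h5]
      simpa using hnn
    choose! r hr1 hr2 using hterm
    set J1 := J.filter fun k => s (k + 1) ≤ p with hJ1
    set J2 := J.filter fun k => ¬ s (k + 1) ≤ p ∧ p ≤ s k ∧ s (k + 1) ≤ q with hJ2
    have hsum : S.e γ (∑ k ∈ J, x k) = S.eo (S.pred γ) (∑ k ∈ J1, x k) +
        (((π.m j)⁻¹ : ℝ) : 𝕜) * S.b γ (∑ k ∈ J2, x k) + ∑ k ∈ J, r k := by
      rw [map_sum, map_sum, map_sum, Finset.sum_congr rfl hr1, Finset.sum_add_distrib,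
        Finset.sum_add_distrib, ← Finset.mul_sum, hJ1, hJ2, Finset.sum_filter, Finset.sum_filter]
    have hJ1N : J1 ⊆ range N := (Finset.filter_subset _ _).trans hJ
    have hJ2N : J2 ⊆ range N := (Finset.filter_subset _ _).trans hJ
    have e1 := ih (wt_pred hwγ) J1 hJ1N
    have e2 : ‖(((π.m j)⁻¹ : ℝ) : 𝕜) * S.b γ (∑ k ∈ J2, x k)‖ ≤ (A + θ * J2.card) / π.m j := by
      rw [norm_inv_mul]
      exact div_le_div_of_nonneg_right ((S.b_norm _ _).trans (hb J2 hJ2N)) hm.le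
    have e3 : ‖∑ k ∈ J, r k‖ ≤ 2 * C := by
      refine (norm_sum_le _ _).trans ((Finset.sum_le_sum hr2).trans ?_)
      rw [Finset.sum_add_distrib]
      linarith [h.sum_ite_le hJ p hC, h.sum_ite_le hJ q hC]
    have e4 : (J1.card : ℝ) + J2.card ≤ J.card := by
      have hd : Disjoint J1 J2 := by
        rw [hJ1, hJ2, Finset.disjoint_filter]
        tauto
      have : (J1 ∪ J2).card ≤ J.card :=
        Finset.card_le_card (Finset.union_subset (Finset.filter_subset _ _)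
          (Finset.filter_subset _ _))
      rw [Finset.card_union_of_disjoint hd] at this
      exact_mod_cast this
    have e5 : (S.ag (some γ) : ℝ) = S.ag (S.pred γ) + 1 := by
      change ((S.age γ : ℕ) : ℝ) = _
      rw [S.age_eq γ]
      push_cast
      rfl
    have e6 : θ * J1.card / π.m j + θ * J2.card / π.m j ≤ θ * J.card / π.m j := by
      rw [← add_div, ← mul_add]
      exact div_le_div_of_nonneg_right (mul_le_mul_of_nonneg_left e4 hθ) hm.le
    change ‖S.e γ _‖ ≤ _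
    rw [hsum, e5]
    have e7 := norm_add₃_le (a := S.eo (S.pred γ) (∑ k ∈ J1, x k))
      (b := (((π.m j)⁻¹ : ℝ) : 𝕜) * S.b γ (∑ k ∈ J2, x k)) (c := ∑ k ∈ J, r k)
    rw [add_div] at e2
    linarith

theorem Blk.small_weight (h : S.Blk C N s x) {A θ : ℝ} (hA : C ≤ A) (hθ : 0 ≤ θ)
    (hb : ∀ J ⊆ range N, ‖∑ k ∈ J, x k‖ ≤ A + θ * J.card) {ν : ℕ} {γ : S.Γ}
    (hν : π.n (S.w γ) ≤ ν) {J : Finset ℕ} (hJ : J ⊆ range N) :
    ‖S.e γ (∑ k ∈ J, x k)‖ ≤ 3 * ν * A + θ * J.card / π.m (S.w γ) := by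
  have hC := h.nonneg
  have hA0 : 0 ≤ A := hC.trans hA
  have h1 := h.chain_step hA0 hθ hb (S.w γ) (some γ) (wt_some rfl) J hJ
  have h2 : (S.age γ : ℝ) ≤ ν := by exact_mod_cast (S.age_le γ).trans hν
  have h3 : A / π.m (S.w γ) ≤ A := div_le_self hA0 (by linarith [π.four_le (S.w γ)])
  have h4 : 0 ≤ A / π.m (S.w γ) := div_nonneg hA0 (π.m_pos _).le
  have h5 : (S.age γ : ℝ) * (2 * C + A / π.m (S.w γ)) ≤ ν * (3 * A) :=
    mul_le_mul h2 (by linarith) (by linarith) (Nat.cast_nonneg _)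
  change ‖S.e γ _‖ ≤ (S.age γ : ℝ) * _ + _ at h1
  linarith

theorem Blk.est (h : S.Blk C N s x) {j ν : ℕ} (hν1 : 1 ≤ ν) (hν : ∀ i < j, π.n i ≤ ν)
    {A θ : ℝ} (hA : C ≤ A) (hg : C * π.g N ≤ A) (hθ : 0 ≤ θ)
    (hb : ∀ γ, j ≤ S.w γ → ∀ J ⊆ range N, ‖S.e γ (∑ k ∈ J, x k)‖ ≤ A + θ * J.card) (t : ℕ) :
    ∀ J ⊆ range N, ‖∑ k ∈ J, x k‖ ≤ (3 * ν : ℝ) ^ t * A + (θ + C / 2 ^ t) * J.card := by
  have hC := h.nonneg
  have hA0 : 0 ≤ A := hC.trans hA
  have hν' : (1 : ℝ) ≤ 3 * ν := by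
    have : (1 : ℝ) ≤ ν := by exact_mod_cast hν1
    linarith
  have hpow : ∀ t : ℕ, A ≤ (3 * ν : ℝ) ^ t * A := fun t =>
    le_mul_of_one_le_left hA0 (one_le_pow₀ hν')
  induction t with
  | zero =>
    intro J hJ
    have := h.norm_sum_card hJ
    have h0 : 0 ≤ θ * J.card := by positivity
    simp only [pow_zero, one_mul, div_one, add_mul]
    linarith
  | succ t ih =>
    intro J hJ
    have hc : (0 : ℝ) ≤ J.card := Nat.cast_nonneg _
    have h0 : 0 ≤ C / 2 ^ (t + 1) * J.card := by positivity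
    have h0' : 0 ≤ θ * J.card := by positivity
    refine S.norm_block C _ N s x J hC hJ h.mono
      (fun k hk => ⟨h.lo k hk, h.hi k hk, h.norm k hk⟩) ?_ fun γ => ?_
    · have := hpow (t + 1)
      rw [add_mul]
      linarith
    by_cases hγ : j ≤ S.w γ
    · have h1 := hb γ hγ J hJ
      have := hpow (t + 1)
      rw [add_mul]
      linarith
    · have h1 := h.small_weight (hA.trans (hpow t)) (by positivity) ih
        (hν _ (not_le.1 hγ)) hJ
      have h2 : (θ + C / 2 ^ t) * J.card / π.m (S.w γ) ≤ (θ + C / 2 ^ t) * J.card / 2 :=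
        div_le_div_of_nonneg_left (by positivity) (by norm_num) (by linarith [π.four_le (S.w γ)])
      have h3 : (θ + C / 2 ^ t) * J.card / 2 = θ * J.card / 2 + C / 2 ^ (t + 1) * J.card := by
        rw [pow_succ]
        field_simp
      have h4 : (3 * ν : ℝ) ^ (t + 1) * A = 3 * ν * ((3 * ν : ℝ) ^ t * A) := by ring
      rw [add_mul]
      linarith

/-- The two estimates for a block sequence of length `n j`. -/
theorem Blk.avg {j : ℕ} (h : S.Blk C (π.n j) s x) {θ : ℝ} (hθ : 0 ≤ θ)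
    (hb : ∀ γ, j ≤ S.w γ → ∀ J ⊆ range (π.n j), ‖S.e γ (∑ k ∈ J, x k)‖ ≤ C + θ * J.card)
    {J : Finset ℕ} (hJ : J ⊆ range (π.n j)) :
    ‖∑ k ∈ J, x k‖ ≤ (θ + 2 * C / π.m j ^ 2) * π.n j ∧
      ∀ γ, S.w γ < j → ‖S.e γ (∑ k ∈ J, x k)‖ ≤
        C / π.m j ^ 2 * π.n j + (θ + C / π.m j ^ 2) * π.n j / π.m (S.w γ) := by
  obtain ⟨ν, t, hν1, hν, ht, hgr⟩ := π.growth j
  have hC := h.nonneg
  have hm := π.m_pos j
  have hg1 := π.one_le_g j
  have hCA : C ≤ C * π.g (π.n j) := le_mul_of_one_le_right hC hg1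
  have hν' : (1 : ℝ) ≤ 3 * ν := by
    have : (1 : ℝ) ≤ ν := by exact_mod_cast hν1
    linarith
  have hest := h.est hν1 hν hCA le_rfl hθ
    (fun γ hγ J hJ => (hb γ hγ J hJ).trans (by linarith)) t
  have hc : ∀ J ⊆ range (π.n j), (J.card : ℝ) ≤ π.n j := fun J hJ => by
    have := Finset.card_le_card hJ
    rw [Finset.card_range] at this
    exact_mod_cast this
  have h2t : C / 2 ^ t ≤ C / π.m j ^ 2 := div_le_div_of_nonneg_left hC (by positivity) ht
  have hbig : 3 * ν * ((3 * ν : ℝ) ^ t * (C * π.g (π.n j))) ≤ C / π.m j ^ 2 * π.n j := by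
    rw [div_mul_eq_mul_div, le_div_iff₀ (by positivity)]
    have := mul_le_mul_of_nonneg_left hgr hC
    calc _ = C * ((3 * ν : ℝ) ^ (t + 1) * π.g (π.n j) * π.m j ^ 2) := by ring
      _ ≤ _ := this
  have hA0 : 0 ≤ (3 * ν : ℝ) ^ t * (C * π.g (π.n j)) := by positivity
  have hθ' : (θ + C / 2 ^ t) * J.card ≤ (θ + C / π.m j ^ 2) * π.n j :=
    mul_le_mul (by linarith) (hc J hJ) (Nat.cast_nonneg _) (by positivity)
  constructor
  · have h1 := hest J hJ
    have h2 : (3 * ν : ℝ) ^ t * (C * π.g (π.n j)) ≤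
        3 * ν * ((3 * ν : ℝ) ^ t * (C * π.g (π.n j))) := le_mul_of_one_le_left hA0 hν'
    have h3 : (θ + 2 * C / π.m j ^ 2) * π.n j =
        C / π.m j ^ 2 * π.n j + (θ + C / π.m j ^ 2) * π.n j := by ring
    linarith
  · intro γ hγ
    have h1 := h.small_weight
      (hCA.trans (le_mul_of_one_le_left (by positivity) (one_le_pow₀ hν'))) (by positivity) hest
      (hν _ hγ) hJ
    have h2 := div_le_div_of_nonneg_right hθ' (π.m_pos (S.w γ)).le
    linarith

theorem RIS.any_weight (h : S.RIS C N s x) (γ : S.Γ) {J : Finset ℕ} (hJ : J ⊆ range N) :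
    ‖S.e γ (∑ k ∈ J, x k)‖ ≤ C + 3 * C / π.m (S.w γ) * J.card := by
  have hC := h.nonneg
  have hm := π.m_pos (S.w γ)
  have hterm : ∀ k ∈ J, ‖S.e γ (x k)‖ ≤
      (if s k ≤ S.w γ ∧ S.w γ < s (k + 1) then C else 0) + 3 * C / π.m (S.w γ) := by
    intro k hk
    have hkN := Finset.mem_range.1 (hJ hk)
    have h0 : 0 ≤ 3 * C / π.m (S.w γ) := by positivity
    split_ifs with h1
    · linarith [S.e_norm γ (x k), h.norm k hkN]
    rw [zero_add]
    by_cases h2 : S.w γ < s k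
    · exact (h.ris k hkN γ h2).trans (div_le_div_of_nonneg_right (by linarith) hm.le)
    · exact (late_weight (h.hi k hkN) (by omega)).trans
        (div_le_div_of_nonneg_right (by linarith [h.norm k hkN]) hm.le)
  rw [map_sum]
  refine (norm_sum_le _ _).trans ((Finset.sum_le_sum hterm).trans ?_)
  rw [Finset.sum_add_distrib, Finset.sum_const, nsmul_eq_mul]
  linarith [h.sum_ite_le hJ (S.w γ) hC]

/-- The norm of a sum of `n j` terms when the weight `j` acts weakly. -/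
theorem RIS.norm_excl {j : ℕ} (h : S.RIS C (π.n j) s x)
    (hj : ∀ γ, S.w γ = j → ∀ J ⊆ range (π.n j),
      ‖S.e γ (∑ k ∈ J, x k)‖ ≤ C + 3 * C / π.m j ^ 2 * J.card) :
    ‖∑ k ∈ range (π.n j), x k‖ ≤ 5 * C / π.m j ^ 2 * π.n j := by
  have hC := h.nonneg
  have hm := π.m_pos j
  have := (h.toBlk.avg (θ := 3 * C / π.m j ^ 2) (by positivity) (fun γ hγ J hJ => ?_)
    (Finset.Subset.refl _)).1
  · calc _ ≤ _ := this
      _ = _ := by ring
  rcases hγ.eq_or_lt with h1 | h1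
  · exact hj γ h1.symm J hJ
  · refine (h.any_weight γ hJ).trans ?_
    have : 3 * C / π.m (S.w γ) ≤ 3 * C / π.m j ^ 2 :=
      div_le_div_of_nonneg_left (by positivity) (by positivity) (π.sq_m_le h1)
    gcongr

theorem RIS.avg {j : ℕ} (h : S.RIS C (π.n j) s x) {J : Finset ℕ} (hJ : J ⊆ range (π.n j)) :
    ‖∑ k ∈ J, x k‖ ≤ 4 * C / π.m j * π.n j ∧
      (∀ γ, S.w γ < j → ‖S.e γ (∑ k ∈ J, x k)‖ ≤ 5 * C / π.m (S.w γ) / π.m j * π.n j) ∧
      ∀ γ, j < S.w γ → ‖S.e γ (∑ k ∈ J, x k)‖ ≤ 4 * C / π.m j / π.m j * π.n j := by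
  have hC := h.nonneg
  have hm := π.m_pos j
  have hm4 := π.four_le j
  have hn := π.n_pos' j
  obtain ⟨h1, h2⟩ := h.toBlk.avg (θ := 3 * C / π.m j) (by positivity) (fun γ hγ J hJ => by
    refine (h.any_weight γ hJ).trans ?_
    have : 3 * C / π.m (S.w γ) ≤ 3 * C / π.m j :=
      div_le_div_of_nonneg_left (by positivity) hm (π.mono hγ)
    gcongr) hJ
  have hsq : 2 * C / π.m j ^ 2 ≤ C / π.m j := by
    rw [div_le_div_iff₀ (by positivity) hm]
    nlinarith [mul_nonneg (mul_nonneg hC hm.le) (by linarith : 0 ≤ π.m j - 2)]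
  refine ⟨h1.trans (mul_le_mul_of_nonneg_right ?_ hn.le), fun γ hγ => (h2 γ hγ).trans ?_,
    fun γ hγ => (h.any_weight γ hJ).trans ?_⟩
  · have : 4 * C / π.m j = 3 * C / π.m j + C / π.m j := by ring
    linarith
  · have hmγ := π.m_pos (S.w γ)
    have e1 : C / π.m j ^ 2 ≤ C / π.m (S.w γ) / π.m j := by
      rw [div_div]
      exact div_le_div_of_nonneg_left hC (by positivity)
        (by nlinarith [π.mono hγ.le])
    have e2 : C / π.m j ^ 2 ≤ C / π.m j := by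
      have : 0 ≤ C / π.m j ^ 2 := by positivity
      have : 2 * C / π.m j ^ 2 = 2 * (C / π.m j ^ 2) := by ring
      linarith
    have e3 : (3 * C / π.m j + C / π.m j ^ 2) * π.n j / π.m (S.w γ) ≤
        (3 * C / π.m j + C / π.m j) * π.n j / π.m (S.w γ) := by gcongr
    have e4 := mul_le_mul_of_nonneg_right e1 hn.le
    calc _ ≤ C / π.m (S.w γ) / π.m j * π.n j +
          (3 * C / π.m j + C / π.m j) * π.n j / π.m (S.w γ) := by linarith
      _ = _ := by ring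
  · have e1 : 3 * C / π.m (S.w γ) ≤ 3 * C / π.m j ^ 2 :=
      div_le_div_of_nonneg_left (by positivity) (by positivity) (π.sq_m_le hγ)
    have e2 : (J.card : ℝ) ≤ π.n j := by
      have := Finset.card_le_card hJ
      rw [Finset.card_range] at this
      exact_mod_cast this
    have e3 : 3 * C / π.m (S.w γ) * J.card ≤ 3 * C / π.m j ^ 2 * π.n j :=
      mul_le_mul e1 e2 (Nat.cast_nonneg _) (by positivity)
    have e4 : C ≤ C / π.m j ^ 2 * π.n j := by
      rw [div_mul_eq_mul_div, le_div_iff₀ (by positivity)]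
      exact mul_le_mul_of_nonneg_left (π.sq_m j) hC
    calc _ ≤ C / π.m j ^ 2 * π.n j + 3 * C / π.m j ^ 2 * π.n j := by linarith
      _ = _ := by ring

variable (S) in
/-- An exact vector of weight index `j`. -/
structure Exact (C : ℝ) (j : ℕ) (z : Z) : Prop where
  norm : ‖z‖ ≤ C
  small : ∀ r γ, S.w γ < j → ‖S.e γ (S.P r z)‖ ≤ C / π.m (S.w γ)
  large : ∀ r γ, j < S.w γ → ‖S.e γ (S.P r z)‖ ≤ C / π.m j
  diff : ∀ r, ‖S.P (r + 1) z - S.P r z‖ ≤ C / π.m j

theorem Blk.P_sum (h : S.Blk C N s x) (r : ℕ) :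
    ∃ J ⊆ range N, ‖S.P r (∑ k ∈ range N, x k) - ∑ k ∈ J, x k‖ ≤ 2 * C := by
  have hC := h.nonneg
  refine ⟨(range N).filter fun k => s (k + 1) ≤ r, Finset.filter_subset _ _, ?_⟩
  rw [map_sum, Finset.sum_filter, ← Finset.sum_sub_distrib]
  refine (norm_sum_le _ _).trans ((Finset.sum_le_sum fun k hk => ?_).trans
    (h.sum_ite_le (D := 2 * C) (Finset.Subset.refl _) r (by positivity)))
  have hkN := Finset.mem_range.1 hk
  by_cases h1 : s (k + 1) ≤ r
  · rw [if_pos h1, hi_mono (h.hi k hkN) h1, if_neg (by omega)]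
    simp
  rw [if_neg h1, sub_zero]
  split_ifs with h2
  · linarith [S.P_norm r (x k), h.norm k hkN]
  · rw [lo_mono (h.lo k hkN) (by omega)]
    simp

theorem Blk.P_diff (h : S.Blk C N s x) (r : ℕ) :
    ‖S.P (r + 1) (∑ k ∈ range N, x k) - S.P r (∑ k ∈ range N, x k)‖ ≤ 4 * C := by
  have hC := h.nonneg
  rw [map_sum, map_sum, ← Finset.sum_sub_distrib]
  refine (norm_sum_le _ _).trans ((Finset.sum_le_sum fun k hk => ?_).trans
    (h.sum_ite_le (D := 4 * C) (Finset.Subset.refl _) r (by positivity)))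
  have hkN := Finset.mem_range.1 hk
  split_ifs with h2
  · linarith [S.P_norm r (x k), S.P_norm (r + 1) (x k), h.norm k hkN,
      norm_sub_le (S.P (r + 1) (x k)) (S.P r (x k))]
  by_cases h1 : s (k + 1) ≤ r
  · rw [hi_mono (h.hi k hkN) h1, hi_mono (h.hi k hkN) (by omega)]
    simp
  · rw [lo_mono (h.lo k hkN) (by omega), lo_mono (h.lo k hkN) (by omega)]
    simp

theorem RIS.exact {j : ℕ} (h : S.RIS C (π.n j) s x) :
    S.Exact (7 * C) j (((π.m j / π.n j : ℝ) : 𝕜) • ∑ k ∈ range (π.n j), x k) := by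
  have hC := h.nonneg
  have hm := π.m_pos j
  have hn := π.n_pos' j
  have hc : ‖((π.m j / π.n j : ℝ) : 𝕜)‖ = π.m j / π.n j := by
    rw [RCLike.norm_ofReal, abs_of_pos (by positivity)]
  have hc0 : 0 ≤ π.m j / π.n j := by positivity
  have hcan : ∀ a : ℝ, π.m j / π.n j * (a / π.m j * π.n j) = a := fun a => by field_simp
  have hcm : π.m j / π.n j ≤ 1 / π.m j := by
    rw [div_le_div_iff₀ hn hm]
    nlinarith [π.sq_m j]
  have hP : ∀ r γ (B : ℝ), (∀ J ⊆ range (π.n j), ‖S.e γ (∑ k ∈ J, x k)‖ ≤ B / π.m j * π.n j) →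
      ‖S.e γ (S.P r (((π.m j / π.n j : ℝ) : 𝕜) • ∑ k ∈ range (π.n j), x k))‖ ≤
        B + 2 * C / π.m j := by
    intro r γ B hB
    obtain ⟨J, hJ, hd⟩ := h.toBlk.P_sum r
    rw [map_smul, map_smul, norm_smul, hc]
    have e1 : ‖S.e γ (S.P r (∑ k ∈ range (π.n j), x k))‖ ≤ B / π.m j * π.n j + 2 * C := by
      have := norm_add_le (S.e γ (∑ k ∈ J, x k))
        (S.e γ (S.P r (∑ k ∈ range (π.n j), x k) - ∑ k ∈ J, x k))
      rw [← map_add, add_sub_cancel] at this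
      linarith [hB J hJ, S.e_norm γ (S.P r (∑ k ∈ range (π.n j), x k) - ∑ k ∈ J, x k)]
    have e2 := mul_le_mul_of_nonneg_left e1 hc0
    rw [mul_add, hcan] at e2
    have e3 := mul_le_mul_of_nonneg_right hcm (by positivity : 0 ≤ 2 * C)
    have e4 : 1 / π.m j * (2 * C) = 2 * C / π.m j := by ring
    linarith
  refine ⟨?_, fun r γ hγ => ?_, fun r γ hγ => ?_, fun r => ?_⟩
  · rw [norm_smul, hc]
    have := mul_le_mul_of_nonneg_left (h.avg (Finset.Subset.refl _)).1 hc0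
    rw [hcan] at this
    linarith
  · refine (hP r γ _ fun J hJ => (h.avg hJ).2.1 γ hγ).trans ?_
    have : 2 * C / π.m j ≤ 2 * C / π.m (S.w γ) :=
      div_le_div_of_nonneg_left (by positivity) (π.m_pos _) (π.mono hγ.le)
    have e : 7 * C / π.m (S.w γ) = 5 * C / π.m (S.w γ) + 2 * C / π.m (S.w γ) := by ring
    linarith
  · refine (hP r γ _ fun J hJ => (h.avg hJ).2.2 γ hγ).trans ?_
    have e : 7 * C / π.m j = 4 * C / π.m j + 2 * C / π.m j + C / π.m j := by ring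
    have : 0 ≤ C / π.m j := by positivity
    linarith
  · rw [map_smul, map_smul, ← smul_sub, norm_smul, hc]
    have e1 := mul_le_mul hcm (h.toBlk.P_diff r) (norm_nonneg _) (by positivity)
    have e : 7 * C / π.m j = 1 / π.m j * (4 * C) + 3 * (C / π.m j) := by ring
    have : 0 ≤ C / π.m j := by positivity
    linarith

theorem Blk.lo_sum (h : S.Blk C N s x) : S.P (s 0) (∑ k ∈ range N, x k) = 0 := by
  rw [map_sum]
  exact Finset.sum_eq_zero fun k hk =>
    lo_mono (h.lo k (Finset.mem_range.1 hk)) (h.mono 0 k (Nat.zero_le _) (Finset.mem_range.1 hk).le)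

theorem Blk.hi_sum (h : S.Blk C N s x) :
    S.P (s N) (∑ k ∈ range N, x k) = ∑ k ∈ range N, x k := by
  rw [map_sum]
  exact Finset.sum_congr rfl fun k hk =>
    hi_mono (h.hi k (Finset.mem_range.1 hk)) (h.mono (k + 1) N (Finset.mem_range.1 hk) le_rfl)

end Sys

end Pool.Agent.P.MP_5298e3_an
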