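import Pool.Agent.P.MP_5298e3_an.Est

/-!
Weak rapidly increasing sequences, the construction of norming nodes of regular weight, and the
comparison of two systems with different weights.
-/

open Filter Topology Finset

namespace Pool.Agent.P.MP_5298e3_an

theorem re_ge_of_close {𝕜 : Type} [RCLike 𝕜] {a c : 𝕜} {r ε : ℝ} (h : r ≤ RCLike.re a)
    (hc : ‖c - a‖ ≤ ε) : r - ε ≤ RCLike.re c := by
  have h1 := (RCLike.abs_re_le_norm (c - a)).trans hc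
  rw [map_sub] at h1
  linarith [(abs_le.1 h1).1]

theorem le_norm_of_re_sum {𝕜 : Type} [RCLike 𝕜] {N : ℕ} {a : ℕ → 𝕜} {r : ℝ}
    (h : ∀ i < N, r ≤ RCLike.re (a i)) : r * N ≤ ‖∑ i ∈ range N, a i‖ := by
  refine le_trans ?_ (RCLike.re_le_norm _)
  rw [map_sum]
  have := Finset.card_nsmul_le_sum (range N) (fun i => RCLike.re (a i)) r
    fun i hi => h i (Finset.mem_range.1 hi)
  rwa [Finset.card_range, nsmul_eq_mul, mul_comm] at this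

theorem not_tendsto_zero {Y : Type*} [NormedAddCommGroup Y] {v : ℕ → Y}
    (h : ¬ Tendsto v atTop (𝓝 0)) : ∃ δ > 0, ∃ᶠ k in atTop, δ ≤ ‖v k‖ := by
  by_contra hc
  apply h
  rw [Metric.tendsto_nhds]
  intro δ hδ
  by_contra h2
  refine hc ⟨δ, hδ, ?_⟩
  rw [Filter.not_eventually] at h2
  exact h2.mono fun k hk => by simpa using hk

theorem tendsto_zero_of_eventually {Y : Type*} [NormedAddCommGroup Y] {v : ℕ → Y} {K : ℝ}
    (hK : 0 < K) (h : ∀ δ > 0, ∀ᶠ k in atTop, ‖v k‖ ≤ K * δ) : Tendsto v atTop (𝓝 0) := by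
  rw [Metric.tendsto_nhds]
  intro δ hδ
  refine (h (δ / (2 * K)) (by positivity)).mono fun k hk => ?_
  have : K * (δ / (2 * K)) = δ / 2 := by field_simp
  rw [dist_zero_right]
  linarith

theorem eventually_norm_le {Y : Type*} [NormedAddCommGroup Y] {v : ℕ → Y}
    (h : Tendsto v atTop (𝓝 0)) {δ : ℝ} (hδ : 0 < δ) : ∀ᶠ k in atTop, ‖v k‖ ≤ δ :=
  (Metric.tendsto_nhds.1 h δ hδ).mono fun k hk => by
    rw [dist_zero_right] at hk
    exact hk.le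

namespace Sys

variable {𝕜 : Type} [RCLike 𝕜] {π : Par} {Z : Type} [NormedAddCommGroup Z] [NormedSpace 𝕜 Z]
  (S : Sys 𝕜 π Z)

/-- A sequence from which rapidly increasing sequences can be extracted freely. -/
structure WRIS (C : ℝ) (x : ℕ → Z) : Prop where
  pos : 0 < C
  norm : ∀ k, ‖x k‖ ≤ C
  fin : ∀ k, ∃ c, S.P c (x k) = x k
  lo : ∀ s, ∀ᶠ k in atTop, S.P s (x k) = 0
  ris : ∀ h, ∀ᶠ k in atTop, ∀ γ, S.w γ = h → ‖S.e γ (x k)‖ ≤ C / π.m h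

variable {S} {C : ℝ} {x : ℕ → Z}

theorem WRIS.good (hx : S.WRIS C x) (s : ℕ) : ∀ᶠ k in atTop, S.P s (x k) = 0 ∧
    ∀ γ, S.w γ < s → ‖S.e γ (x k)‖ ≤ C / π.m (S.w γ) := by
  have h : ∀ᶠ k in atTop, ∀ h ∈ range s, ∀ γ, S.w γ = h → ‖S.e γ (x k)‖ ≤ C / π.m h :=
    (Finset.eventually_all _).2 fun h _ => hx.ris h
  exact ((hx.lo s).and h).mono fun k hk =>
    ⟨hk.1, fun γ hγ => hk.2 _ (Finset.mem_range.2 hγ) γ rfl⟩

theorem WRIS.comp (hx : S.WRIS C x) {i : ℕ → ℕ} (hi : Tendsto i atTop atTop) :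
    S.WRIS C fun k => x (i k) :=
  ⟨hx.pos, fun _ => hx.norm _, fun _ => hx.fin _, fun s => hi.eventually (hx.lo s),
    fun h => hi.eventually (hx.ris h)⟩

theorem WRIS.smul (hx : S.WRIS C x) {u : ℕ → 𝕜} (hu : ∀ k, ‖u k‖ = 1) :
    S.WRIS C fun k => u k • x k := by
  refine ⟨hx.pos, fun k => ?_, fun k => ?_, fun s => (hx.lo s).mono fun k hk => ?_,
    fun h => (hx.ris h).mono fun k hk γ hγ => ?_⟩
  · rw [norm_smul, hu, one_mul]; exact hx.norm k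
  · obtain ⟨c, hc⟩ := hx.fin k
    exact ⟨c, by rw [map_smul, hc]⟩
  · rw [map_smul, hk, smul_zero]
  · rw [map_smul, norm_smul, hu, one_mul]; exact hk γ hγ

theorem WRIS.add {C' : ℝ} {y : ℕ → Z} (hx : S.WRIS C x) (hy : S.WRIS C' y) :
    S.WRIS (C + C') fun k => x k + y k := by
  refine ⟨add_pos hx.pos hy.pos, fun k => norm_add_le_of_le (hx.norm k) (hy.norm k), fun k => ?_,
    fun s => ((hx.lo s).and (hy.lo s)).mono fun k hk => ?_,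
    fun h => ((hx.ris h).and (hy.ris h)).mono fun k hk γ hγ => ?_⟩
  · obtain ⟨c, hc⟩ := hx.fin k
    obtain ⟨c', hc'⟩ := hy.fin k
    exact ⟨max c c', by
      rw [map_add, hi_mono hc (le_max_left _ _), hi_mono hc' (le_max_right _ _)]⟩
  · rw [map_add, hk.1, hk.2, add_zero]
  · rw [map_add, add_div]
    exact norm_add_le_of_le (hk.1 γ hγ) (hk.2 γ hγ)

theorem WRIS.extract (hx : S.WRIS C x) {τ : Type} (Inv : ℕ → τ → Prop) (R : τ → τ → Z → Prop)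
    (N s0 : ℕ) (a0 : τ) (h0 : Inv 0 a0)
    (step : ∀ i < N, ∀ a, Inv i a → ∃ᶠ k in atTop, ∃ a', R a a' (x k) ∧ Inv (i + 1) a') :
    ∃ (s : ℕ → ℕ) (y : ℕ → Z) (f : ℕ → τ), s 0 = s0 ∧ S.RIS C N s y ∧ f 0 = a0 ∧
      (∀ i < N, R (f i) (f (i + 1)) (y i)) ∧ ∀ i ≤ N, Inv i (f i) := by
  obtain ⟨F, hF0, hR, hI⟩ := build (σ := ℕ × τ × Z) (fun i a => Inv i a.2.1)
    (fun a a' => a.1 ≤ a'.1 ∧ S.P a.1 a'.2.2 = 0 ∧ S.P a'.1 a'.2.2 = a'.2.2 ∧ ‖a'.2.2‖ ≤ C ∧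
      (∀ γ, S.w γ < a.1 → ‖S.e γ a'.2.2‖ ≤ C / π.m (S.w γ)) ∧ R a.2.1 a'.2.1 a'.2.2)
    N (s0, a0, 0) h0 (by
      rintro i hi ⟨s, a, z⟩ ha
      obtain ⟨k, ⟨a', h1, h2⟩, h3, h4⟩ := ((step i hi a ha).and_eventually (hx.good s)).exists
      obtain ⟨c, hc⟩ := hx.fin k
      exact ⟨(max s c, a', x k), ⟨le_max_left _ _, h3, hi_mono hc (le_max_right _ _), hx.norm k,
        h4, h1⟩, h2⟩)
  refine ⟨fun i => (F i).1, fun i => (F (i + 1)).2.2, fun i => (F i).2.1, by simp only [hF0],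
    ⟨⟨hx.pos.le, mono_of_step fun i hi => (hR i hi).1, fun i hi => (hR i hi).2.1,
      fun i hi => (hR i hi).2.2.1, fun i hi => (hR i hi).2.2.2.1⟩,
      fun i hi => (hR i hi).2.2.2.2.1⟩, by simp only [hF0], fun i hi => (hR i hi).2.2.2.2.2, hI⟩

theorem WRIS.weakly_null (hx : S.WRIS C x) (φ : Z →L[𝕜] 𝕜) :
    Tendsto (fun k => φ (x k)) atTop (𝓝 0) := by
  by_contra h
  obtain ⟨δ, hδ, hfr⟩ := not_tendsto_zero h
  choose u hu1 hu2 using fun k => RCLike.exists_norm_eq_mul_self (φ (x k))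
  obtain ⟨j, hj⟩ := exists_nat_gt (‖φ‖ * (4 * C) / δ)
  obtain ⟨s, y, -, -, hy, -, hR, -⟩ := (hx.smul hu1).extract (τ := Unit) (fun _ _ => True)
    (fun _ _ z => δ ≤ RCLike.re (φ z)) (π.n j) 0 () trivial fun _ _ _ _ =>
      hfr.mono fun k hk => ⟨(), by
        rw [map_smul, smul_eq_mul, ← hu2, RCLike.ofReal_re]; exact hk, trivial⟩
  have h1 := le_norm_of_re_sum hR
  rw [← map_sum] at h1
  have h2 := (φ.le_opNorm _).trans
    (mul_le_mul_of_nonneg_left (hy.avg (Finset.Subset.refl _)).1 (norm_nonneg φ))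
  have h3 : δ ≤ ‖φ‖ * (4 * C / π.m j) := by
    have := h1.trans h2
    rw [← mul_assoc] at this
    exact le_of_mul_le_mul_right this (π.n_pos' j)
  rw [← mul_div_assoc, le_div_iff₀ (π.m_pos j)] at h3
  rw [div_lt_iff₀ hδ] at hj
  nlinarith [π.self_le j]

variable {Z' : Type} [NormedAddCommGroup Z'] [NormedSpace 𝕜 Z'] {S' : Sys 𝕜 π Z'}

theorem step_reg {j : ℕ} (hj : S'.reg j) {o : Option S'.Γ} (ho : S'.Wt j o)
    (hag : S'.ag o < π.n j) (φ : Z' →L[𝕜] 𝕜) (hφ : ∀ z, ‖φ z‖ ≤ ‖z‖) (v v' : Z') {ε : ℝ}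
    (hε : 0 < ε) (hv : ‖S'.eo o v‖ ≤ ε) (hv' : ‖S'.eo o v'‖ ≤ ε) :
    ∃ γ, S'.pred γ = o ∧ S'.w γ = j ∧ ∀ o', S'.Le (some γ) o' →
      ‖S'.eo o' v - (((π.m j)⁻¹ : ℝ) : 𝕜) * (φ (v - S'.P (S'.top o) v) / 2)‖ ≤ 3 * ε ∧
      ‖S'.eo o' v' - (((π.m j)⁻¹ : ℝ) : 𝕜) * (φ (v' - S'.P (S'.top o) v') / 2)‖ ≤ 3 * ε := by
  obtain ⟨c, ⟨hc1, hc2⟩, hc3⟩ := (((eventually_P_close (S := S') v hε).and
    (eventually_P_close (S := S') v' hε)).and (eventually_ge_atTop (S'.top o))).exists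
  have hfix : ∀ z : Z', S'.P c (S'.P c z - S'.P (S'.top o) z) =
      S'.P c z - S'.P (S'.top o) z := fun z => by
    rw [map_sub, S'.P_P, S'.P_P, min_self, min_eq_right hc3]
  obtain ⟨γ, h1, h2, h3, h4, h5⟩ :=
    S'.rich_reg j o hj ho hag φ hφ c _ _ (hfix v) (hfix v') ε hε
  have key : ∀ z : Z', ‖S'.P c z - z‖ ≤ ε → ‖S'.eo o z‖ ≤ ε →
      ‖S'.b γ (S'.P c z - S'.P (S'.top o) z) - φ (S'.P c z - S'.P (S'.top o) z) / 2‖ ≤ ε →
      ∀ o', S'.Le (some γ) o' →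
      ‖S'.eo o' z - (((π.m j)⁻¹ : ℝ) : 𝕜) * (φ (z - S'.P (S'.top o) z) / 2)‖ ≤ 3 * ε := by
    intro z hz1 hz2 hz3 o' ho'
    have hcc : S'.P c (S'.P c z) = S'.P c z := by rw [S'.P_P, min_self]
    have e1 : S'.eo o' (S'.P c z) = S'.e γ (S'.P c z) :=
      ho'.eo_eq hcc (by simp only [top_some]; omega)
    have e2 := e_rec' hcc h3
    rw [h1, h2, eo_lt z hc3, S'.P_P, min_eq_left hc3] at e2
    have e3 : S'.eo o' z - (((π.m j)⁻¹ : ℝ) : 𝕜) * (φ (z - S'.P (S'.top o) z) / 2) =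
        S'.eo o z - S'.eo o' (S'.P c z - z) + (((π.m j)⁻¹ : ℝ) : 𝕜) *
          (S'.b γ (S'.P c z - S'.P (S'.top o) z) - φ (S'.P c z - S'.P (S'.top o) z) / 2 +
            φ (S'.P c z - z) / 2) := by
      rw [map_sub (S'.eo o'), e1, e2]
      simp only [map_sub]
      ring
    have e4 : ‖φ (S'.P c z - z) / 2‖ ≤ ε := by
      rw [norm_div, RCLike.norm_two]
      linarith [hφ (S'.P c z - z)]
    have e5 := norm_add_le_of_le hz3 e4
    have e6 := norm_sub_le_of_le hz2 ((eo_norm o' _).trans hz1)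
    rw [e3]
    refine (norm_add_le_of_le e6 le_rfl).trans ?_
    rw [norm_inv_mul]
    have e7 := div_le_div₀ (by positivity) e5 (by norm_num : (0 : ℝ) < 4) (π.four_le j)
    linarith
  exact ⟨γ, h1, h2, fun o' ho' => ⟨key v hc1 hv h4 o' ho', key v' hc2 hv' h5 o' ho'⟩⟩

/-- Construction of a norming node of regular weight along a rapidly increasing sequence. -/
theorem WRIS.lower (hx : S.WRIS C x) (T U : Z →L[𝕜] Z') (ψ : Z →L[𝕜] 𝕜) {δ : ℝ}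
    (hor : ∀ t, ∃ᶠ k in atTop, ∃ φ : Z' →L[𝕜] 𝕜, (∀ z, ‖φ z‖ ≤ ‖z‖) ∧
      δ ≤ RCLike.re (φ (T (x k) - S'.P t (T (x k)))) ∧ φ (U (x k) - S'.P t (U (x k))) = 0)
    {j : ℕ} (hj : S'.reg j) (s0 : ℕ) {ε : ℝ} (hε : 0 < ε) :
    ∃ (s : ℕ → ℕ) (y : ℕ → Z) (η : S'.Γ), s 0 = s0 ∧ S.RIS C (π.n j) s y ∧ S'.w η = j ∧
      ∀ i < π.n j, δ / (2 * π.m j) - 3 * ε ≤ RCLike.re (S'.e η (T (y i))) ∧
        ‖S'.e η (U (y i))‖ ≤ 3 * ε ∧ ‖ψ (y i)‖ ≤ ε := by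
  obtain ⟨s, y, f, hs0, hy, hf0, hR, hI⟩ := hx.extract (τ := Option S'.Γ)
    (fun i o => S'.Wt j o ∧ S'.ag o = i)
    (fun o o' z => S'.Le o o' ∧ ‖ψ z‖ ≤ ε ∧ ∀ o'', S'.Le o' o'' →
      δ / (2 * π.m j) - 3 * ε ≤ RCLike.re (S'.eo o'' (T z)) ∧ ‖S'.eo o'' (U z)‖ ≤ 3 * ε)
    (π.n j) s0 none ⟨fun _ h => (by cases h), rfl⟩ (by
      rintro i hi o ⟨ho, rfl⟩
      have a1 := eventually_norm_le (hx.weakly_null ((S'.eo o).comp T)) hε
      have a2 := eventually_norm_le (hx.weakly_null ((S'.eo o).comp U)) hε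
      have a3 := eventually_norm_le (hx.weakly_null ψ) hε
      refine ((hor (S'.top o)).and_eventually (a1.and (a2.and a3))).mono ?_
      rintro k ⟨⟨φ, hφ, hφ1, hφ2⟩, b1, b2, b3⟩
      obtain ⟨γ, h1, h2, h3⟩ := step_reg hj ho hi φ hφ (T (x k)) (U (x k)) hε b1 b2
      refine ⟨some γ, ⟨h1 ▸ Le.single γ, b3, fun o'' ho'' => ?_⟩, wt_some h2, ?_⟩
      · obtain ⟨c1, c2⟩ := h3 o'' ho''
        rw [hφ2] at c2
        refine ⟨re_ge_of_close ?_ c1, by simpa using c2⟩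
        have h2 : (2 : 𝕜) = ((2 : ℝ) : 𝕜) := (RCLike.ofReal_ofNat 2).symm
        rw [RCLike.re_ofReal_mul, h2, RCLike.div_re_ofReal]
        have hm := π.m_pos j
        calc δ / (2 * π.m j) = (π.m j)⁻¹ * (δ / 2) := by field_simp
          _ ≤ _ := by gcongr
      · change S'.age γ = _
        rw [S'.age_eq, h1])
  obtain ⟨hw, hag⟩ := hI _ le_rfl
  have hle := le_of_steps fun i hi => (hR i hi).1
  cases hη : f (π.n j) with
  | none =>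
    rw [hη] at hag
    exact absurd hag (π.n_pos j).ne
  | some η =>
    refine ⟨s, y, η, hs0, hy, hw η hη, fun i hi => ?_⟩
    have := (hR i hi).2.2 _ (hle (i + 1) _ hi le_rfl)
    rw [hη] at this
    exact ⟨this.1, this.2, (hR i hi).2.1⟩

/-- Comparison of two systems when the second has regular weights absent from the first. -/
theorem WRIS.cross (hx : S.WRIS C x) (hex : ∀ r, ∃ j, r ≤ j ∧ S'.reg j ∧ ∀ γ, S.w γ ≠ j)
    (T : Z →L[𝕜] Z') {δ : ℝ} (hδ : 0 < δ) :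
    ∃ t, ∀ᶠ k in atTop, ‖T (x k) - S'.P t (T (x k))‖ ≤ δ := by
  by_contra hcon
  have hor : ∀ t, ∃ᶠ k in atTop, ∃ φ : Z' →L[𝕜] 𝕜, (∀ z, ‖φ z‖ ≤ ‖z‖) ∧
      δ ≤ RCLike.re (φ (T (x k) - S'.P t (T (x k)))) ∧
      φ ((0 : Z →L[𝕜] Z') (x k) - S'.P t ((0 : Z →L[𝕜] Z') (x k))) = 0 := by
    intro t
    have h1 : ∃ᶠ k in atTop, ¬ ‖T (x k) - S'.P t (T (x k))‖ ≤ δ :=
      Filter.not_eventually.1 fun h => hcon ⟨t, h⟩
    refine h1.mono fun k hk => ?_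
    obtain ⟨φ, h1, h2⟩ := exists_dual_vector'' 𝕜 (T (x k) - S'.P t (T (x k)))
    refine ⟨φ, fun z => (φ.le_opNorm z).trans (mul_le_of_le_one_left (norm_nonneg _) h1), ?_,
      by simp⟩
    rw [h2, RCLike.ofReal_re]
    exact (not_le.1 hk).le
  obtain ⟨r, hr⟩ := exists_nat_gt (20 * C * ‖T‖ / δ)
  obtain ⟨j, hrj, hj, hne⟩ := hex r
  have hm := π.m_pos j
  obtain ⟨s, y, η, -, hy, -, hb⟩ := hx.lower T 0 0 hor hj 0
    (ε := δ / (12 * π.m j)) (by positivity)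
  have h1 := le_norm_of_re_sum fun i hi => (hb i hi).1
  rw [← map_sum, ← map_sum] at h1
  have h2 := ((S'.e_norm η _).trans (T.le_opNorm _)).trans
    (mul_le_mul_of_nonneg_left (hy.norm_excl fun γ hγ => absurd hγ (hne γ)) (norm_nonneg T))
  have h3 := h1.trans h2
  rw [← mul_assoc] at h3
  have h4 := le_of_mul_le_mul_right h3 (π.n_pos' j)
  have h5 : δ / (2 * π.m j) - 3 * (δ / (12 * π.m j)) = δ * π.m j / 4 / π.m j ^ 2 := by
    field_simp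
    ring
  rw [h5, ← mul_div_assoc, div_le_div_iff_of_pos_right (by positivity)] at h4
  rw [div_lt_iff₀ hδ] at hr
  have h6 : (r : ℝ) ≤ π.m j := le_trans (by exact_mod_cast hrj) (π.self_le j)
  nlinarith

end Sys

end Pool.Agent.P.MP_5298e3_an
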