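import Pool.Agent.P.MP_5298e3_an.Ops
import Pool.Agent.P.MP_5298e3_an.Alg

/-!
The Calkin algebra of the sum is the unitization of the completed matrix algebra.
-/

open Filter Topology Finset TopologicalSpace
open scoped ENNReal

namespace Pool.Agent.P.MP_5298e3_an

variable {𝕜 : Type} [RCLike 𝕜] {p : ℝ≥0∞} [Fact (1 ≤ p)]

theorem exists_setup (hp : 1 < p) (hp' : p ≠ ∞) :
    ∃ (π : Par) (X : Type) (_ : NormedAddCommGroup X) (_ : NormedSpace 𝕜 X) (_ : CompleteSpace X)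
      (Z : Type) (_ : NormedAddCommGroup Z) (_ : NormedSpace 𝕜 Z) (_ : CompleteSpace Z)
      (SX : Sys 𝕜 π X) (SZ : Sys 𝕜 π Z) (ρ : Z →L[𝕜] lp (fun _ : ℕ => X) p)
      (J : ℕ → lp (fun _ : ℕ => X) p →L[𝕜] Z), Setup SX SZ ρ J := by
  have h1 : 1 < p.toReal := by
    rw [← ENNReal.toReal_one]
    exact (ENNReal.toReal_lt_toReal ENNReal.one_ne_top hp').2 hp
  obtain ⟨π, hπ⟩ := exists_par (1 / p.toReal) (by positivity)
    ((div_lt_one (by linarith)).2 h1)
  obtain ⟨X, _, _, _, _, SX, ρ0, J0, a1, a2, -, -, -, -, a7⟩ :=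
    exists_sys (𝕜 := 𝕜) (E := (⊥ : Submodule 𝕜 𝕜)) hp' π hπ 0 (by norm_num)
  obtain ⟨Z, _, _, _, _, SZ, ρ, J, b1, b2, b3, b4, b5, b6, b7⟩ :=
    exists_sys (𝕜 := 𝕜) (E := X) hp' π hπ 2 (by norm_num)
  refine ⟨π, X, inferInstance, inferInstance, inferInstance, Z, inferInstance, inferInstance,
    inferInstance, SX, SZ, ρ, J, fun s => compact_congr (a7 s) fun z => ?_,
    fun r => ⟨4 * r + 2, by omega, b1 _ (by omega), fun γ => by have := a2 γ; omega⟩,
    fun r => ⟨4 * r, by omega, a1 _ (by omega), fun γ => by have := b2 γ; omega⟩,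
    b3, b4, b5, b6, b7⟩
  have : ρ0 z = 0 := lp.ext (funext fun k => Subsingleton.elim _ _)
  simp [this]

/-- The ideal of compact operators, on the unwrapped type of operators. -/
def cIdeal (𝕜 : Type) [RCLike 𝕜] (X : Type) [NormedAddCommGroup X] [NormedSpace 𝕜 X] :
    Ideal (X →L[𝕜] X) where
  carrier := {T | IsCompactOperator T}
  zero_mem' := isCompactOperator_zero
  add_mem' hS hT := hS.add hT
  smul_mem' S _ hT := hT.clm_comp S

instance (X : Type) [NormedAddCommGroup X] [NormedSpace 𝕜 X] : (cIdeal 𝕜 X).IsTwoSided :=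
  ⟨fun S hT => IsCompactOperator.comp_clm hT S⟩

theorem Setup.calkin {π : Par} {X : Type} [NormedAddCommGroup X] [NormedSpace 𝕜 X]
    [CompleteSpace X] {Z : Type} [NormedAddCommGroup Z] [NormedSpace 𝕜 Z] [CompleteSpace Z]
    {SX : Sys 𝕜 π X} {SZ : Sys 𝕜 π Z} {ρ : Z →L[𝕜] lp (fun _ : ℕ => X) p}
    {J : ℕ → lp (fun _ : ℕ => X) p →L[𝕜] Z} (h : Setup SX SZ ρ J)
    {A : Type} [NonUnitalNormedRing A] [NormedSpace 𝕜 A]
    [IsScalarTower 𝕜 A A] [SMulCommClass 𝕜 A A] {e : ℕ → ℕ → A} (hA : IsKu 𝕜 p A e) :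
    ∃ Φ : ((Z →L[𝕜] Z) ⧸ cIdeal 𝕜 Z) ≃ₐ[𝕜] WithLp 1 (Unitization 𝕜 A),
      ∀ T, ‖Φ T‖ ≤ 24 * ‖T‖ ∧ ‖T‖ ≤ 24 * ‖Φ T‖ := by
  have : IsClosed ((cIdeal 𝕜 Z : Ideal _) : Set (Z →L[𝕜] Z)) :=
    isClosed_setOfPred_isCompactOperator
  let _ : NormedRing ((Z →L[𝕜] Z) ⧸ cIdeal 𝕜 Z) := quotNormedRing _
  let _ : NormedAlgebra 𝕜 ((Z →L[𝕜] Z) ⧸ cIdeal 𝕜 Z) :=
    { Submodule.Quotient.normedSpace (cIdeal 𝕜 Z) 𝕜, Ideal.Quotient.algebra 𝕜 with }
  have : CompleteSpace ((Z →L[𝕜] Z) ⧸ cIdeal 𝕜 Z) := Submodule.Quotient.completeSpace _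
  let mk := Ideal.Quotient.mkₐ 𝕜 (cIdeal 𝕜 Z)
  have hle : ∀ T, ‖mk T‖ ≤ ‖T‖ := fun T => Submodule.Quotient.norm_mk_le _ T
  have heq : ∀ S T, mk S = mk T ↔ IsCompactOperator (S - T : Z →L[𝕜] Z) := fun S T =>
    Ideal.Quotient.eq
  have hlin : ∀ a, Finsupp.linearCombination 𝕜
      (fun ij : ℕ × ℕ => mk ((emb J ij.1).comp (prj ρ ij.2))) a = mk (lin ρ J a) := fun a =>
    (Finsupp.apply_linearCombination 𝕜 mk.toLinearMap _ a).symm
  refine exists_algEquiv hA (fun i j => mk ((emb J i).comp (prj ρ j))) (fun i j k l => ?_)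
    (by norm_num) ?_ (fun a => ?_) (fun l a => ?_) fun y => ?_
  · rw [← map_mul]
    have : (emb J i).comp (prj ρ j) * (emb J k).comp (prj ρ l) =
        if j = k then (emb J i).comp (prj ρ l) else 0 := by
      ext1 z
      change emb J i (prj ρ j (emb J k (prj ρ l z))) = _
      rw [h.prj_emb]
      by_cases hjk : j = k
      · rw [if_pos hjk, if_pos hjk.symm]
        rfl
      · rw [if_neg hjk, if_neg (Ne.symm hjk), map_zero]
        rfl
    rw [this]
    split_ifs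
    · rfl
    · exact map_zero _
  · rw [← map_one mk]
    exact ((hle 1).trans ContinuousLinearMap.norm_id_le).trans (by norm_num)
  · obtain ⟨n, hn⟩ : ∃ n, ∀ ij ∈ a.support, ij.1 < n :=
      ⟨a.support.sup Prod.fst + 1, fun ij hij => Nat.lt_succ_of_le (Finset.le_sup hij)⟩
    have h0 := uNorm_nonneg (p := p) a
    rw [hlin, ← (heq _ _).2 (h.lin_decomp a hn)]
    refine (hle _).trans (ContinuousLinearMap.opNorm_le_bound _ (by positivity) fun z => ?_)
    have e1 := h.J_norm n (amp 𝕜 X p a (ρ z))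
    have e2 := (norm_amp_le a (ρ z)).trans (mul_le_mul_of_nonneg_left (h.ρ_norm z) h0)
    have e3 := mul_nonneg h0 (norm_nonneg z)
    change ‖J n (amp 𝕜 X p a (ρ z))‖ ≤ _
    linarith
  · rw [hlin, ← map_one mk, ← map_smul, ← map_add, ← div_le_iff₀' (by norm_num)]
    refine QuotientAddGroup.le_norm_iff.2 fun W hW => ?_
    have hK := (heq _ _).1 hW
    have e1 := h.lower_scalar l a hK
    have e2 := h.lower_matrix a hK
    rw [add_sub_cancel] at e1
    have e3 : lin ρ J a + (W - (l • 1 + lin ρ J a)) = W - l • 1 := by abel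
    have e4 : ‖W - l • 1‖ ≤ ‖W‖ + ‖l‖ := by
      refine norm_sub_le_of_le le_rfl ?_
      rw [norm_smul]
      exact mul_le_of_le_one_right (norm_nonneg _) ContinuousLinearMap.norm_id_le
    rw [e3] at e2
    linarith
  · obtain ⟨T, rfl⟩ := Ideal.Quotient.mkₐ_surjective 𝕜 _ y
    have hc : Continuous mk := AddMonoidHomClass.continuous_of_bound mk 1 fun T => by
      simpa using hle T
    set M := (LinearMap.range (Finsupp.linearCombination 𝕜
      fun ij : ℕ × ℕ => mk ((emb J ij.1).comp (prj ρ ij.2)))).topologicalClosure with hM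
    obtain ⟨l, hl⟩ := h.dens (M.comap mk.toLinearMap)
      ((Submodule.isClosed_topologicalClosure _).preimage hc)
      (fun K hK => by
        have : mk K = 0 := Ideal.Quotient.eq_zero_iff_mem.2 hK
        change mk K ∈ M
        rw [this]
        exact zero_mem _)
      (fun i j => Submodule.le_topologicalClosure _ ⟨Finsupp.single (i, j) 1, by simp⟩) T
    refine ⟨l, ?_⟩
    change mk (T - l • 1) ∈ M at hl
    rwa [map_sub, map_smul, map_one] at hl

end Pool.Agent.P.MP_5298e3_an
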