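import Pool.Agent.P.MP_5298e3_an.Scalar
import Pool.Agent.P.MP_5298e3_an.Construct
import Pool.Agent.P.MP_5298e3_an.Amp

/-!
Operators on the sum of copies of a space with the scalar-plus-compact property.
-/

open Filter Topology Finset
open scoped ENNReal

namespace Pool.Agent.P.MP_5298e3_an

variable {𝕜 : Type} [RCLike 𝕜] {p : ℝ≥0∞} [Fact (1 ≤ p)] {π : Par}
  {X : Type} [NormedAddCommGroup X] [NormedSpace 𝕜 X]
  {Y : Type} [NormedAddCommGroup Y] [NormedSpace 𝕜 Y]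
  {Z : Type} [NormedAddCommGroup Z] [NormedSpace 𝕜 Z]

theorem cp_left {K : X →L[𝕜] Y} (hK : IsCompactOperator K) (T : Y →L[𝕜] Z) :
    IsCompactOperator (T.comp K) := hK.clm_comp T

theorem cp_right {K : Y →L[𝕜] Z} (hK : IsCompactOperator K) (T : X →L[𝕜] Y) :
    IsCompactOperator (K.comp T) := hK.comp_clm T

theorem tendsto_of_sub {V : Type} [NormedAddCommGroup V] {a : V} {b : ℕ → V}
    (h : Tendsto (fun k => a - b k) atTop (𝓝 0)) : Tendsto b atTop (𝓝 a) := by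
  simpa using (tendsto_const_nhds (x := a)).sub h

theorem mem_of_ext {N : Submodule 𝕜 (X →L[𝕜] Y)} {S T : X →L[𝕜] Y} (h : T ∈ N)
    (he : ∀ x, S x = T x) : S ∈ N := by
  rwa [show S = T from ContinuousLinearMap.ext he]

theorem Sys.scalar_compact [CompleteSpace X] (S : Sys 𝕜 π X)
    (hX : ∀ s, IsCompactOperator (S.P s)) (T : X →L[𝕜] X) :
    ∃ l : 𝕜, IsCompactOperator (T - l • 1 : X →L[𝕜] X) := by
  obtain ⟨l, hl⟩ := Sys.scalar_plus (S := S) T fun t C x hx => hx.compact_null (cp_right (hX t) T)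
  exact ⟨l, isCompactOperator_of_tendsto (tendsto_of_sub hl)
    (Eventually.of_forall fun k => cp_left (hX k) _)⟩

theorem Sys.far_infty (S : Sys 𝕜 π X) (s n : ℕ) (c : ℕ → ℕ → 𝕜) (hc : ∀ i j, ‖c i j‖ ≤ 1) :
    ∃ (u : ℕ → X) (f : ℕ → X →L[𝕜] 𝕜), (∀ j, ‖u j‖ ≤ 2) ∧ (∀ i x, ‖f i x‖ ≤ ‖x‖) ∧
      (∀ i < n, ∀ j, f i (u j) = c i j) ∧ ∀ j, S.P s (u j) = 0 := by
  classical
  choose g g1 g2 using Sys.exists_far (S := S)
  let γ : ℕ → S.Γ := fun i => Nat.rec (g s) (fun _ ξ => g (S.rank ξ + 1)) i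
  have hmono : StrictMono fun i => S.rank (γ i) := strictMono_nat_of_lt_succ fun i => g1 _
  have hinj : Function.Injective γ := fun i j h => hmono.injective (by simp only [h])
  have hs : ∀ i, s ≤ S.rank (γ i) := fun i => (g1 s).trans (hmono.monotone (Nat.zero_le i))
  choose u u1 u2 u3 u4 using fun j => S.prescribe (S.rank (γ n))
    (Function.extend γ (fun i => c i j) 0) 1 zero_le_one fun η => by
      by_cases h : ∃ i, γ i = η
      · obtain ⟨i, rfl⟩ := h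
        rw [hinj.extend_apply]
        exact hc i j
      · rw [Function.extend_apply' _ _ _ h]
        simp
  refine ⟨u, fun i => S.e (γ i), fun j => by linarith [u2 j], fun i => S.e_norm _,
    fun i hi j => ?_, fun j => u4 j s fun η hη => ?_⟩
  · rw [u3 j _ (hmono hi), hinj.extend_apply]
  · rw [Function.extend_apply']
    · rfl
    · rintro ⟨i, rfl⟩
      exact absurd (hs i) (not_le.2 hη)

theorem Sys.small_far (S : Sys 𝕜 π X) {K : X →L[𝕜] Y} (hK : IsCompactOperator K) {ε : ℝ}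
    (hε : 0 < ε) : ∀ᶠ s in atTop, ∀ u, S.P s u = 0 → ‖K u‖ ≤ ε * ‖u‖ := by
  refine (eventually_norm_le (Sys.horiz_compact (S := S) hK) hε).mono fun s hs u hu => ?_
  have := ((K - K.comp (S.P s)).le_opNorm u).trans
    (mul_le_mul_of_nonneg_right hs (norm_nonneg u))
  simpa [hu] using this

/-- The properties of the pair of spaces used in the computation of the Calkin algebra. -/
structure Setup (SX : Sys 𝕜 π X) (SZ : Sys 𝕜 π Z) (ρ : Z →L[𝕜] lp (fun _ : ℕ => X) p)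
    (J : ℕ → lp (fun _ : ℕ => X) p →L[𝕜] Z) : Prop where
  cX : ∀ s, IsCompactOperator (SX.P s)
  XZ : ∀ r, ∃ j, r ≤ j ∧ SZ.reg j ∧ ∀ γ, SX.w γ ≠ j
  ZX : ∀ r, ∃ j, r ≤ j ∧ SX.reg j ∧ ∀ γ, SZ.w γ ≠ j
  ρ_norm : ∀ z, ‖ρ z‖ ≤ ‖z‖
  J_norm : ∀ s u, ‖J s u‖ ≤ 2 * ‖u‖
  ρ_J : ∀ s u k, ρ (J s u) k = if k < s then u k else 0
  P_J : ∀ s t u, s ≤ t → SZ.P t (J s u) = J s u
  cZ : ∀ s, IsCompactOperator (SZ.P s - (J s).comp ρ : Z →L[𝕜] Z)

/-- The embedding of the `i`-th copy. -/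
noncomputable def emb (J : ℕ → lp (fun _ : ℕ => X) p →L[𝕜] Z) (i : ℕ) : X →L[𝕜] Z :=
  (J (i + 1)).comp (sgl 𝕜 X p i)

/-- The projection onto the `j`-th copy. -/
noncomputable def prj (ρ : Z →L[𝕜] lp (fun _ : ℕ => X) p) (j : ℕ) : Z →L[𝕜] X :=
  (evl 𝕜 X p j).comp ρ

/-- A finitely supported matrix as an operator on `Z`. -/
noncomputable def lin (ρ : Z →L[𝕜] lp (fun _ : ℕ => X) p)
    (J : ℕ → lp (fun _ : ℕ => X) p →L[𝕜] Z) : (ℕ × ℕ →₀ 𝕜) →ₗ[𝕜] Z →L[𝕜] Z :=
  Finsupp.linearCombination 𝕜 fun ij => (emb J ij.1).comp (prj ρ ij.2)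

namespace Setup

variable {SX : Sys 𝕜 π X} {SZ : Sys 𝕜 π Z} {ρ : Z →L[𝕜] lp (fun _ : ℕ => X) p}
  {J : ℕ → lp (fun _ : ℕ => X) p →L[𝕜] Z} (h : Setup SX SZ ρ J)

include h

theorem ρ_emb (i : ℕ) (x : X) : ρ (emb J i x) = sgl 𝕜 X p i x := by
  refine lp.ext (funext fun k => (h.ρ_J (i + 1) (sgl 𝕜 X p i x) k).trans ?_)
  rw [sgl_apply]
  split_ifs <;> first | rfl | omega

theorem prj_emb (j i : ℕ) (x : X) : prj ρ j (emb J i x) = if i = j then x else 0 := by
  change ρ (emb J i x) j = _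
  rw [h.ρ_emb, sgl_apply]

theorem ρ_lin (a : ℕ × ℕ →₀ 𝕜) (z : Z) : ρ (lin ρ J a z) = amp 𝕜 X p a (ρ z) := by
  induction a using Finsupp.induction_linear with
  | zero => simp
  | add a a' h1 h2 => simp only [map_add, add_apply, h1, h2]
  | single ij c =>
    simp only [lin, amp, Finsupp.linearCombination_single, smul_apply, map_smul,
      ContinuousLinearMap.comp_apply, h.ρ_emb]
    rfl

theorem cp_fix {D : Y →L[𝕜] Z} {s : ℕ} (h1 : ∀ y, SZ.P s (D y) = D y) (h2 : ∀ y, ρ (D y) = 0) :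
    IsCompactOperator D :=
  compact_congr (cp_right (h.cZ s) D) fun y => by simp [h1, h2]

theorem P_decomp (s : ℕ) :
    IsCompactOperator (SZ.P s - ∑ i ∈ range s, (emb J i).comp (prj ρ i) : Z →L[𝕜] Z) := by
  have h1 : IsCompactOperator
      ((J s).comp ρ - ∑ i ∈ range s, (emb J i).comp (prj ρ i) : Z →L[𝕜] Z) := by
    refine h.cp_fix (s := s) (fun z => ?_) fun z => ?_
    · simp only [sub_apply, _root_.sum_apply, ContinuousLinearMap.comp_apply, map_sub, map_sum,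
        h.P_J s s _ le_rfl]
      congr 1
      exact Finset.sum_congr rfl fun i hi => h.P_J _ _ _ (Finset.mem_range.1 hi)
    · simp only [sub_apply, _root_.sum_apply, ContinuousLinearMap.comp_apply, map_sub, map_sum,
        h.ρ_emb]
      rw [sub_eq_zero]
      refine lp.ext (funext fun k => ?_)
      rw [h.ρ_J, sum_sgl_apply (𝕜 := 𝕜) (range s) (fun i => prj ρ i z) k]
      simp only [Finset.mem_range]
      rfl
  exact compact_congr ((h.cZ s).add h1) fun z => by simp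

theorem lin_decomp (a : ℕ × ℕ →₀ 𝕜) {s : ℕ} (hs : ∀ ij ∈ a.support, ij.1 < s) :
    IsCompactOperator ((J s).comp ((amp 𝕜 X p a).comp ρ) - lin ρ J a : Z →L[𝕜] Z) := by
  refine h.cp_fix (s := s) (fun z => ?_) fun z => ?_
  · simp only [sub_apply, ContinuousLinearMap.comp_apply, map_sub, h.P_J s s _ le_rfl]
    congr 1
    simp only [lin, Finsupp.linearCombination_apply, Finsupp.sum, _root_.sum_apply, map_sum,
      smul_apply, map_smul]
    exact Finset.sum_congr rfl fun ij hij => congrArg _ (h.P_J _ _ _ (hs ij hij))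
  · simp only [sub_apply, ContinuousLinearMap.comp_apply, map_sub, h.ρ_lin]
    rw [sub_eq_zero]
    refine lp.ext (funext fun k => ?_)
    rw [h.ρ_J]
    split_ifs with hk
    · rfl
    · rw [amp_apply]
      exact (Finset.sum_eq_zero fun ij hij => if_neg (by have := hs ij hij; omega)).symm

theorem ZX_null (U : Z →L[𝕜] X) {C : ℝ} {x : ℕ → Z} (hx : SZ.WRIS C x) :
    Tendsto (fun k => U (x k)) atTop (𝓝 0) := by
  refine tendsto_zero_of_eventually (K := 2) (by norm_num) fun δ hδ => ?_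
  obtain ⟨t, ht⟩ := hx.cross h.ZX U hδ
  refine (ht.and (eventually_norm_le (hx.compact_null (cp_right (h.cX t) U)) hδ)).mono
    fun k hk => ?_
  have := norm_add_le_of_le hk.1 hk.2
  rw [ContinuousLinearMap.comp_apply, sub_add_cancel] at this
  linarith

theorem Z_null (T : Z →L[𝕜] Z) (t : ℕ) (C : ℝ) (x : ℕ → Z) (hx : SZ.WRIS C x) :
    Tendsto (fun k => SZ.P t (T (x k))) atTop (𝓝 0) := by
  have h1 := hx.compact_null (cp_right (h.P_decomp t) T)
  have h2 := tendsto_finsetSum (range t) fun i _ =>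
    ((emb J i).continuous.tendsto 0).comp (h.ZX_null ((prj ρ i).comp T) hx)
  simpa [_root_.sum_apply] using h1.add h2

theorem XZ_approx (U : X →L[𝕜] Z) : Tendsto (fun k => (U - (SZ.P k).comp U) -
    (U - (SZ.P k).comp U).comp (SX.P k)) atTop (𝓝 0) := by
  refine Sys.horiz _ (M := 3 * ‖U‖) (fun k => ContinuousLinearMap.opNorm_le_bound _
    (by positivity) fun x => ?_) fun C x hx => ?_
  · have := Sys.norm_sub_P (S := SZ) k (U x)
    have h2 := U.le_opNorm x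
    change ‖U x - SZ.P k (U x)‖ ≤ _
    linarith
  · refine tendsto_zero_of_eventually (K := 3) (by norm_num) fun δ hδ => ?_
    obtain ⟨t, ht⟩ := hx.cross h.XZ U hδ
    refine (ht.and (eventually_ge_atTop t)).mono fun k hk => ?_
    have := Sys.norm_sub_P (S := SZ) k (U (x k) - SZ.P t (U (x k)))
    rw [map_sub, SZ.P_P, min_eq_right hk.2, sub_sub_sub_cancel_right] at this
    change ‖U (x k) - SZ.P k (U (x k))‖ ≤ _
    linarith [hk.1]

theorem dens [CompleteSpace X] (N : Submodule 𝕜 (Z →L[𝕜] Z)) (hN : IsClosed (N : Set (Z →L[𝕜] Z)))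
    (hK : ∀ K : Z →L[𝕜] Z, IsCompactOperator K → K ∈ N)
    (hop : ∀ i j, (emb J i).comp (prj ρ j) ∈ N) (T : Z →L[𝕜] Z) : ∃ l : 𝕜, T - l • 1 ∈ N := by
  have ha : ∀ (V : X →L[𝕜] X) i j, (emb J i).comp (V.comp (prj ρ j)) ∈ N := by
    intro V i j
    obtain ⟨l, hl⟩ := SX.scalar_compact h.cX V
    refine mem_of_ext (N.add_mem (hK _ (cp_left (cp_right hl (prj ρ j)) (emb J i)))
      (N.smul_mem l (hop i j))) fun z => ?_
    simp
  have hb : ∀ (U : X →L[𝕜] Z) j, U.comp (prj ρ j) ∈ N := by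
    intro U j
    have h1 := ((ContinuousLinearMap.compL 𝕜 Z X Z).flip (prj ρ j)).continuous.tendsto 0
      |>.comp (h.XZ_approx U)
    rw [map_zero] at h1
    have h2 := (tendsto_const_nhds (x := U.comp (prj ρ j))).sub h1
    rw [sub_zero] at h2
    refine hN.mem_of_tendsto h2 (Eventually.of_forall fun k => ?_)
    refine mem_of_ext (N.add_mem (N.add_mem (hK _ (cp_right (h.P_decomp k) (U.comp (prj ρ j))))
      (N.sum_mem fun i (_ : i ∈ range k) => ha ((prj ρ i).comp U) i j))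
      (hK _ (cp_right (cp_left (h.cX k) (U - (SZ.P k).comp U)) (prj ρ j)))) fun z => ?_
    simp [_root_.sum_apply]
    abel
  obtain ⟨l, hl⟩ := Sys.scalar_plus T (h.Z_null T)
  refine ⟨l, hN.mem_of_tendsto (tendsto_of_sub hl) (Eventually.of_forall fun k => ?_)⟩
  refine mem_of_ext (N.add_mem (hK _ (cp_left (h.P_decomp k) (T - l • 1)))
    (N.sum_mem fun j (_ : j ∈ range k) => hb ((T - l • 1).comp (emb J j)) j)) fun z => ?_
  simp only [ContinuousLinearMap.comp_apply, add_apply, _root_.sum_apply, ← map_sum, ← map_add]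
  simp [_root_.sum_apply]

theorem norm_emb (i : ℕ) (x : X) : ‖emb J i x‖ ≤ 2 * ‖x‖ := by
  refine (h.J_norm _ _).trans (le_of_eq ?_)
  exact congrArg _ (lp.norm_single (E := fun _ : ℕ => X) (zero_lt_one.trans_le Fact.out) i x)

theorem lower_scalar (l : 𝕜) (a : ℕ × ℕ →₀ 𝕜) {K : Z →L[𝕜] Z} (hK : IsCompactOperator K) :
    ‖l‖ ≤ 4 * ‖l • 1 + lin ρ J a + K‖ := by
  obtain ⟨n, hn⟩ : ∃ n, ∀ ij ∈ a.support, ij.1 < n :=
    ⟨a.support.sup Prod.fst + 1, fun ij hij => Nat.lt_succ_of_le (Finset.le_sup hij)⟩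
  refine le_of_forall_pos_le_add fun ε hε => ?_
  obtain ⟨s, hs⟩ :=
    (SX.small_far (cp_left (cp_right hK (emb J n)) (prj ρ n)) (half_pos hε)).exists
  obtain ⟨u, f, u1, f1, f2, u2⟩ := SX.far_infty s 1 (fun _ _ => 1) (by simp)
  have e0 : prj ρ n (lin ρ J a (emb J n (u 0))) = 0 := by
    change ρ (lin ρ J a _) n = 0
    rw [h.ρ_lin, amp_apply]
    exact Finset.sum_eq_zero fun ij hij => if_neg (hn ij hij).ne
  have e1 : l • u 0 = prj ρ n ((l • 1 + lin ρ J a + K) (emb J n (u 0))) -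
      prj ρ n (K (emb J n (u 0))) := by
    simp [e0, h.prj_emb]
  have e2 : ‖l‖ ≤ ‖l • u 0‖ := by
    have := f1 0 (l • u 0)
    rwa [map_smul, f2 0 one_pos, smul_eq_mul, mul_one] at this
  have e3 : ‖prj ρ n ((l • 1 + lin ρ J a + K) (emb J n (u 0)))‖ ≤
      ‖l • 1 + lin ρ J a + K‖ * 4 :=
    ((lp.norm_apply_le_norm q_ne_zero _ n).trans (h.ρ_norm _)).trans
      ((ContinuousLinearMap.le_opNorm _ _).trans (mul_le_mul_of_nonneg_left
        (by linarith [h.norm_emb n (u 0), u1 0]) (norm_nonneg _)))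
  have e4 : ‖prj ρ n (K (emb J n (u 0)))‖ ≤ ε / 2 * 2 :=
    (hs _ (u2 0)).trans (mul_le_mul_of_nonneg_left (u1 0) (half_pos hε).le)
  have e5 := norm_sub_le_of_le e3 e4
  rw [← e1] at e5
  linarith

theorem lower_matrix (a : ℕ × ℕ →₀ 𝕜) {K : Z →L[𝕜] Z} (hK : IsCompactOperator K) :
    uNorm 𝕜 p a ≤ 4 * ‖lin ρ J a + K‖ := by
  obtain ⟨n, hn⟩ : ∃ n, ∀ ij ∈ a.support, ij.1 < n ∧ ij.2 < n :=
    ⟨a.support.sup (fun ij => max ij.1 ij.2) + 1, fun ij hij => by
      have := Finset.le_sup (f := fun ij : ℕ × ℕ => max ij.1 ij.2) hij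
      omega⟩
  refine le_of_forall_pos_le_add fun ε hε => ?_
  have hε' : 0 < ε / (2 * (n + 1)) := by positivity
  obtain ⟨s, hs⟩ := ((Finset.eventually_all (range n)).2 fun j _ =>
    SX.small_far (cp_right hK ((J n).comp (sgl 𝕜 X p j))) hε').exists
  choose ph ph1 ph2 using fun c : 𝕜 => RCLike.exists_norm_eq_mul_self c
  obtain ⟨u, f, u1, f1, f2, u2⟩ := SX.far_infty s n (fun i j => ph (a (i, j)))
    fun _ _ => (ph1 _).le
  refine ContinuousLinearMap.opNorm_le_bound (absOp 𝕜 p a) (by positivity) fun t => ?_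
  obtain ⟨v, v1, v2⟩ := exists_smul_vec t u zero_le_two u1
  set z := J n (trunc 𝕜 X p (range n) v) with hz
  have z1 : ‖z‖ ≤ 4 * ‖t‖ := by
    linarith [h.J_norm n (trunc 𝕜 X p (range n) v), norm_trunc_le (𝕜 := 𝕜) (range n) v]
  have e1 : ‖absOp 𝕜 p a t‖ ≤ ‖amp 𝕜 X p a (ρ z)‖ := by
    refine norm_abs_le a f f1 _ t fun ij hij => ?_
    rw [hz, h.ρ_J, if_pos (hn ij hij).2, trunc_apply, if_pos (Finset.mem_range.2 (hn ij hij).2),
      v1, map_smul, f2 _ (hn ij hij).1, ph2, smul_eq_mul]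
    ring
  have e2 : ‖K z‖ ≤ ε * ‖t‖ := by
    rw [hz, trunc, _root_.sum_apply, map_sum, map_sum]
    have h1 : ∀ j ∈ range n, ‖K (J n (((sgl 𝕜 X p j).comp (evl 𝕜 X p j)) v))‖ ≤
        ε / (2 * (n + 1)) * (‖t‖ * 2) := fun j hj => by
      refine (hs j hj (v j) (by rw [v1, map_smul, u2, smul_zero])).trans
        (mul_le_mul_of_nonneg_left ?_ hε'.le)
      rw [v1, norm_smul]
      exact mul_le_mul (lp.norm_apply_le_norm q_ne_zero t j) (u1 j) (norm_nonneg _)
        (norm_nonneg _)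
    refine ((norm_sum_le _ _).trans (Finset.sum_le_card_nsmul _ _ _ h1)).trans ?_
    rw [Finset.card_range, nsmul_eq_mul]
    have h2 : (n : ℝ) * (ε / (2 * (n + 1)) * (‖t‖ * 2)) = ε * ‖t‖ * (n / (n + 1)) := by
      field_simp
    rw [h2]
    refine mul_le_of_le_one_right (by positivity) ?_
    rw [div_le_one (by positivity)]
    linarith
  have e3 : ‖(lin ρ J a + K) z‖ ≤ ‖lin ρ J a + K‖ * (4 * ‖t‖) :=
    (ContinuousLinearMap.le_opNorm _ _).trans (mul_le_mul_of_nonneg_left z1 (norm_nonneg _))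
  have e4 := norm_sub_le_of_le e3 e2
  rw [add_apply, add_sub_cancel_right] at e4
  have e5 := h.ρ_norm (lin ρ J a z)
  rw [h.ρ_lin] at e5
  linarith

end Setup

end Pool.Agent.P.MP_5298e3_an
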