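import Mathlib

/-!
Parameters of the Argyros-Haydon type construction.
-/

open Filter Topology

namespace Pool.Agent.P.MP_5298e3_an

/-- Fast growing parameter sequences; `g N` bounds the outer norm of a sum of `N` blocks. -/
structure Par where
  m : ℕ → ℝ
  n : ℕ → ℕ
  g : ℕ → ℝ
  four_le : ∀ j, 4 ≤ m j
  mono : Monotone m
  self_le : ∀ j : ℕ, (j : ℝ) ≤ m j
  sq_m : ∀ j, m j ^ 2 ≤ n j
  sq_n : ∀ j, (n j : ℝ) ^ 2 ≤ m (j + 1)
  one_le_g : ∀ j, 1 ≤ g (n j)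
  growth : ∀ j, ∃ ν t : ℕ, 1 ≤ ν ∧ (∀ h < j, n h ≤ ν) ∧ m j ^ 2 ≤ 2 ^ t ∧
    (3 * ν : ℝ) ^ (t + 1) * g (n j) * m j ^ 2 ≤ n j

namespace Par

variable (π : Par)

theorem m_pos (j : ℕ) : 0 < π.m j := by linarith [π.four_le j]

theorem n_pos (j : ℕ) : 0 < π.n j := by
  have h := π.sq_m j
  have h4 := π.four_le j
  have : (0 : ℝ) < π.n j := by nlinarith
  exact_mod_cast this

theorem n_pos' (j : ℕ) : (0 : ℝ) < π.n j := by exact_mod_cast π.n_pos j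

theorem sq_n_le {j h : ℕ} (hj : j < h) : (π.n j : ℝ) ^ 2 ≤ π.m h :=
  (π.sq_n j).trans (π.mono hj)

theorem sq_m_le {j h : ℕ} (hj : j < h) : π.m j ^ 2 ≤ π.m h := by
  have h1 := π.sq_m j
  have h2 := π.sq_n_le hj
  have h3 : (1 : ℝ) ≤ π.n j := by exact_mod_cast π.n_pos j
  nlinarith

end Par

theorem exists_next (r : ℝ) (hr0 : 0 ≤ r) (hr1 : r < 1) (B : ℝ) (M : ℕ) :
    ∃ N : ℕ, M ≤ N ∧ B * (N : ℝ) ^ r ≤ N := by
  have h1 : Tendsto (fun N : ℕ => (N : ℝ) ^ (1 - r)) atTop atTop :=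
    (tendsto_rpow_atTop (by linarith)).comp tendsto_natCast_atTop_atTop
  obtain ⟨N, hN1, hN2, hN3⟩ := ((h1.eventually_ge_atTop B).and
    ((eventually_ge_atTop M).and (eventually_ge_atTop 1))).exists
  refine ⟨N, hN2, ?_⟩
  have hN : (0 : ℝ) < N := by exact_mod_cast hN3
  calc B * (N : ℝ) ^ r ≤ (N : ℝ) ^ (1 - r) * (N : ℝ) ^ r :=
        mul_le_mul_of_nonneg_right hN1 (by positivity)
    _ = N := by rw [← Real.rpow_add hN]; simp

theorem exists_par (r : ℝ) (hr0 : 0 ≤ r) (hr1 : r < 1) :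
    ∃ π : Par, ∀ N, π.g N = (N : ℝ) ^ r := by
  choose nx h1 h2 using exists_next r hr0 hr1
  let F : ℕ → ℕ := fun ν => nx ((3 * ν : ℝ) ^ (ν ^ 4 + 1) * ((ν : ℝ) ^ 2) ^ 2) (ν ^ 4)
  let u : ℕ → ℕ := fun j => F^[j] 2
  have hu : ∀ j, u (j + 1) = F (u j) := fun j => Function.iterate_succ_apply' F j 2
  have hF : ∀ ν, ν ^ 4 ≤ F ν := fun ν => h1 _ _
  have h2u : ∀ j, j + 2 ≤ u j := by
    intro j
    induction j with
    | zero => exact le_rfl
    | succ j ih =>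
      rw [hu]
      refine le_trans ?_ (hF _)
      have : (j + 2) ^ 4 ≤ u j ^ 4 := Nat.pow_le_pow_left ih 4
      nlinarith [Nat.zero_le (j ^ 4), Nat.zero_le (j ^ 3), Nat.zero_le (j ^ 2)]
  have hmono : Monotone u := monotone_nat_of_le_succ fun j => by
    rw [hu]
    exact (Nat.le_self_pow (by norm_num) _).trans (hF _)
  refine ⟨⟨fun j => (u j : ℝ) ^ 2, fun j => u (j + 1), fun N => (N : ℝ) ^ r, ?_, ?_, ?_, ?_, ?_,
    ?_, ?_⟩, fun _ => rfl⟩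
  · intro j
    have : (2 : ℝ) ≤ u j := by exact_mod_cast le_trans (by omega) (h2u j)
    nlinarith
  · intro a b hab
    have : (u a : ℝ) ≤ u b := by exact_mod_cast hmono hab
    have h0 : (0 : ℝ) ≤ u a := Nat.cast_nonneg _
    simp only
    nlinarith
  · intro j
    have : (j : ℝ) + 2 ≤ u j := by exact_mod_cast h2u j
    have h0 : (0 : ℝ) ≤ j := Nat.cast_nonneg _
    nlinarith
  · intro j
    have : ((u j ^ 4 : ℕ) : ℝ) ≤ u (j + 1) := by rw [hu]; exact_mod_cast hF _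
    push_cast at this
    nlinarith
  · intro j
    exact le_rfl
  · intro j
    apply Real.one_le_rpow _ hr0
    exact_mod_cast le_trans (by omega) (h2u (j + 1))
  · intro j
    refine ⟨u j, u j ^ 4, le_trans (by omega) (h2u j), fun h hh => hmono hh, ?_, ?_⟩
    · have : ((u j ^ 4 : ℕ) : ℝ) ≤ ((2 ^ (u j ^ 4) : ℕ) : ℝ) := by
        exact_mod_cast (Nat.lt_two_pow_self).le
      push_cast at this
      nlinarith
    · have := h2 ((3 * u j : ℝ) ^ (u j ^ 4 + 1) * ((u j : ℝ) ^ 2) ^ 2) (u j ^ 4)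
      simp only [hu]
      calc _ = (3 * u j : ℝ) ^ (u j ^ 4 + 1) * ((u j : ℝ) ^ 2) ^ 2 * (F (u j) : ℝ) ^ r := by ring
        _ ≤ _ := this

end Pool.Agent.P.MP_5298e3_an
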