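import Pool.Agent.P.MP_5298e3_an.Dep

/-!
From rapidly increasing sequences to all block sequences; every operator is a scalar plus a
horizontally compact operator.
-/

open Filter Topology Finset

namespace Pool.Agent.P.MP_5298e3_an

namespace Sys

variable {𝕜 : Type} [RCLike 𝕜] {π : Par} {Z : Type} [NormedAddCommGroup Z] [NormedSpace 𝕜 Z]
  {S : Sys 𝕜 π Z} {Y : Type} [NormedAddCommGroup Y] [NormedSpace 𝕜 Y]

theorem WRIS.compact_null {C : ℝ} {x : ℕ → Z} (hx : S.WRIS C x) {K : Z →L[𝕜] Y}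
    (hK : IsCompactOperator K) : Tendsto (fun k => K (x k)) atTop (𝓝 0) := by
  obtain ⟨A, hA, hsub⟩ := IsCompactOperator.image_closedBall_subset_compact
    (f := (K : Z →ₗ[𝕜] Y)) hK C
  refine tendsto_of_subseq_tendsto fun ns hns => ?_
  obtain ⟨a, -, ms, hms, hlim⟩ := hA.tendsto_subseq (x := fun n => K (x (ns n))) fun n =>
    hsub ⟨x (ns n), mem_closedBall_zero_iff.2 (hx.norm _), rfl⟩
  have ha : a = 0 := by
    refine SeparatingDual.eq_zero_of_forall_dual_eq_zero (R := 𝕜) fun φ => ?_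
    have h1 := (φ.continuous.tendsto a).comp hlim
    have h2 := ((hx.weakly_null (φ.comp K)).comp hns).comp hms.tendsto_atTop
    exact tendsto_nhds_unique h1 h2
  exact ⟨ms, ha ▸ hlim⟩

theorem wris_of_bounded_weight {y : ℕ → Z} {c : ℕ → ℕ} {D : ℝ} (hD : 0 < D) (N : ℕ)
    (h1 : ∀ k, ‖y k‖ ≤ D) (h2 : ∀ k, S.P (c k) (y k) = y k) (h3 : ∀ k, S.P k (y k) = 0)
    (h4 : ∀ k γ, N < S.w γ → S.rank γ < c k → S.e γ (y k) = 0) :
    S.WRIS (D * π.m N) y := by
  have hm := π.four_le N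
  refine ⟨mul_pos hD (π.m_pos N), fun k => (h1 k).trans (by nlinarith), fun k => ⟨_, h2 k⟩,
    fun s => (eventually_ge_atTop s).mono fun k hk => lo_mono (h3 k) hk,
    fun h => Eventually.of_forall fun k γ hγ => ?_⟩
  by_cases hh : N < h
  · refine (local_weight (h2 k) (fun γ' a b => h4 k γ' (a ▸ hh) b) hγ).trans
      (div_le_div_of_nonneg_right ?_ (π.m_pos h).le)
    nlinarith [h1 k]
  · rw [le_div_iff₀ (π.m_pos h)]
    exact mul_le_mul ((S.e_norm _ _).trans (h1 k)) (π.mono (not_lt.1 hh)) (π.m_pos h).le hD.le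

theorem block_null (T : ℕ → Z →L[𝕜] Y)
    (h : ∀ C x, S.WRIS C x → Tendsto (fun k => T k (x k)) atTop (𝓝 0))
    {x : ℕ → Z} {c : ℕ → ℕ} (h1 : ∀ k, ‖x k‖ ≤ 4) (h2 : ∀ k, S.P (c k) (x k) = x k)
    (h3 : ∀ k, S.P k (x k) = 0) : Tendsto (fun k => T k (x k)) atTop (𝓝 0) := by
  classical
  have hy : ∀ N k, ∃ y, S.P (c k) y = y ∧ ‖y‖ ≤ 8 ∧ S.P k y = 0 ∧
      ∀ γ, S.rank γ < c k → S.e γ y = if S.w γ ≤ N then S.e γ (x k) else 0 := by
    intro N k
    obtain ⟨y, a1, a2, a3, a4⟩ := S.prescribe (c k)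
      (fun γ => if S.w γ ≤ N then S.e γ (x k) else 0) 4 (by norm_num) fun γ => by
        split_ifs
        · exact (S.e_norm _ _).trans (h1 k)
        · simp
    refine ⟨y, a1, by linarith, a4 k fun γ hγ => ?_, a3⟩
    rw [e_zero (h3 k) hγ, ite_self]
  choose y y1 y2 y3 y4 using hy
  have hyN : ∀ N, Tendsto (fun k => T k (y N k)) atTop (𝓝 0) := fun N =>
    h _ _ (wris_of_bounded_weight (by norm_num) N (y2 N) (y1 N) (y3 N) fun k γ a b => by
      rw [y4 N k γ b, if_neg (by omega)])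
  refine tendsto_zero_of_eventually (K := 2) (by norm_num) fun δ hδ => ?_
  let N : ℕ → ℕ := fun k => Nat.findGreatest (fun N => ‖T k (y N k)‖ ≤ δ) k
  have hN1 : ∀ M, ∀ᶠ k in atTop, M ≤ N k := fun M =>
    ((eventually_norm_le (hyN M) hδ).and (eventually_ge_atTop M)).mono fun k hk =>
      Nat.le_findGreatest hk.2 hk.1
  have hN2 : ∀ᶠ k in atTop, ‖T k (y (N k) k)‖ ≤ δ :=
    (eventually_norm_le (hyN 0) hδ).mono fun k hk =>
      Nat.findGreatest_spec (P := fun N => ‖T k (y N k)‖ ≤ δ) (Nat.zero_le k) hk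
  have hn : ∀ k, ‖x k - y (N k) k‖ ≤ 12 := fun k =>
    (norm_sub_le_of_le (h1 k) (y2 _ k)).trans (by norm_num)
  have hfix : ∀ k, S.P (c k) (x k - y (N k) k) = x k - y (N k) k := fun k => by
    rw [map_sub, h2, y1]
  have hz : S.WRIS 36 fun k => x k - y (N k) k := by
    refine ⟨by norm_num, fun k => (hn k).trans (by norm_num), fun k => ⟨_, hfix k⟩,
      fun s => (eventually_ge_atTop s).mono fun k hk => lo_mono (a := k) ?_ hk,
      fun j => (hN1 j).mono fun k hk γ hγ => ?_⟩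
    · rw [map_sub, h3, y3, sub_zero]
    · refine (local_weight (hfix k) (fun γ' a b => ?_) hγ).trans
        (div_le_div_of_nonneg_right (by linarith [hn k]) (π.m_pos j).le)
      rw [map_sub, y4 _ k γ' b, if_pos (a ▸ hk), sub_self]
  refine (hN2.and (eventually_norm_le (h _ _ hz) hδ)).mono fun k hk => ?_
  have := norm_add_le_of_le hk.1 hk.2
  rw [← map_add, add_sub_cancel] at this
  linarith

/-- Uniformly bounded operators that kill rapidly increasing sequences are small far out. -/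
theorem horiz (T : ℕ → Z →L[𝕜] Y) {M : ℝ} (hM : ∀ k, ‖T k‖ ≤ M)
    (h : ∀ C x, S.WRIS C x → Tendsto (fun k => T k (x k)) atTop (𝓝 0)) :
    Tendsto (fun k => T k - (T k).comp (S.P k)) atTop (𝓝 0) := by
  have hv : ∀ k, ∃ v : Z, ‖v‖ ≤ 1 ∧
      ‖T k - (T k).comp (S.P k)‖ ≤ 2 * ‖(T k - (T k).comp (S.P k)) v‖ := by
    intro k
    rcases (norm_nonneg (T k - (T k).comp (S.P k))).eq_or_lt with h0 | h0
    · exact ⟨0, by simp, by rw [← h0]; positivity⟩
    · obtain ⟨v, h1, h2⟩ := (T k - (T k).comp (S.P k)).exists_lt_apply_of_lt_opNorm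
        (half_lt_self h0)
      exact ⟨v, h1.le, by linarith⟩
  choose v v1 v2 using hv
  choose c c1 c2 using fun k : ℕ =>
    exists_P_close (S := S) (v k) (ε := 1 / ((k : ℝ) + 1)) (by positivity) k
  have hb := block_null T h (x := fun k => S.P (c k) (v k) - S.P k (v k)) (c := c)
    (fun k => (norm_sub_le _ _).trans
      (by linarith [S.P_norm (c k) (v k), S.P_norm k (v k), v1 k]))
    (fun k => by rw [map_sub, S.P_P, S.P_P, min_self, min_eq_right (c1 k)])
    (fun k => by rw [map_sub, S.P_P, S.P_P, min_self, min_eq_left (c1 k), sub_self])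
  have hM0 : 0 ≤ M := (norm_nonneg _).trans (hM 0)
  refine tendsto_zero_of_eventually (K := 2 * (M + 1)) (by positivity) fun δ hδ => ?_
  have hs : ∀ᶠ k : ℕ in atTop, 1 / ((k : ℝ) + 1) ≤ δ :=
    (tendsto_one_div_add_atTop_nhds_zero_nat (𝕜 := ℝ)).eventually_le_const hδ
  refine (hs.and (eventually_norm_le hb hδ)).mono fun k hk => (v2 k).trans ?_
  have e1 : (T k - (T k).comp (S.P k)) (v k) =
      T k (S.P (c k) (v k) - S.P k (v k)) - T k (S.P (c k) (v k) - v k) := by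
    simp only [sub_apply, ContinuousLinearMap.comp_apply, map_sub]
    abel
  have e2 : ‖T k (S.P (c k) (v k) - v k)‖ ≤ M * δ :=
    ((T k).le_opNorm _).trans (mul_le_mul (hM k) ((c2 k).trans hk.1) (norm_nonneg _) hM0)
  have e3 := norm_sub_le_of_le hk.2 e2
  rw [e1]
  linarith

theorem horiz_compact {K : Z →L[𝕜] Y} (hK : IsCompactOperator K) :
    Tendsto (fun k => K - K.comp (S.P k)) atTop (𝓝 0) :=
  horiz (fun _ => K) (fun _ => le_rfl) fun _ _ hx => hx.compact_null hK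

theorem exists_far (r : ℕ) : ∃ γ, r ≤ S.rank γ ∧ S.w γ = S.σ none 0 := by
  obtain ⟨γ, -, h2, h3, -⟩ := S.rich_reg (S.σ none 0) none (S.σ_reg _ _)
    (fun _ h => by cases h) (π.n_pos _) 0 (by simp) r 0 0 (map_zero _) (map_zero _) 1 one_pos
  exact ⟨γ, h3, h2⟩

theorem exists_normalized : ∃ C u, S.WRIS C u ∧ ∀ k, 1 ≤ ‖u k‖ := by
  classical
  choose γ γ1 γ2 using exists_far (S := S)
  choose u u1 u2 u3 u4 using fun k => S.prescribe (S.rank (γ k) + 1)
    (fun η => if η = γ k then 1 else 0) 1 (by norm_num) fun η => by split_ifs <;> simp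
  refine ⟨_, u, wris_of_bounded_weight (D := 2) (by norm_num) (S.σ none 0)
    (fun k => by linarith [u2 k]) u1 (fun k => u4 k k fun η hη => if_neg ?_)
    (fun k η a b => ?_), fun k => ?_⟩
  · rintro rfl
    exact absurd (γ1 k) (not_le.2 hη)
  · rw [u3 k η b, if_neg]
    rintro rfl
    exact absurd (γ2 k) a.ne'
  · have := S.e_norm (γ k) (u k)
    rwa [u3 k _ (Nat.lt_succ_self _), if_pos rfl, norm_one] at this

/-- Every operator whose initial parts kill rapidly increasing sequences is a scalar plus a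
horizontally compact operator. -/
theorem scalar_plus (T : Z →L[𝕜] Z)
    (hT : ∀ t C x, S.WRIS C x → Tendsto (fun k => S.P t (T (x k))) atTop (𝓝 0)) :
    ∃ l : 𝕜, Tendsto (fun k => (T - l • 1) - (T - l • 1).comp (S.P k)) atTop (𝓝 0) := by
  have hap : ∀ C x, S.WRIS C x → ∀ δ > 0, ∀ᶠ k in atTop, ∃ c : 𝕜, ‖T (x k) - c • x k‖ ≤ δ := by
    intro C x hx δ hδ
    obtain ⟨t, ht⟩ := hx.almost_scalar T (half_pos hδ)
    refine (ht.and (eventually_norm_le (hT t C x hx) (half_pos hδ))).mono ?_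
    rintro k ⟨⟨c, h1⟩, h2⟩
    refine ⟨c, ?_⟩
    have := norm_add_le_of_le h1 h2
    rwa [add_halves, sub_right_comm, sub_add_cancel] at this
  obtain ⟨C, u, hu, hu1⟩ := exists_normalized (S := S)
  have hch : ∀ l : ℕ, ∃ k, ∃ c : 𝕜, l ≤ k ∧ ‖T (u k) - c • u k‖ ≤ 1 / ((l : ℝ) + 1) := by
    intro l
    obtain ⟨k, ⟨c, h1⟩, h2⟩ :=
      ((hap C u hu (1 / ((l : ℝ) + 1)) (by positivity)).and (eventually_ge_atTop l)).exists
    exact ⟨k, c, h2, h1⟩
  choose i c i1 i2 using hch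
  have hcb : ∀ l, c l ∈ Metric.closedBall (0 : 𝕜) (‖T‖ * C + 1) := by
    intro l
    rw [mem_closedBall_zero_iff]
    have e1 : ‖T (u (i l))‖ ≤ ‖T‖ * C :=
      (T.le_opNorm _).trans (mul_le_mul_of_nonneg_left (hu.norm _) (norm_nonneg _))
    have e2 : 1 / ((l : ℝ) + 1) ≤ 1 := by
      rw [div_le_one (by positivity)]
      linarith [(Nat.cast_nonneg l : (0 : ℝ) ≤ l)]
    have e3 := norm_sub_le_of_le e1 ((i2 l).trans e2)
    rw [sub_sub_cancel, norm_smul] at e3
    exact (le_mul_of_one_le_right (norm_nonneg _) (hu1 _)).trans e3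
  obtain ⟨l, -, φ, hφ, hlim⟩ := tendsto_subseq_of_bounded Metric.isBounded_closedBall hcb
  have hi : Tendsto (fun k => i (φ k)) atTop atTop :=
    tendsto_atTop_mono (fun k => i1 (φ k)) hφ.tendsto_atTop
  set u' : ℕ → Z := fun k => u (i (φ k)) with hu'
  have hw : S.WRIS C u' := hu.comp hi
  set T0 : Z →L[𝕜] Z := T - l • 1 with hT0
  have hT0a : ∀ z, T0 z = T z - l • z := fun z => rfl
  have hu0 : Tendsto (fun k => T0 (u' k)) atTop (𝓝 0) := by
    have hC := hu.pos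
    refine tendsto_zero_of_eventually (K := 1 + C) (by positivity) fun δ hδ => ?_
    have a1 : ∀ᶠ k : ℕ in atTop, 1 / ((φ k : ℝ) + 1) ≤ δ := hφ.tendsto_atTop.eventually
      ((tendsto_one_div_add_atTop_nhds_zero_nat (𝕜 := ℝ)).eventually_le_const hδ)
    refine (a1.and (Metric.tendsto_nhds.1 hlim δ hδ)).mono fun k hk => ?_
    have e1 : T0 (u' k) = (T (u' k) - c (φ k) • u' k) + (c (φ k) - l) • u' k := by
      rw [hT0a, sub_smul]
      abel
    have e2 : ‖(c (φ k) - l) • u' k‖ ≤ δ * C := by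
      rw [norm_smul, ← dist_eq_norm]
      exact mul_le_mul hk.2.le (hw.norm k) (norm_nonneg _) hδ.le
    rw [e1]
    refine (norm_add_le_of_le ((i2 (φ k)).trans hk.1) e2).trans (le_of_eq ?_)
    ring
  have hap0 : ∀ C x, S.WRIS C x → ∀ δ > 0, ∀ᶠ k in atTop, ∃ c : 𝕜, ‖T0 (x k) - c • x k‖ ≤ δ := by
    intro C x hx δ hδ
    refine (hap C x hx δ hδ).mono ?_
    rintro k ⟨c, hc⟩
    refine ⟨c - l, ?_⟩
    rw [hT0a, sub_smul]
    convert hc using 2
    abel
  refine ⟨l, horiz (fun _ => T0) (fun _ => le_rfl) fun C' y hy => ?_⟩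
  choose b hb using hy.fin
  choose n n1 n2 using fun k => ((hw.lo (b k)).and (eventually_ge_atTop k)).exists
  have hn : Tendsto n atTop atTop := tendsto_atTop_mono n2 tendsto_id
  have hsum := hy.add (hw.comp hn)
  have hC := hsum.pos
  refine tendsto_zero_of_eventually (K := 2 + 9 * (C' + C)) (by positivity) fun δ hδ => ?_
  refine ((hap0 _ _ hsum δ hδ).and ((hap0 _ _ hy δ hδ).and
    (eventually_norm_le (hu0.comp hn) hδ))).mono ?_
  rintro k ⟨⟨ν, h1⟩, ⟨μ, h2⟩, h3⟩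
  change ‖T0 (u' (n k))‖ ≤ δ at h3
  have e1 : (μ - ν) • y k - ν • u' (n k) =
      (T0 (y k + u' (n k)) - ν • (y k + u' (n k))) - (T0 (y k) - μ • y k) - T0 (u' (n k)) := by
    rw [map_add, smul_add, sub_smul]
    abel
  have e2 := norm_sub_le_of_le (norm_sub_le_of_le h1 h2) h3
  rw [← e1] at e2
  have e3 := norm_sub_P (S := S) (b k) ((μ - ν) • y k - ν • u' (n k))
  rw [map_sub, map_smul, map_smul, hb, n1, smul_zero, sub_zero, sub_sub_cancel_left, norm_neg,
    norm_smul] at e3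
  have e4 : ‖ν‖ ≤ 9 * δ := by
    have := le_mul_of_one_le_right (norm_nonneg ν) (hu1 (i (φ (n k))))
    linarith
  have e5 : ‖ν • (y k + u' (n k))‖ ≤ 9 * δ * (C' + C) := by
    rw [norm_smul]
    exact mul_le_mul e4 (hsum.norm k) (norm_nonneg _) (by positivity)
  have e6 := norm_sub_le_of_le (norm_add_le_of_le h1 e5) h3
  rw [sub_add_cancel, map_add, add_sub_cancel_right] at e6
  linarith

end Sys

end Pool.Agent.P.MP_5298e3_an
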