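import Pool.Agent.P.MP_5298e3_an.Par

/-!
An abstract Bourgain-Delbaen system of Argyros-Haydon type on a normed space `Z`, and its first
properties.
-/

open Filter Topology Finset

namespace Pool.Agent.P.MP_5298e3_an

/-- The first rank above an optional node. -/
def oTop {Γ : Type} (rank : Γ → ℕ) (o : Option Γ) : ℕ := o.elim 0 fun ξ => rank ξ + 1

/-- A Bourgain-Delbaen system with regular and special weights. -/
structure Sys (𝕜 : Type) [RCLike 𝕜] (π : Par) (Z : Type) [NormedAddCommGroup Z]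
    [NormedSpace 𝕜 Z] where
  Γ : Type
  rank : Γ → ℕ
  w : Γ → ℕ
  age : Γ → ℕ
  pred : Γ → Option Γ
  e : Γ → Z →L[𝕜] 𝕜
  b : Γ → Z →L[𝕜] 𝕜
  P : ℕ → Z →L[𝕜] Z
  reg : ℕ → Prop
  spe : ℕ → Prop
  σ : Option Γ → ℕ → ℕ
  P_P : ∀ a c x, P a (P c x) = P (min a c) x
  P_zero : ∀ x, P 0 x = 0
  P_norm : ∀ a x, ‖P a x‖ ≤ 2 * ‖x‖
  P_tendsto : ∀ x, Tendsto (fun a => P a x) atTop (𝓝 x)
  e_norm : ∀ γ x, ‖e γ x‖ ≤ ‖x‖
  b_norm : ∀ γ x, ‖b γ x‖ ≤ ‖x‖
  e_lt : ∀ γ a x, rank γ < a → e γ (P a x) = e γ x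
  e_rec : ∀ γ x, e γ (P (rank γ) x) = (pred γ).elim 0 e x +
    (((π.m (w γ))⁻¹ : ℝ) : 𝕜) * b γ (P (rank γ) x - P (oTop rank (pred γ)) x)
  top_le : ∀ γ, oTop rank (pred γ) ≤ rank γ
  age_eq : ∀ γ, age γ = (pred γ).elim 0 age + 1
  age_le : ∀ γ, age γ ≤ π.n (w γ)
  w_pred : ∀ γ ξ, pred γ = some ξ → w ξ = w γ
  w_le : ∀ γ, w γ ≤ rank γ
  spe_b : ∀ γ, spe (w γ) → ∃ η, b γ = e η ∧ w η = σ (pred γ) (w γ)
  σ_inj : ∀ j o o', σ o j = σ o' j → o = o'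
  σ_reg : ∀ o j, reg (σ o j)
  σ_gt : ∀ o j, j < σ o j
  σ_top : ∀ o j, oTop rank o ≤ σ o j
  spe_unb : ∀ r, ∃ j, r ≤ j ∧ spe j
  rich_reg : ∀ j o, reg j → (∀ ξ, o = some ξ → w ξ = j) → o.elim 0 age < π.n j →
    ∀ (φ : Z →L[𝕜] 𝕜), (∀ x, ‖φ x‖ ≤ ‖x‖) → ∀ (c : ℕ) (x y : Z), P c x = x → P c y = y →
    ∀ ε > 0, ∃ γ, pred γ = o ∧ w γ = j ∧ c ≤ rank γ ∧
      ‖b γ x - φ x / 2‖ ≤ ε ∧ ‖b γ y - φ y / 2‖ ≤ ε
  rich_spe : ∀ j o, spe j → (∀ ξ, o = some ξ → w ξ = j) → o.elim 0 age < π.n j →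
    ∀ η, w η = σ o j → ∀ c, ∃ γ, pred γ = o ∧ w γ = j ∧ c ≤ rank γ ∧ b γ = e η
  prescribe : ∀ (c : ℕ) (f : Γ → 𝕜) (M : ℝ), 0 ≤ M → (∀ γ, ‖f γ‖ ≤ M) →
    ∃ x, P c x = x ∧ ‖x‖ ≤ 2 * M ∧ (∀ γ, rank γ < c → e γ x = f γ) ∧
      ∀ a, (∀ γ, rank γ < a → f γ = 0) → P a x = 0
  norm_block : ∀ (C M : ℝ) (N : ℕ) (s : ℕ → ℕ) (x : ℕ → Z) (J : Finset ℕ), 0 ≤ C →
    J ⊆ range N → (∀ k l, k ≤ l → l ≤ N → s k ≤ s l) →
    (∀ k < N, P (s k) (x k) = 0 ∧ P (s (k + 1)) (x k) = x k ∧ ‖x k‖ ≤ C) →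
    C * π.g N ≤ M → (∀ γ, ‖e γ (∑ k ∈ J, x k)‖ ≤ M) → ‖∑ k ∈ J, x k‖ ≤ M

theorem build {σ : Type*} (Inv : ℕ → σ → Prop) (R : σ → σ → Prop) (N : ℕ) (a0 : σ)
    (h0 : Inv 0 a0) (step : ∀ i < N, ∀ a, Inv i a → ∃ a', R a a' ∧ Inv (i + 1) a') :
    ∃ f : ℕ → σ, f 0 = a0 ∧ (∀ i < N, R (f i) (f (i + 1))) ∧ ∀ i ≤ N, Inv i (f i) := by
  classical
  have hs : ∀ i a, ∃ a', i < N → Inv i a → R a a' ∧ Inv (i + 1) a' := by
    intro i a
    by_cases h : i < N ∧ Inv i a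
    · obtain ⟨a', ha'⟩ := step i h.1 a h.2
      exact ⟨a', fun _ _ => ha'⟩
    · exact ⟨a, fun h1 h2 => (h ⟨h1, h2⟩).elim⟩
  choose nx hnx using hs
  let f : ℕ → σ := fun i => Nat.rec a0 nx i
  have hinv : ∀ i ≤ N, Inv i (f i) := by
    intro i
    induction i with
    | zero => exact fun _ => h0
    | succ i ih => exact fun hi => (hnx i (f i) hi (ih (by omega))).2
  exact ⟨f, rfl, fun i hi => (hnx i (f i) hi (hinv i hi.le)).1, hinv⟩

theorem mono_of_step {s : ℕ → ℕ} {N : ℕ} (h : ∀ i < N, s i ≤ s (i + 1)) :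
    ∀ k l, k ≤ l → l ≤ N → s k ≤ s l := by
  intro k l hkl
  induction l, hkl using Nat.le_induction with
  | base => exact fun _ => le_rfl
  | succ l hl ih => exact fun hN => (ih (by omega)).trans (h l (by omega))

namespace Sys

variable {𝕜 : Type} [RCLike 𝕜] {π : Par} {Z : Type} [NormedAddCommGroup Z] [NormedSpace 𝕜 Z]
  (S : Sys 𝕜 π Z)

/-- The first rank above an optional node. -/
abbrev top (o : Option S.Γ) : ℕ := oTop S.rank o

/-- The coordinate functional of an optional node. -/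
abbrev eo (o : Option S.Γ) : Z →L[𝕜] 𝕜 := o.elim 0 S.e

/-- The age of an optional node. -/
abbrev ag (o : Option S.Γ) : ℕ := o.elim 0 S.age

/-- An optional node has weight index `j`. -/
abbrev Wt (j : ℕ) (o : Option S.Γ) : Prop := ∀ ξ, o = some ξ → S.w ξ = j

@[simp] theorem top_none : S.top none = 0 := rfl
@[simp] theorem top_some (γ : S.Γ) : S.top (some γ) = S.rank γ + 1 := rfl

variable {S}

theorem lo_mono {a a' : ℕ} {x : Z} (h : S.P a x = 0) (ha : a' ≤ a) : S.P a' x = 0 := by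
  have := S.P_P a' a x
  rw [h, map_zero, min_eq_left ha] at this
  exact this.symm

theorem hi_mono {c c' : ℕ} {x : Z} (h : S.P c x = x) (hc : c ≤ c') : S.P c' x = x := by
  have := S.P_P c' c x
  rw [h, min_eq_right hc, h] at this
  exact this

theorem e_zero {a : ℕ} {x : Z} (h : S.P a x = 0) {γ : S.Γ} (hγ : S.rank γ < a) :
    S.e γ x = 0 := by
  rw [← S.e_lt γ a x hγ, h, map_zero]

theorem eo_lt {a : ℕ} (x : Z) {o : Option S.Γ} (ho : S.top o ≤ a) :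
    S.eo o (S.P a x) = S.eo o x := by
  cases o with
  | none => rfl
  | some ξ => exact S.e_lt ξ a x ho

theorem eo_zero {a : ℕ} {x : Z} (h : S.P a x = 0) {o : Option S.Γ} (ho : S.top o ≤ a) :
    S.eo o x = 0 := by
  rw [← eo_lt x ho, h, map_zero]

theorem eo_norm (o : Option S.Γ) (x : Z) : ‖S.eo o x‖ ≤ ‖x‖ := by
  cases o with
  | none => simp
  | some ξ => exact S.e_norm ξ x

theorem e_rec' {c : ℕ} {x : Z} (h : S.P c x = x) {γ : S.Γ} (hγ : c ≤ S.rank γ) :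
    S.e γ x = S.eo (S.pred γ) x +
      (((π.m (S.w γ))⁻¹ : ℝ) : 𝕜) * S.b γ (x - S.P (S.top (S.pred γ)) x) := by
  have := S.e_rec γ x
  rwa [hi_mono h hγ] at this

theorem e_early {c : ℕ} {x : Z} (h : S.P c x = x) {γ : S.Γ} (hγ : c ≤ S.top (S.pred γ)) :
    S.e γ x = S.eo (S.pred γ) x := by
  rw [e_rec' h (hγ.trans (S.top_le γ)), hi_mono h hγ]
  simp

theorem e_mid {a c : ℕ} {x : Z} (h0 : S.P a x = 0) (h : S.P c x = x) {γ : S.Γ}
    (ha : S.top (S.pred γ) ≤ a) (hγ : c ≤ S.rank γ) :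
    S.e γ x = (((π.m (S.w γ))⁻¹ : ℝ) : 𝕜) * S.b γ x := by
  rw [e_rec' h hγ, eo_zero h0 ha, lo_mono h0 ha]
  simp

theorem norm_inv_mul (j : ℕ) (z : 𝕜) : ‖(((π.m j)⁻¹ : ℝ) : 𝕜) * z‖ = ‖z‖ / π.m j := by
  rw [norm_mul, RCLike.norm_ofReal, abs_of_pos (inv_pos.2 (π.m_pos j)), div_eq_inv_mul]

theorem norm_sub_P (a : ℕ) (x : Z) : ‖x - S.P a x‖ ≤ 3 * ‖x‖ := by
  have := norm_sub_le x (S.P a x)
  linarith [S.P_norm a x]

theorem chain_ind {M : Option S.Γ → Prop} (h0 : M none)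
    (h1 : ∀ γ, M (S.pred γ) → M (some γ)) (o : Option S.Γ) : M o := by
  have : ∀ r, ∀ o, S.top o ≤ r → M o := by
    intro r
    induction r with
    | zero =>
      intro o ho
      cases o with
      | none => exact h0
      | some γ => simp at ho
    | succ r ih =>
      intro o ho
      cases o with
      | none => exact h0
      | some γ =>
        refine h1 γ (ih _ ?_)
        have := S.top_le γ
        simp only [top_some] at ho
        exact this.trans (by omega)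
  exact this _ o le_rfl

theorem wt_pred {j : ℕ} {γ : S.Γ} (h : S.w γ = j) : S.Wt j (S.pred γ) :=
  fun ξ hξ => (S.w_pred γ ξ hξ).trans h

theorem wt_some {j : ℕ} {γ : S.Γ} (h : S.w γ = j) : S.Wt j (some γ) := by
  intro ξ hξ
  cases hξ
  exact h

/-- The local weight lemma. -/
theorem local_weight {c h : ℕ} {x : Z} (hx : S.P c x = x)
    (h0 : ∀ γ, S.w γ = h → S.rank γ < c → S.e γ x = 0) {γ : S.Γ} (hγ : S.w γ = h) :
    ‖S.e γ x‖ ≤ 3 * ‖x‖ / π.m h := by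
  have hnn : 0 ≤ 3 * ‖x‖ / π.m h := div_nonneg (by positivity) (π.m_pos h).le
  have key : ∀ o, S.Wt h o → ‖S.eo o x‖ ≤ 3 * ‖x‖ / π.m h := by
    intro o
    induction o using chain_ind with
    | h0 => intro _; simpa using hnn
    | h1 γ ih =>
      intro hw
      have hwγ : S.w γ = h := hw γ rfl
      change ‖S.e γ x‖ ≤ _
      by_cases h1 : S.rank γ < c
      · rw [h0 γ hwγ h1]; simpa using hnn
      by_cases h2 : c ≤ S.top (S.pred γ)
      · rw [e_early hx h2]; exact ih (wt_pred hwγ)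
      have h3 : S.eo (S.pred γ) x = 0 := by
        cases hp : S.pred γ with
        | none => rfl
        | some ξ =>
          rw [hp] at h2
          exact h0 ξ ((S.w_pred γ ξ hp).trans hwγ) (by simp at h2; omega)
      rw [e_rec' hx (not_lt.1 h1), h3, zero_add, norm_inv_mul, hwγ]
      exact div_le_div_of_nonneg_right ((S.b_norm _ _).trans (norm_sub_P _ _)) (π.m_pos h).le
  exact key (some γ) (wt_some hγ)

theorem late_weight {c : ℕ} {x : Z} (hx : S.P c x = x) {γ : S.Γ} (hγ : c ≤ S.w γ) :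
    ‖S.e γ x‖ ≤ 3 * ‖x‖ / π.m (S.w γ) :=
  local_weight hx (fun γ' h1 h2 => absurd h2 (by have := S.w_le γ'; omega)) rfl

variable (S) in
/-- `o` lies in the chain of predecessors of `o'`. -/
def Le (o o' : Option S.Γ) : Prop :=
  Relation.ReflTransGen (fun a a' => ∃ γ, a' = some γ ∧ S.pred γ = a) o o'

theorem Le.refl (o : Option S.Γ) : S.Le o o := Relation.ReflTransGen.refl

theorem Le.trans {a b c : Option S.Γ} (h1 : S.Le a b) (h2 : S.Le b c) : S.Le a c :=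
  Relation.ReflTransGen.trans h1 h2

theorem Le.single (γ : S.Γ) : S.Le (S.pred γ) (some γ) :=
  Relation.ReflTransGen.single ⟨γ, rfl, rfl⟩

theorem Le.top_le {o o' : Option S.Γ} (h : S.Le o o') : S.top o ≤ S.top o' := by
  induction h with
  | refl => exact le_rfl
  | tail _ h ih =>
    obtain ⟨γ, rfl, rfl⟩ := h
    exact ih.trans ((S.top_le γ).trans (Nat.le_succ _))

theorem Le.eo_eq {o o' : Option S.Γ} (h : S.Le o o') {c : ℕ} {x : Z} (hx : S.P c x = x)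
    (hc : c ≤ S.top o) : S.eo o' x = S.eo o x := by
  induction h with
  | refl => rfl
  | tail h' h ih =>
    obtain ⟨γ, rfl, rfl⟩ := h
    rw [← ih]
    exact e_early hx (hc.trans (Le.top_le h'))

theorem le_of_steps {o : ℕ → Option S.Γ} {N : ℕ} (h : ∀ i < N, S.Le (o i) (o (i + 1))) :
    ∀ k l, k ≤ l → l ≤ N → S.Le (o k) (o l) := by
  intro k l hkl
  induction l, hkl using Nat.le_induction with
  | base => exact fun _ => Le.refl _
  | succ l hl ih => exact fun hN => (ih (by omega)).trans (h l (by omega))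

theorem exists_P_close (x : Z) {ε : ℝ} (hε : 0 < ε) (r : ℕ) :
    ∃ c, r ≤ c ∧ ‖S.P c x - x‖ ≤ ε := by
  have h := (Metric.tendsto_nhds.1 (S.P_tendsto x)) ε hε
  obtain ⟨c, h1, h2⟩ := (h.and (eventually_ge_atTop r)).exists
  exact ⟨c, h2, by rw [← dist_eq_norm]; exact h1.le⟩

theorem eventually_P_close (x : Z) {ε : ℝ} (hε : 0 < ε) :
    ∀ᶠ c in atTop, ‖S.P c x - x‖ ≤ ε :=
  ((Metric.tendsto_nhds.1 (S.P_tendsto x)) ε hε).mono fun c h => by
    rw [← dist_eq_norm]; exact h.le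

end Sys

end Pool.Agent.P.MP_5298e3_an
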